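import Mathlib

/-!
# SHU.AS: the recursion for the costs (pure arithmetic)

PAPER PROOF. SB t n c means `spreading t tokens over n positions costs at most c`, TB n c means
`shuffling n positions costs at most c`. (1) For every odd t and every eps > 0 there is K with:
for every n >= t there is c with SB t n c and c <= ((t+2)/2 + eps) n + K. t = 1: h1. t >= 3: let
eps' = eps/2 and K' for t-2; take n_1 = 2 max(m_0, t, (2/eps)(K' + kappa + kappa') + 1) or so; K = max of the costs from hb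
for t <= n < n_1; for n >= n_1 write n = 2m or 2m+1: c(2m) <= c_t(m) + c_(t-2)(m) + m + kappa
<= ((t+2)/2+eps) m + K + (t/2 + eps') m + K' + m + kappa <= ((t+2)/2 + eps) 2m + K - kappa' since
(eps - eps') m >= K' + kappa + kappa'; 2m+1: add kappa'. (2) TB: fix t odd with 1/t small: TB (a+t) from TB a, TB t, SB t (a+t):
T(n) <= T(n-t) + C + ((t+2)/2+eps) n + K; iterate: T(n) <= sum_{j <= n/t} (((t+2)/2+eps)(n - j t) + K'')
<= ((t+2)/2+eps) (n^2/(2t) + n) + K''(n/t+1) + C'; (t+2)/(4t) + eps/(2t) <= 1/4 + small.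
-/

namespace SHU

private theorem as_sum_bound (f : ℕ → ℕ) (n N : ℕ) (h : n < N) :
    (f n : ℝ) ≤ ((∑ i ∈ Finset.range N, f i : ℕ) : ℝ) := by
  have : f n ≤ ∑ i ∈ Finset.range N, f i :=
    Finset.single_le_sum (f := f) (fun i _ => Nat.zero_le _) (Finset.mem_range.2 h)
  exact_mod_cast this

private theorem as_step1 (SB : ℕ → ℕ → ℕ → Prop)
    (h1 : ∀ N, 1 ≤ N → SB 1 N (N + N / 2))
    (hb : ∀ t n, 1 ≤ t → t ≤ n → ∃ c, SB t n c)
    (he : ∀ t, Odd t → 3 ≤ t → ∃ m₀ κ : ℕ, ∀ m ≥ m₀, ∀ c₁ c₂, SB t m c₁ → SB (t - 2) m c₂ →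
      SB t (2 * m) (c₁ + c₂ + m + κ))
    (ho : ∀ t, 1 ≤ t → ∃ κ : ℕ, ∀ m, t ≤ 2 * m → ∀ c, SB t (2 * m) c → SB t (2 * m + 1) (c + κ))
    (r : ℕ) : ∀ ε : ℝ, 0 < ε → ∃ K : ℝ, 0 ≤ K ∧ ∀ n, 2 * r + 1 ≤ n → ∃ c : ℕ, SB (2 * r + 1) n c ∧
      (c : ℝ) ≤ (((2 * r + 1 : ℕ) : ℝ) / 2 + 1 + ε) * n + K := by
  induction r with
  | zero =>
    intro ε hε
    refine ⟨0, le_rfl, fun n hn => ⟨n + n / 2, h1 n (by omega), ?_⟩⟩
    have h2 : ((n / 2 : ℕ) : ℝ) ≤ (n : ℝ) / 2 := Nat.cast_div_le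
    have h3 : (0 : ℝ) ≤ ε * n := by positivity
    push_cast
    nlinarith
  | succ r ih =>
    intro ε hε
    obtain ⟨K', hK'0, hK'⟩ := ih (ε / 2) (by positivity)
    obtain ⟨m₀, κ, hm₀⟩ := he (2 * (r + 1) + 1) ⟨r + 1, rfl⟩ (by omega)
    obtain ⟨κ', hκ'⟩ := ho (2 * (r + 1) + 1) (by omega)
    have ht2 : 2 * (r + 1) + 1 - 2 = 2 * r + 1 := by omega
    rw [ht2] at hm₀
    obtain ⟨M, hM⟩ := exists_nat_ge ((2 / ε) * (K' + κ + κ'))
    have hbb : ∀ n, ∃ c, 2 * (r + 1) + 1 ≤ n → SB (2 * (r + 1) + 1) n c := by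
      intro n
      by_cases hn : 2 * (r + 1) + 1 ≤ n
      · obtain ⟨c, hc⟩ := hb (2 * (r + 1) + 1) n (by omega) hn
        exact ⟨c, fun _ => hc⟩
      · exact ⟨0, fun h => absurd h hn⟩
    choose f hf using hbb
    set N₁ : ℕ := 2 * m₀ + 2 * (2 * (r + 1) + 1) + 2 * M + 2 with hN₁
    refine ⟨((∑ i ∈ Finset.range N₁, f i : ℕ) : ℝ), by positivity, ?_⟩
    intro n
    induction n using Nat.strong_induction_on with
    | _ n IH =>
      intro hn
      by_cases hlt : n < N₁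
      · refine ⟨f n, hf n hn, ?_⟩
        have := as_sum_bound f n N₁ hlt
        have h0 : (0 : ℝ) ≤ (((2 * (r + 1) + 1 : ℕ) : ℝ) / 2 + 1 + ε) * n := by positivity
        linarith
      · push Not at hlt
        set m : ℕ := n / 2 with hm
        have hm1 : m₀ ≤ m := by omega
        have hm2 : 2 * (r + 1) + 1 ≤ m := by omega
        have hm3 : M ≤ m := by omega
        have hm4 : m < n := by omega
        obtain ⟨c₁, hc₁, hc₁'⟩ := IH m hm4 hm2
        obtain ⟨c₂, hc₂, hc₂'⟩ := hK' m (by omega)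
        have hev := hm₀ m hm1 c₁ c₂ hc₁ hc₂
        have hMm : (2 / ε) * (K' + κ + κ') ≤ m := le_trans hM (by exact_mod_cast hm3)
        have hkey : K' + κ + κ' ≤ ε / 2 * m := by
          have := mul_le_mul_of_nonneg_left hMm (le_of_lt (by positivity : (0 : ℝ) < ε / 2))
          have h2 : ε / 2 * ((2 / ε) * (K' + κ + κ')) = K' + κ + κ' := by
            field_simp
          linarith
        have hcast : ((2 * (r + 1) + 1 : ℕ) : ℝ) = ((2 * r + 1 : ℕ) : ℝ) + 2 := by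
          push_cast; ring
        have hcost : ((c₁ + c₂ + m + κ : ℕ) : ℝ) + κ' ≤
            (((2 * (r + 1) + 1 : ℕ) : ℝ) / 2 + 1 + ε) * (2 * m) +
              ((∑ i ∈ Finset.range N₁, f i : ℕ) : ℝ) := by
          have e1 : ((c₁ + c₂ + m + κ : ℕ) : ℝ) = (c₁ : ℝ) + c₂ + m + κ := by push_cast; ring
          rw [e1]
          rw [hcast] at hc₁' ⊢
          nlinarith
        rcases Nat.even_or_odd' n with ⟨k, hk | hk⟩
        · have hkm : k = m := by omega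
          subst hkm
          rw [hk]
          refine ⟨_, hev, ?_⟩
          have h0 : (0 : ℝ) ≤ κ' := Nat.cast_nonneg _
          have h5 : ((2 * (n / 2) : ℕ) : ℝ) = 2 * ((n / 2 : ℕ) : ℝ) := by push_cast; ring
          rw [h5]
          linarith
        · have hkm : k = m := by omega
          subst hkm
          rw [hk]
          refine ⟨_, hκ' _ (by omega) _ hev, ?_⟩
          have h5 : ((2 * (n / 2) + 1 : ℕ) : ℝ) = 2 * ((n / 2 : ℕ) : ℝ) + 1 := by push_cast; ring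
          rw [h5]
          have h6 : (0 : ℝ) ≤ (((2 * (r + 1) + 1 : ℕ) : ℝ) / 2 + 1 + ε) := by positivity
          have h7 : ((c₁ + c₂ + n / 2 + κ + κ' : ℕ) : ℝ) = ((c₁ + c₂ + n / 2 + κ : ℕ) : ℝ) + κ' := by
            push_cast; ring
          rw [h7]
          nlinarith

theorem asym (SB : ℕ → ℕ → ℕ → Prop) (TB : ℕ → ℕ → Prop)
    (h1 : ∀ N, 1 ≤ N → SB 1 N (N + N / 2))
    (hb : ∀ t n, 1 ≤ t → t ≤ n → ∃ c, SB t n c)
    (he : ∀ t, Odd t → 3 ≤ t → ∃ m₀ κ : ℕ, ∀ m ≥ m₀, ∀ c₁ c₂, SB t m c₁ → SB (t - 2) m c₂ →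
      SB t (2 * m) (c₁ + c₂ + m + κ))
    (ho : ∀ t, 1 ≤ t → ∃ κ : ℕ, ∀ m, t ≤ 2 * m → ∀ c, SB t (2 * m) c → SB t (2 * m + 1) (c + κ))
    (hm : ∀ a t c₁ c₂ c₃, 1 ≤ t → TB a c₁ → TB t c₂ → SB t (a + t) c₃ → TB (a + t) (c₁ + c₂ + c₃))
    (ht : ∀ n, ∃ c, TB n c) :
    ∀ ε : ℝ, 0 < ε → ∃ N : ℕ, ∀ n ≥ N, ∃ c : ℕ, TB n c ∧
      (c : ℝ) ≤ (1 / 2 + ε) * ((n : ℝ) * ((n : ℝ) - 1) / 2) := by
  intro ε hε
  obtain ⟨r, hr⟩ := exists_nat_ge (8 / ε)
  obtain ⟨K, hK0, hK⟩ := as_step1 SB h1 hb he ho r 1 one_pos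
  set t : ℕ := 2 * r + 1 with htdef
  obtain ⟨ct, hct⟩ := ht t
  choose f hf using ht
  have htpos : (0 : ℝ) < t := by rw [htdef]; positivity
  have ht1 : (1 : ℝ) ≤ t := by rw [htdef]; push_cast; linarith [(Nat.cast_nonneg r : (0 : ℝ) ≤ r)]
  set al : ℝ := (t : ℝ) / 2 + 1 + 1 with hal
  have hal0 : 0 < al := by positivity
  set B : ℝ := ct + al + K with hB
  have hB0 : 0 ≤ B := by positivity
  set D : ℝ := ((∑ i ∈ Finset.range t, f i : ℕ) : ℝ) with hD
  have hD0 : 0 ≤ D := by positivity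
  have main : ∀ n : ℕ, ∃ c : ℕ, TB n c ∧ (c : ℝ) ≤ al / (2 * t) * (n : ℝ) ^ 2 + B * n + D := by
    intro n
    induction n using Nat.strong_induction_on with
    | _ n IH =>
      by_cases hlt : n < t
      · refine ⟨f n, hf n, ?_⟩
        have := as_sum_bound f n t hlt
        have h0 : 0 ≤ al / (2 * t) * (n : ℝ) ^ 2 := by positivity
        have h1 : 0 ≤ B * n := by positivity
        linarith
      · push Not at hlt
        obtain ⟨a, rfl⟩ : ∃ a, n = a + t := ⟨n - t, by omega⟩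
        obtain ⟨c₁, hc₁, hc₁'⟩ := IH a (by omega)
        obtain ⟨c₃, hc₃, hc₃'⟩ := hK (a + t) (by omega)
        refine ⟨c₁ + ct + c₃, hm a t c₁ ct c₃ (by omega) hc₁ hct hc₃, ?_⟩
        push_cast at hc₃' ⊢
        have hc3 : (c₃ : ℝ) ≤ al * (a + t) + K := by
          rw [hal]; exact hc₃'
        have e1 : al / (2 * t) * ((a : ℝ) + t) ^ 2 =
            al / (2 * t) * (a : ℝ) ^ 2 + al * a + al * t / 2 := by
          field_simp
          ring
        rw [e1]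
        have e2 : (ct : ℝ) + al * t + K ≤ B * t := by
          rw [hB]
          have := (Nat.cast_nonneg ct : (0 : ℝ) ≤ ct)
          nlinarith
        have e3 : 0 ≤ al * t := by positivity
        nlinarith
  have hA : al / (2 * t) ≤ 1 / 4 + ε / 8 := by
    rw [div_le_iff₀ (by positivity)]
    have h8 : 8 ≤ ε * r := by
      have := mul_le_mul_of_nonneg_left hr hε.le
      have h2 : ε * (8 / ε) = 8 := by field_simp
      linarith
    have htr : (t : ℝ) = 2 * r + 1 := by rw [htdef]; push_cast; ring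
    rw [hal, htr]
    nlinarith
  obtain ⟨N, hN⟩ := exists_nat_ge ((8 / (3 * ε)) * (B + 1 / 4 + ε / 2 + D))
  refine ⟨N + 1, fun n hn => ?_⟩
  obtain ⟨c, hc, hc'⟩ := main n
  refine ⟨c, hc, le_trans hc' ?_⟩
  have hn1 : (1 : ℝ) ≤ n := by
    have : 1 ≤ n := by omega
    exact_mod_cast this
  have hnN : (8 / (3 * ε)) * (B + 1 / 4 + ε / 2 + D) ≤ n := by
    refine le_trans hN ?_
    have : N ≤ n := by omega
    exact_mod_cast this
  have hkey : B + 1 / 4 + ε / 2 + D ≤ 3 * ε / 8 * n := by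
    have := mul_le_mul_of_nonneg_left hnN (le_of_lt (by positivity : (0 : ℝ) < 3 * ε / 8))
    have h2 : 3 * ε / 8 * ((8 / (3 * ε)) * (B + 1 / 4 + ε / 2 + D)) = B + 1 / 4 + ε / 2 + D := by
      field_simp
    linarith
  have h1 : al / (2 * t) * (n : ℝ) ^ 2 ≤ (1 / 4 + ε / 8) * (n : ℝ) ^ 2 :=
    mul_le_mul_of_nonneg_right hA (by positivity)
  have h2 : (B + 1 / 4 + ε / 2 + D) * n ≤ 3 * ε / 8 * n * n :=
    mul_le_mul_of_nonneg_right hkey (by positivity)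
  have h3 : D ≤ D * n := by nlinarith
  nlinarith

end SHU
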