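import Mathlib

/-!
# Lazy transpositions: definitions (MP_89e859_co)

A lazy transposition is a triple (a, b, p). Lists of lazy transpositions act on real functions on
any type with an action of the permutations; the first element of the list is applied first.
-/

open scoped Pointwise

namespace SHU

variable {α : Type} [DecidableEq α]

/-- lazy transpositions -/
abbrev Op (α : Type) : Type := α × α × ℝ

/-- one lazy transposition acting on functions -/
noncomputable def act1 {Z : Type} [MulAction (Equiv.Perm α) Z] (e : Op α) (F : Z → ℝ) : Z → ℝ :=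
  fun z => (1 - e.2.2) * F z + e.2.2 * F (Equiv.swap e.1 e.2.1 • z)

/-- a list of lazy transpositions acting on functions, first element first -/
noncomputable def act {Z : Type} [MulAction (Equiv.Perm α) Z] : List (Op α) → (Z → ℝ) → Z → ℝ
  | [], F => F
  | e :: L, F => act L (act1 e F)

/-- the point mass at the identity -/
noncomputable def delta (α : Type) [DecidableEq α] [Fintype α] : Equiv.Perm α → ℝ :=
  fun g => if g = 1 then 1 else 0

/-- a genuine lazy transposition with both ends in `X` -/
def InX (X : Finset α) (e : Op α) : Prop :=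
  e.1 ∈ X ∧ e.2.1 ∈ X ∧ e.1 ≠ e.2.1 ∧ 0 ≤ e.2.2 ∧ e.2.2 ≤ 1

/-- the list shuffles `A` perfectly (and touches nothing else) -/
def IsSymOn [Fintype α] (A : Finset α) (L : List (Op α)) : Prop :=
  (∀ e ∈ L, InX A e) ∧
    ∀ a ∈ A, ∀ b ∈ A, ∀ z : Equiv.Perm α,
      act L (delta α) (Equiv.swap a b * z) = act L (delta α) z

/-- the list spreads tokens filling `H` to a uniform set of `#H` positions of `X` -/
def Spr (X H : Finset α) (Q : List (Op α)) : Prop :=
  (∀ e ∈ Q, InX X e) ∧ H ⊆ X ∧
    ∀ C : Finset α, Disjoint C X → ∀ A : Finset α,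
      act Q (fun B : Finset α => if B = H ∪ C then (1 : ℝ) else 0) A =
        if A \ X = C ∧ (A ∩ X).card = H.card then 1 / (X.card.choose H.card : ℝ) else 0

/-- a run: starting with the centre at `c` the list costs one star transposition per element and
ends with the centre at `c'` -/
inductive Path : α → List (Op α) → α → Prop
  | nil (c : α) : Path c [] c
  | cons (c d c' : α) (e : Op α) (L : List (Op α)) (h1 : c = e.1 ∨ c = e.2.1)
      (h2 : d = e.1 ∨ d = e.2.1) (h : Path d L c') : Path c (e :: L) c'

/-- star cost: each run costs its length plus one -/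
inductive Cost : List (Op α) → ℕ → Prop
  | nil : Cost [] 0
  | snoc (L R : List (Op α)) (k : ℕ) (c c' : α) (h : Cost L k) (hR : Path c R c') :
      Cost (L ++ R) (k + (R.length + 1))

/-- a schedule: some preliminary runs, then `#X / 2` runs each of which ends with the centre at `z`
and after which the two positions `z`, `w` are never touched again -/
structure Sched (X H : Finset α) where
  pre : List (Op α)
  cpre : ℕ
  hpre : Cost pre cpre
  comp : List (List (Op α) × α × α)
  hpath : ∀ c ∈ comp, ∃ s, Path s c.1 c.2.1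
  hnd : (comp.flatMap (fun c => [c.2.1, c.2.2])).Nodup
  hin : ∀ c ∈ comp, c.2.1 ∈ X ∧ c.2.2 ∈ X
  hdone : comp.Pairwise (fun c d => ∀ e ∈ d.1,
    e.1 ≠ c.2.1 ∧ e.1 ≠ c.2.2 ∧ e.2.1 ≠ c.2.1 ∧ e.2.1 ≠ c.2.2)
  hlen : comp.length = X.card / 2
  hspr : Spr X H (pre ++ comp.flatMap (fun c => c.1))

/-- the cost of a schedule -/
def Sched.cost {X H : Finset α} (S : Sched X H) : ℕ :=
  S.cpre + (S.comp.map (fun c => c.1.length + 1)).sum

/-- spreading `t` tokens over `n` positions costs at most `c` -/
def SB (t n c : ℕ) : Prop :=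
  ∀ (α : Type) [Fintype α] [DecidableEq α] (X H : Finset α), H ⊆ X → H.card = t → X.card = n →
    ∃ S : Sched X H, S.cost ≤ c

/-- shuffling `n` positions costs at most `c` -/
def TB (n c : ℕ) : Prop :=
  ∀ (α : Type) [Fintype α] [DecidableEq α] (A : Finset α), A.card = n →
    ∃ (L : List (Op α)) (k : ℕ), IsSymOn A L ∧ Cost L k ∧ k ≤ c

/-- generating polynomial of a sum of independent Bernoulli variables -/
noncomputable def gp (p : List ℝ) : Polynomial ℝ :=
  (p.map (fun x => Polynomial.C (1 - x) + Polynomial.C x * Polynomial.X)).prod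

/-- the law of the product `T₁ T₂ ⋯ Tₗ` of independent lazy transpositions -/
noncomputable def prodLaw [Fintype α] : List (Op α) → Equiv.Perm α → ℝ
  | [], g => if g = 1 then 1 else 0
  | e :: L, g => (1 - e.2.2) * prodLaw L g + e.2.2 * prodLaw L (Equiv.swap e.1 e.2.1 * g)

/-- a transposition shuffle of `n` elements -/
def IsShuffle (n : ℕ) (L : List (Op (Fin n))) : Prop :=
  (∀ e ∈ L, e.1 ≠ e.2.1 ∧ 0 ≤ e.2.2 ∧ e.2.2 ≤ 1) ∧
    ∀ g : Equiv.Perm (Fin n), prodLaw L g = 1 / (n.factorial : ℝ)

/-- all transpositions of the list are star transpositions `(1, b)` (position `1` is `0 : Fin n`) -/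
def IsStar (n : ℕ) (L : List (Op (Fin n))) : Prop := ∀ e ∈ L, (e.1 : ℕ) = 0

/-- the least length of a star transposition shuffle -/
noncomputable def starLength (n : ℕ) : ℕ :=
  sInf {l | ∃ L : List (Op (Fin n)), IsShuffle n L ∧ IsStar n L ∧ L.length = l}

end SHU
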