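import Mathlib
import Pool.Agent.SHU.D

/-!
# SHU.B: basic lemmas on the action of lists
-/

open scoped Pointwise

namespace SHU

variable {α : Type} [DecidableEq α] {Z : Type} [MulAction (Equiv.Perm α) Z]

@[simp] theorem act_nil (F : Z → ℝ) : act ([] : List (Op α)) F = F := rfl

@[simp] theorem act_cons (e : Op α) (L : List (Op α)) (F : Z → ℝ) :
    act (e :: L) F = act L (act1 e F) := rfl

theorem act_append (L L' : List (Op α)) (F : Z → ℝ) : act (L ++ L') F = act L' (act L F) := by
  induction L generalizing F with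
  | nil => rfl
  | cons e L ih => simp [ih]

theorem act1_add (e : Op α) (F G : Z → ℝ) :
    act1 e (fun z => F z + G z) = fun z => act1 e F z + act1 e G z := by
  funext z; simp only [act1]; ring

theorem act1_mul (e : Op α) (c : ℝ) (F : Z → ℝ) :
    act1 e (fun z => c * F z) = fun z => c * act1 e F z := by
  funext z; simp only [act1]; ring

theorem act_add (L : List (Op α)) (F G : Z → ℝ) :
    act L (fun z => F z + G z) = fun z => act L F z + act L G z := by
  induction L generalizing F G with
  | nil => rfl
  | cons e L ih => simp only [act_cons, act1_add, ih]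

theorem act_mul (L : List (Op α)) (c : ℝ) (F : Z → ℝ) :
    act L (fun z => c * F z) = fun z => c * act L F z := by
  induction L generalizing F with
  | nil => rfl
  | cons e L ih => simp only [act_cons, act1_mul, ih]

theorem act_zero (L : List (Op α)) : act L (fun _ : Z => (0 : ℝ)) = fun _ => 0 := by
  have h := act_mul L 0 (fun _ : Z => (0 : ℝ))
  simpa using h

theorem act_sum {ι : Type*} (s : Finset ι) (L : List (Op α)) (F : ι → Z → ℝ) :
    act L (fun z => ∑ i ∈ s, F i z) = fun z => ∑ i ∈ s, act L (F i) z := by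
  classical
  induction s using Finset.induction_on with
  | empty => simpa using act_zero L
  | insert a s ha ih =>
    simp only [Finset.sum_insert ha]
    rw [act_add, ih]

/-- equivariant maps -/
theorem act_comp {W : Type} [MulAction (Equiv.Perm α) W] (f : Z → W) (L : List (Op α))
    (hf : ∀ e ∈ L, ∀ z, f (Equiv.swap e.1 e.2.1 • z) = Equiv.swap e.1 e.2.1 • f z)
    (F : W → ℝ) : act L (fun z => F (f z)) = fun z => act L F (f z) := by
  induction L generalizing F with
  | nil => rfl
  | cons e L ih =>
    simp only [act_cons]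
    rw [← ih (fun e' he' => hf e' (List.mem_cons_of_mem _ he'))]
    congr 1
    funext z
    simp only [act1, hf e (List.mem_cons_self ..)]

/-- locality: only the values on a set which is stable under the swaps matter -/
theorem act_congr (S : Z → Prop) (L : List (Op α))
    (hS : ∀ e ∈ L, ∀ z, S z → S (Equiv.swap e.1 e.2.1 • z)) (F G : Z → ℝ)
    (h : ∀ z, S z → F z = G z) : ∀ z, S z → act L F z = act L G z := by
  induction L generalizing F G with
  | nil => exact h
  | cons e L ih =>
    simp only [act_cons]
    apply ih (fun e' he' => hS e' (List.mem_cons_of_mem _ he'))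
    intro z hz
    simp only [act1]
    rw [h z hz, h _ (hS e (List.mem_cons_self ..) z hz)]

/-- invariant factors -/
theorem act_factor (χ : Z → ℝ) (L : List (Op α))
    (hχ : ∀ e ∈ L, ∀ z, χ (Equiv.swap e.1 e.2.1 • z) = χ z) (F : Z → ℝ) :
    act L (fun z => χ z * F z) = fun z => χ z * act L F z := by
  induction L generalizing F with
  | nil => rfl
  | cons e L ih =>
    simp only [act_cons]
    rw [← ih (fun e' he' => hχ e' (List.mem_cons_of_mem _ he'))]
    congr 1
    funext z
    simp only [act1, hχ e (List.mem_cons_self ..)]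
    ring

theorem act_inv (L : List (Op α)) (F : Z → ℝ)
    (h : ∀ e ∈ L, ∀ z, F (Equiv.swap e.1 e.2.1 • z) = F z) : act L F = F := by
  induction L with
  | nil => rfl
  | cons e L ih =>
    simp only [act_cons]
    have : act1 e F = F := by
      funext z; simp only [act1, h e (List.mem_cons_self ..)]; ring
    rw [this, ih (fun e' he' => h e' (List.mem_cons_of_mem _ he'))]

/-- two lazy transpositions on disjoint pairs commute -/
theorem act1_comm (e e' : Op α) (h1 : e.1 ≠ e'.1) (h2 : e.1 ≠ e'.2.1) (h3 : e.2.1 ≠ e'.1)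
    (h4 : e.2.1 ≠ e'.2.1) (F : Z → ℝ) : act1 e (act1 e' F) = act1 e' (act1 e F) := by
  have hc : Equiv.swap e.1 e.2.1 * Equiv.swap e'.1 e'.2.1 =
      Equiv.swap e'.1 e'.2.1 * Equiv.swap e.1 e.2.1 := by
    apply Equiv.Perm.Disjoint.commute
    intro x
    by_cases hx : x = e.1
    · right; subst hx; exact Equiv.swap_apply_of_ne_of_ne h1 h2
    · by_cases hx' : x = e.2.1
      · right; subst hx'; exact Equiv.swap_apply_of_ne_of_ne h3 h4
      · left; exact Equiv.swap_apply_of_ne_of_ne hx hx'
  funext z
  simp only [act1, smul_smul, hc]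
  ring

/-- a lazy transposition commutes with a list which does not touch its ends -/
theorem act1_act_comm (e : Op α) (L : List (Op α))
    (h : ∀ e' ∈ L, e'.1 ≠ e.1 ∧ e'.1 ≠ e.2.1 ∧ e'.2.1 ≠ e.1 ∧ e'.2.1 ≠ e.2.1) (F : Z → ℝ) :
    act1 e (act L F) = act L (act1 e F) := by
  induction L generalizing F with
  | nil => rfl
  | cons e' L ih =>
    simp only [act_cons]
    rw [ih (fun e'' he'' => h e'' (List.mem_cons_of_mem _ he''))]
    obtain ⟨a1, a2, a3, a4⟩ := h e' (List.mem_cons_self ..)
    rw [act1_comm e e' a1.symm a3.symm a2.symm a4.symm]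

/-- lists with disjoint supports commute -/
theorem act_act_comm (L L' : List (Op α))
    (h : ∀ e ∈ L, ∀ e' ∈ L', e'.1 ≠ e.1 ∧ e'.1 ≠ e.2.1 ∧ e'.2.1 ≠ e.1 ∧ e'.2.1 ≠ e.2.1)
    (F : Z → ℝ) : act L (act L' F) = act L' (act L F) := by
  induction L generalizing F with
  | nil => rfl
  | cons e L ih =>
    simp only [act_cons]
    rw [act1_act_comm e L' (h e (List.mem_cons_self ..)),
      ih (fun e'' he'' => h e'' (List.mem_cons_of_mem _ he''))]

/-- sums over stable finite sets are preserved -/
theorem sum_act (S : Finset Z) (L : List (Op α))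
    (hS : ∀ e ∈ L, ∀ z ∈ S, Equiv.swap e.1 e.2.1 • z ∈ S) (F : Z → ℝ) :
    ∑ z ∈ S, act L F z = ∑ z ∈ S, F z := by
  induction L generalizing F with
  | nil => rfl
  | cons e L ih =>
    simp only [act_cons]
    rw [ih (fun e' he' => hS e' (List.mem_cons_of_mem _ he'))]
    simp only [act1, Finset.sum_add_distrib, ← Finset.mul_sum]
    have : ∑ z ∈ S, F (Equiv.swap e.1 e.2.1 • z) = ∑ z ∈ S, F z := by
      refine Finset.sum_nbij' (fun z => Equiv.swap e.1 e.2.1 • z)
        (fun z => Equiv.swap e.1 e.2.1 • z) ?_ ?_ ?_ ?_ ?_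
      · intro z hz; exact hS e (List.mem_cons_self ..) z hz
      · intro z hz; exact hS e (List.mem_cons_self ..) z hz
      · intro z _; simp [smul_smul]
      · intro z _; simp [smul_smul]
      · intro z _; rfl
    rw [this]; ring

section
variable [Fintype α]

/-- the law of a list -/
theorem act_eq_sum (L : List (Op α)) (F : Z → ℝ) (s : Equiv.Perm α) (z : Z) :
    act L F (s • z) = ∑ h : Equiv.Perm α, F (h • z) * act L (delta α) (s * h⁻¹) := by
  have h1 : act L F (s • z) = act L (fun g : Equiv.Perm α => F (g • z)) s := by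
    have := act_comp (fun g : Equiv.Perm α => g • z) L
      (by intro e _ g; simp [smul_smul]) F
    exact (congrFun this s).symm
  rw [h1]
  have h2 : (fun g : Equiv.Perm α => F (g • z)) =
      fun g => ∑ h : Equiv.Perm α, F (h • z) * delta α (g * h⁻¹) := by
    funext g
    simp only [delta, mul_inv_eq_one]
    simp
  rw [h2, act_sum]
  refine Finset.sum_congr rfl (fun h _ => ?_)
  rw [act_mul]
  show F (h • z) * _ = F (h • z) * _
  congr 1
  let φ : Equiv.Perm α → Equiv.Perm α := fun g => g * h⁻¹
  have h3 := act_comp (Z := Equiv.Perm α) (W := Equiv.Perm α) φ L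
    (by intro e _ g; simp [φ, mul_assoc]) (delta α)
  exact congrFun h3 s

theorem IsSymOn.inv {A : Finset α} {L : List (Op α)} (h : IsSymOn A L) (F : Z → ℝ) {a b : α}
    (ha : a ∈ A) (hb : b ∈ A) (z : Z) : act L F (Equiv.swap a b • z) = act L F z := by
  rw [act_eq_sum L F (Equiv.swap a b) z]
  have h0 := act_eq_sum L F 1 z
  simp only [one_smul] at h0
  rw [h0]
  refine Finset.sum_congr rfl (fun g _ => ?_)
  rw [h.2 a ha b hb, one_mul]

end

/-- membership in the image of a set under a swap -/
theorem mem_swap_smul (a b x : α) (A : Finset α) :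
    x ∈ Equiv.swap a b • A ↔ Equiv.swap a b x ∈ A := by
  conv_lhs => rw [← Equiv.swap_inv a b]
  rw [Finset.mem_inv_smul_finset_iff]
  rfl

/-- invariance under swaps inside `H` : the value depends on `A \ H` and `#(A ∩ H)` only -/
theorem eq_of_swap_inv {H : Finset α} (F : Finset α → ℝ)
    (hF : ∀ a ∈ H, ∀ b ∈ H, ∀ A : Finset α, F (Equiv.swap a b • A) = F A) :
    ∀ A B : Finset α, A \ H = B \ H → (A ∩ H).card = (B ∩ H).card → F A = F B := by
  have key : ∀ n : ℕ, ∀ A B : Finset α, (A \ B).card = n → A \ H = B \ H →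
      (A ∩ H).card = (B ∩ H).card → F A = F B := by
    intro n
    induction n with
    | zero =>
      intro A B hn h1 h2
      have hAB : A ⊆ B := by
        rw [Finset.card_eq_zero, Finset.sdiff_eq_empty_iff_subset] at hn; exact hn
      have h3 : A ∩ H ⊆ B ∩ H := Finset.inter_subset_inter_right hAB
      have h4 : A ∩ H = B ∩ H := Finset.eq_of_subset_of_card_le h3 h2.ge
      have : A = B := by
        rw [← Finset.sdiff_union_inter A H, ← Finset.sdiff_union_inter B H, h1, h4]
      rw [this]
    | succ n ih =>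
      intro A B hn h1 h2
      have hne : (A \ B).Nonempty := by rw [← Finset.card_pos]; omega
      obtain ⟨a, ha⟩ := hne
      rw [Finset.mem_sdiff] at ha
      have haH : a ∈ H := by
        by_contra hc
        have : a ∈ A \ H := Finset.mem_sdiff.2 ⟨ha.1, hc⟩
        rw [h1] at this
        exact ha.2 (Finset.mem_sdiff.1 this).1
      have hb : ∃ b ∈ B ∩ H, b ∉ A ∩ H := by
        by_contra hc
        push Not at hc
        have h5 : B ∩ H ⊆ A ∩ H := hc
        have h6 : B ∩ H = A ∩ H := Finset.eq_of_subset_of_card_le h5 h2.le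
        have : a ∈ A ∩ H := Finset.mem_inter.2 ⟨ha.1, haH⟩
        rw [← h6] at this
        exact ha.2 (Finset.mem_inter.1 this).1
      obtain ⟨b, hbB, hbA⟩ := hb
      rw [Finset.mem_inter] at hbB hbA
      have hbA' : b ∉ A := fun h => hbA ⟨h, hbB.2⟩
      rw [← hF a haH b hbB.2 A]
      have hmem : ∀ x, x ∈ Equiv.swap a b • A ↔ Equiv.swap a b x ∈ A := by
        intro x
        exact mem_swap_smul a b x A
      have hset : ∀ x, x ∈ Equiv.swap a b • A ↔ (x = b ∨ (x ≠ a ∧ x ∈ A)) := by
        intro x
        rw [hmem]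
        by_cases hx : x = a
        · subst hx
          rw [Equiv.swap_apply_left]
          constructor
          · intro h; exact absurd h hbA'
          · rintro (h | h)
            · exact absurd (h ▸ ha.1) (h ▸ hbA')
            · exact absurd rfl h.1
        · by_cases hx' : x = b
          · subst hx'
            rw [Equiv.swap_apply_right]
            simp [ha.1]
          · rw [Equiv.swap_apply_of_ne_of_ne hx hx']
            simp [hx, hx']
      apply ih
      · have : (Equiv.swap a b • A) \ B = (A \ B).erase a := by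
          ext x
          simp only [Finset.mem_sdiff, Finset.mem_erase, hset]
          constructor
          · rintro ⟨h | ⟨h, h'⟩, hB⟩
            · exact absurd (h ▸ hbB.1) hB
            · exact ⟨h, h', hB⟩
          · rintro ⟨h, h', hB⟩
            exact ⟨Or.inr ⟨h, h'⟩, hB⟩
        rw [this, Finset.card_erase_of_mem (Finset.mem_sdiff.2 ha), hn]
        rfl
      · rw [← h1]
        ext x
        simp only [Finset.mem_sdiff, hset]
        constructor
        · rintro ⟨h | ⟨h, h'⟩, hH⟩
          · exact absurd (h ▸ hbB.2) hH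
          · exact ⟨h', hH⟩
        · rintro ⟨h, hH⟩
          refine ⟨Or.inr ⟨?_, h⟩, hH⟩
          rintro rfl
          exact hH haH
      · rw [← h2]
        have : Equiv.swap a b • A ∩ H = insert b ((A ∩ H).erase a) := by
          ext x
          simp only [Finset.mem_inter, Finset.mem_insert, Finset.mem_erase, hset]
          constructor
          · rintro ⟨h | ⟨h, h'⟩, hH⟩
            · exact Or.inl h
            · exact Or.inr ⟨h, h', hH⟩
          · rintro (h | ⟨h, h', hH⟩)
            · exact ⟨Or.inl h, h ▸ hbB.2⟩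
            · exact ⟨Or.inr ⟨h, h'⟩, hH⟩
        rw [this, Finset.card_insert_of_notMem, Finset.card_erase_of_mem]
        · have : 0 < (A ∩ H).card := Finset.card_pos.2 ⟨a, Finset.mem_inter.2 ⟨ha.1, haH⟩⟩
          omega
        · exact Finset.mem_inter.2 ⟨ha.1, haH⟩
        · simp [hbA']
  intro A B h1 h2
  exact key _ A B rfl h1 h2

/-- swaps inside `X` do not change the part outside `X` -/
theorem swap_smul_sdiff {X : Finset α} {a b : α} (ha : a ∈ X) (hb : b ∈ X) (A : Finset α) :
    (Equiv.swap a b • A) \ X = A \ X := by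
  ext x
  simp only [Finset.mem_sdiff, mem_swap_smul]
  constructor
  · rintro ⟨h, hx⟩
    have h1 : x ≠ a := by rintro rfl; exact hx ha
    have h2 : x ≠ b := by rintro rfl; exact hx hb
    rw [Equiv.swap_apply_of_ne_of_ne h1 h2] at h
    exact ⟨h, hx⟩
  · rintro ⟨h, hx⟩
    have h1 : x ≠ a := by rintro rfl; exact hx ha
    have h2 : x ≠ b := by rintro rfl; exact hx hb
    rw [Equiv.swap_apply_of_ne_of_ne h1 h2]
    exact ⟨h, hx⟩

theorem swap_smul_inter {X : Finset α} {a b : α} (ha : a ∈ X) (hb : b ∈ X) (A : Finset α) :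
    (Equiv.swap a b • A) ∩ X = Equiv.swap a b • (A ∩ X) := by
  ext x
  simp only [Finset.mem_inter, mem_swap_smul]
  have hX : Equiv.swap a b x ∈ X ↔ x ∈ X := by
    by_cases h1 : x = a
    · subst h1; rw [Equiv.swap_apply_left]; simp [ha, hb]
    · by_cases h2 : x = b
      · subst h2; rw [Equiv.swap_apply_right]; simp [ha, hb]
      · rw [Equiv.swap_apply_of_ne_of_ne h1 h2]
  rw [hX]

theorem card_swap_smul_inter {X : Finset α} {a b : α} (ha : a ∈ X) (hb : b ∈ X) (A : Finset α) :
    ((Equiv.swap a b • A) ∩ X).card = (A ∩ X).card := by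
  rw [swap_smul_inter ha hb, Finset.card_smul_finset]

/-- two functions which agree on the class of `A` give the same value at `A` -/
theorem act_congr_class {X : Finset α} (L : List (Op α)) (hL : ∀ e ∈ L, InX X e)
    (F G : Finset α → ℝ) (A : Finset α)
    (h : ∀ B : Finset α, B \ X = A \ X → (B ∩ X).card = (A ∩ X).card → F B = G B) :
    act L F A = act L G A := by
  apply act_congr (fun B : Finset α => B \ X = A \ X ∧ (B ∩ X).card = (A ∩ X).card) L _ F G
    (fun B hB => h B hB.1 hB.2) A ⟨rfl, rfl⟩
  intro e he B hB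
  obtain ⟨h1, h2, -⟩ := hL e he
  rw [swap_smul_sdiff h1 h2, card_swap_smul_inter h1 h2]
  exact hB

/-- a function of the class is not changed -/
theorem act_class {X : Finset α} (L : List (Op α)) (hL : ∀ e ∈ L, InX X e)
    (ψ : ℕ → Finset α → ℝ) :
    act L (fun B : Finset α => ψ (B ∩ X).card (B \ X)) = fun B => ψ (B ∩ X).card (B \ X) := by
  apply act_inv
  intro e he B
  obtain ⟨h1, h2, -⟩ := hL e he
  rw [swap_smul_sdiff h1 h2, card_swap_smul_inter h1 h2]

theorem InX.mono {X Y : Finset α} (h : X ⊆ Y) {e : Op α} (he : InX X e) : InX Y e :=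
  ⟨h he.1, h he.2.1, he.2.2.1, he.2.2.2.1, he.2.2.2.2⟩

end SHU
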