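import Mathlib
import Pool.Agent.SHU.B

/-!
# SHU.SK: spreading fewer tokens
-/

open scoped Pointwise

namespace SHU

variable {α : Type} [DecidableEq α]

/-- forgetting one token inside `X` -/
noncomputable def dX (X : Finset α) (F : Finset α → ℝ) : Finset α → ℝ :=
  fun B => ∑ x ∈ X \ B, F (insert x B)

theorem swap_mem_iff {X : Finset α} {a b : α} (ha : a ∈ X) (hb : b ∈ X) (x : α) :
    Equiv.swap a b x ∈ X ↔ x ∈ X := by
  by_cases h1 : x = a
  · subst h1; rw [Equiv.swap_apply_left]; simp [ha, hb]
  · by_cases h2 : x = b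
    · subst h2; rw [Equiv.swap_apply_right]; simp [ha, hb]
    · rw [Equiv.swap_apply_of_ne_of_ne h1 h2]

theorem dX_act1 {X : Finset α} {e : Op α} (he : InX X e) (F : Finset α → ℝ) :
    dX X (act1 e F) = act1 e (dX X F) := by
  obtain ⟨h1, h2, -⟩ := he
  funext B
  simp only [dX, act1, Finset.sum_add_distrib, ← Finset.mul_sum]
  congr 2
  refine Finset.sum_nbij' (fun x => Equiv.swap e.1 e.2.1 x) (fun x => Equiv.swap e.1 e.2.1 x)
    ?_ ?_ ?_ ?_ ?_
  · intro x hx
    rw [Finset.mem_sdiff] at hx ⊢
    refine ⟨(swap_mem_iff h1 h2 x).2 hx.1, ?_⟩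
    rw [mem_swap_smul, Equiv.swap_apply_self]
    exact hx.2
  · intro x hx
    rw [Finset.mem_sdiff] at hx ⊢
    refine ⟨(swap_mem_iff h1 h2 x).2 hx.1, ?_⟩
    have := hx.2
    rw [mem_swap_smul] at this
    exact this
  · intro x _; exact Equiv.swap_apply_self _ _ _
  · intro x _; exact Equiv.swap_apply_self _ _ _
  · intro x _
    congr 1
    ext y
    rw [mem_swap_smul, Finset.mem_insert, Finset.mem_insert, mem_swap_smul]
    have : Equiv.swap e.1 e.2.1 y = x ↔ y = Equiv.swap e.1 e.2.1 x := by
      constructor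
      · rintro rfl; exact (Equiv.swap_apply_self _ _ _).symm
      · rintro rfl; exact Equiv.swap_apply_self _ _ _
    rw [this]

theorem dX_act {X : Finset α} (L : List (Op α)) (hL : ∀ e ∈ L, InX X e) (F : Finset α → ℝ) :
    dX X (act L F) = act L (dX X F) := by
  induction L generalizing F with
  | nil => rfl
  | cons e L ih =>
    simp only [act_cons]
    rw [ih (fun e' he' => hL e' (List.mem_cons_of_mem _ he')), dX_act1 (hL e (List.mem_cons_self ..))]

/-- indicator: outside part `C`, inside part contained in `H` with `k` elements -/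
noncomputable def uu (X H : Finset α) (k : ℕ) (C : Finset α) : Finset α → ℝ :=
  fun B => if B \ X = C ∧ B ∩ X ⊆ H ∧ (B ∩ X).card = k then 1 else 0

theorem dX_uu {X H : Finset α} (hH : H ⊆ X) (k : ℕ) (C : Finset α) :
    dX X (uu X H (k + 1) C) = fun B => ((H.card : ℝ) - k) * uu X H k C B := by
  funext B
  simp only [dX]
  have h1 : ∀ x ∈ X \ B, uu X H (k + 1) C (insert x B) =
      if x ∈ H then uu X H k C B else 0 := by
    intro x hx
    rw [Finset.mem_sdiff] at hx
    simp only [uu]
    have e1 : insert x B \ X = B \ X := by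
      rw [Finset.insert_sdiff_of_mem _ hx.1]
    have e2 : insert x B ∩ X = insert x (B ∩ X) := by
      rw [Finset.insert_inter_of_mem hx.1]
    have e3 : (insert x (B ∩ X)).card = (B ∩ X).card + 1 :=
      Finset.card_insert_of_notMem (fun h => hx.2 (Finset.mem_inter.1 h).1)
    rw [e1, e2, e3]
    simp only [Finset.insert_subset_iff]
    by_cases hxH : x ∈ H
    · simp [hxH]
    · simp [hxH]
  rw [Finset.sum_congr rfl h1, ← Finset.sum_filter, Finset.sum_const, nsmul_eq_mul]
  by_cases hu : B \ X = C ∧ B ∩ X ⊆ H ∧ (B ∩ X).card = k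
  · have h2 : (Finset.filter (fun x => x ∈ H) (X \ B)) = H \ (B ∩ X) := by
      ext x
      simp only [Finset.mem_filter, Finset.mem_sdiff, Finset.mem_inter, not_and]
      constructor
      · rintro ⟨⟨h, h'⟩, h''⟩; exact ⟨h'', fun h3 => absurd h3 h'⟩
      · rintro ⟨h, h'⟩; exact ⟨⟨hH h, fun h3 => h' h3 (hH h)⟩, h⟩
    rw [h2, Finset.card_sdiff_of_subset hu.2.1, Nat.cast_sub (Finset.card_le_card hu.2.1), hu.2.2]
  · simp only [uu, if_neg hu, mul_zero]

theorem act_uu {X H : Finset α} {Q : List (Op α)} (h : Spr X H Q) (C : Finset α)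
    (hC : Disjoint C X) : ∀ j k : ℕ, j + k = H.card →
      act Q (uu X H k C) = fun A => (H.card.choose k : ℝ) / (X.card.choose k : ℝ) * uu X X k C A := by
  obtain ⟨h1, h2, h3⟩ := h
  intro j
  induction j with
  | zero =>
    intro k hk
    rw [zero_add] at hk
    subst hk
    funext A
    have e1 : uu X H H.card C = fun B : Finset α => if B = H ∪ C then (1 : ℝ) else 0 := by
      funext B
      simp only [uu]
      congr 1
      rw [eq_iff_iff]
      constructor
      · rintro ⟨a1, a2, a3⟩
        have a4 : B ∩ X = H := Finset.eq_of_subset_of_card_le a2 a3.ge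
        rw [← Finset.sdiff_union_inter B X, a1, a4, Finset.union_comm]
      · rintro rfl
        have a1 : (H ∪ C) \ X = C := by
          rw [Finset.union_sdiff_distrib, Finset.sdiff_eq_empty_iff_subset.2 h2, Finset.empty_union,
            Finset.sdiff_eq_self_of_disjoint hC]
        have a2 : (H ∪ C) ∩ X = H := by
          rw [Finset.union_inter_distrib_right, Finset.inter_eq_left.2 h2,
            Finset.disjoint_iff_inter_eq_empty.1 hC, Finset.union_empty]
        exact ⟨a1, by rw [a2], by rw [a2]⟩
    rw [e1, h3 C hC A]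
    simp only [uu, Nat.choose_self, Nat.cast_one, Finset.inter_subset_right, true_and]
    by_cases hA : A \ X = C ∧ (A ∩ X).card = H.card
    · rw [if_pos hA, if_pos hA, mul_one]
    · rw [if_neg hA, if_neg hA, mul_zero]
  | succ j ih =>
    intro k hk
    have hk' : j + (k + 1) = H.card := by omega
    have e1 := ih (k + 1) hk'
    have e2 := congrArg (dX X) e1
    rw [dX_act Q h1, dX_uu h2, act_mul] at e2
    have hlin : ∀ (c : ℝ) (F : Finset α → ℝ), dX X (fun A => c * F A) = fun A => c * dX X F A := by
      intro c F; funext A; simp only [dX, Finset.mul_sum]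
    rw [hlin, dX_uu (Finset.Subset.refl X)] at e2
    funext A
    have e3 := congrFun e2 A
    simp only at e3
    have hkh : (k : ℝ) < H.card := by exact_mod_cast (by omega : k < H.card)
    have hHX := Finset.card_le_card h2
    have hc1 : (H.card.choose (k + 1) : ℝ) * (k + 1) = H.card.choose k * ((H.card : ℝ) - k) := by
      have := Nat.choose_succ_right_eq H.card k
      have h5 : ((H.card - k : ℕ) : ℝ) = (H.card : ℝ) - k := Nat.cast_sub (by omega)
      rw [← h5]; exact_mod_cast this
    have hc2 : (X.card.choose (k + 1) : ℝ) * (k + 1) = X.card.choose k * ((X.card : ℝ) - k) := by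
      have := Nat.choose_succ_right_eq X.card k
      have h5 : ((X.card - k : ℕ) : ℝ) = (X.card : ℝ) - k := Nat.cast_sub (by omega)
      rw [← h5]; exact_mod_cast this
    have p1 : (0 : ℝ) < X.card.choose (k + 1) := by exact_mod_cast Nat.choose_pos (by omega)
    have p2 : (0 : ℝ) < X.card.choose k := by exact_mod_cast Nat.choose_pos (by omega)
    have p3 : (0 : ℝ) < (H.card : ℝ) - k := by linarith
    have p4 : (0 : ℝ) < (k : ℝ) + 1 := by positivity
    have e4 : (H.card.choose (k + 1) : ℝ) / X.card.choose (k + 1) * ((X.card : ℝ) - k) =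
        ((H.card : ℝ) - k) * ((H.card.choose k : ℝ) / X.card.choose k) := by
      rw [div_mul_eq_mul_div, ← mul_div_assoc, div_eq_div_iff p1.ne' p2.ne']
      have : ((H.card.choose (k + 1) : ℝ) * ((X.card : ℝ) - k) * X.card.choose k) * (k + 1) =
        (((H.card : ℝ) - k) * H.card.choose k * X.card.choose (k + 1)) * (k + 1) := by
        calc _ = ((H.card.choose (k + 1) : ℝ) * (k + 1)) * (X.card.choose k * ((X.card : ℝ) - k)) := by
              ring
          _ = (H.card.choose k * ((H.card : ℝ) - k)) * ((X.card.choose (k + 1) : ℝ) * (k + 1)) := by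
              rw [hc1, hc2]
          _ = _ := by ring
      exact mul_right_cancel₀ p4.ne' this
    have e5 : ((H.card : ℝ) - k) * act Q (uu X H k C) A =
        ((H.card : ℝ) - k) * ((H.card.choose k : ℝ) / X.card.choose k * uu X X k C A) := by
      rw [e3]
      rw [show (H.card.choose (k + 1) : ℝ) / X.card.choose (k + 1) *
        (((X.card : ℝ) - k) * uu X X k C A) = (H.card.choose (k + 1) : ℝ) / X.card.choose (k + 1) *
        ((X.card : ℝ) - k) * uu X X k C A by ring, e4]
      ring
    exact mul_left_cancel₀ p3.ne' e5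

theorem sprK {X H : Finset α} {Q : List (Op α)} (h : Spr X H Q) (ψ : ℕ → Finset α → ℝ)
    (A : Finset α) :
    act Q (fun B : Finset α => if B ∩ X ⊆ H then ψ (B ∩ X).card (B \ X) else 0) A =
      if (A ∩ X).card ≤ H.card then
        ψ (A ∩ X).card (A \ X) * (H.card.choose (A ∩ X).card : ℝ) /
          (X.card.choose (A ∩ X).card : ℝ)
      else 0 := by
  by_cases hk : (A ∩ X).card ≤ H.card
  · rw [if_pos hk]
    rw [act_congr_class Q h.1 _ (fun B => ψ (A ∩ X).card (A \ X) *
      uu X H (A ∩ X).card (A \ X) B) A]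
    · rw [act_mul, act_uu h (A \ X) Finset.sdiff_disjoint (H.card - (A ∩ X).card) _ (by omega)]
      simp only [uu, Finset.inter_subset_right, and_self, if_true]
      ring
    · intro B hB1 hB2
      simp only [uu, hB1, hB2, true_and, and_true]
      by_cases hs : B ∩ X ⊆ H
      · simp [hs]
      · simp [hs]
  · rw [if_neg hk]
    rw [act_congr_class Q h.1 _ (fun _ => 0) A]
    · rw [act_zero]
    · intro B _ hB2
      rw [if_neg]
      intro hs
      exact hk (hB2 ▸ Finset.card_le_card hs)

end SHU
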