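import Mathlib
import Pool.Agent.SHU.SK

/-!
# SHU.SI: symmetrising an indicator
-/

open scoped Pointwise

namespace SHU

variable {α : Type} [DecidableEq α]

/-- sets with outside part `E` and `j` elements inside `H` -/
def cls (H E : Finset α) (j : ℕ) : Finset (Finset α) := (H.powersetCard j).image (fun B => B ∪ E)

theorem mem_cls {H E : Finset α} (hE : Disjoint E H) (j : ℕ) (B : Finset α) :
    B ∈ cls H E j ↔ B \ H = E ∧ (B ∩ H).card = j := by
  simp only [cls, Finset.mem_image, Finset.mem_powersetCard]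
  constructor
  · rintro ⟨B', ⟨h1, h2⟩, rfl⟩
    have a1 : (B' ∪ E) \ H = E := by
      rw [Finset.union_sdiff_distrib, Finset.sdiff_eq_empty_iff_subset.2 h1, Finset.empty_union,
        Finset.sdiff_eq_self_of_disjoint hE]
    have a2 : (B' ∪ E) ∩ H = B' := by
      rw [Finset.union_inter_distrib_right, Finset.inter_eq_left.2 h1,
        Finset.disjoint_iff_inter_eq_empty.1 hE, Finset.union_empty]
    exact ⟨a1, by rw [a2, h2]⟩
  · rintro ⟨h1, h2⟩
    refine ⟨B ∩ H, ⟨Finset.inter_subset_right, h2⟩, ?_⟩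
    rw [← h1, Finset.union_comm, Finset.sdiff_union_inter]

theorem card_cls {H E : Finset α} (hE : Disjoint E H) (j : ℕ) :
    (cls H E j).card = H.card.choose j := by
  rw [cls, Finset.card_image_of_injOn, Finset.card_powersetCard]
  intro B hB B' hB' h
  rw [Finset.mem_coe, Finset.mem_powersetCard] at hB hB'
  have a2 : ∀ B : Finset α, B ⊆ H → (B ∪ E) ∩ H = B := by
    intro B h1
    rw [Finset.union_inter_distrib_right, Finset.inter_eq_left.2 h1,
        Finset.disjoint_iff_inter_eq_empty.1 hE, Finset.union_empty]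
  simp only at h
  rw [← a2 B hB.1, ← a2 B' hB'.1, h]

theorem sum_act_cls {H E : Finset α} (hE : Disjoint E H) (j : ℕ) (L : List (Op α))
    (hL : ∀ e ∈ L, InX H e) (F : Finset α → ℝ) :
    ∑ B ∈ cls H E j, act L F B = ∑ B ∈ cls H E j, F B := by
  apply sum_act
  intro e he B hB
  obtain ⟨h1, h2, -⟩ := hL e he
  rw [mem_cls hE] at hB ⊢
  rw [swap_smul_sdiff h1 h2, card_swap_smul_inter h1 h2]
  exact hB

variable [Fintype α]

/-- a perfect shuffle of `H` averages over the classes -/
theorem symAvg {H : Finset α} {L : List (Op α)} (hL : IsSymOn H L) (F : Finset α → ℝ)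
    (B : Finset α) :
    act L F B = (∑ B' ∈ cls H (B \ H) (B ∩ H).card, F B') / (H.card.choose (B ∩ H).card : ℝ) := by
  have hE : Disjoint (B \ H) H := Finset.sdiff_disjoint
  rw [← sum_act_cls hE _ L hL.1 F]
  have h1 : ∀ B' ∈ cls H (B \ H) (B ∩ H).card, act L F B' = act L F B := by
    intro B' hB'
    rw [mem_cls hE] at hB'
    exact eq_of_swap_inv (act L F) (fun a ha b hb A => hL.inv F ha hb A) B' B hB'.1 hB'.2
  rw [Finset.sum_congr rfl h1, Finset.sum_const, card_cls hE, nsmul_eq_mul]
  have : (0 : ℝ) < (H.card.choose (B ∩ H).card : ℝ) := by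
    exact_mod_cast Nat.choose_pos (Finset.card_le_card Finset.inter_subset_right)
  field_simp

theorem symInd {H : Finset α} {L : List (Op α)} (hL : IsSymOn H L) (D B : Finset α) :
    act L (fun B : Finset α => if B = D then (1 : ℝ) else 0) B =
      if B \ H = D \ H ∧ (B ∩ H).card = (D ∩ H).card then
        1 / (H.card.choose (D ∩ H).card : ℝ) else 0 := by
  have hE : Disjoint (B \ H) H := Finset.sdiff_disjoint
  rw [symAvg hL, Finset.sum_ite_eq']
  by_cases h : B \ H = D \ H ∧ (B ∩ H).card = (D ∩ H).card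
  · rw [if_pos h, if_pos, h.2]
    rw [mem_cls hE]
    exact ⟨h.1.symm, h.2.symm⟩
  · rw [if_neg h, if_neg, zero_div]
    rw [mem_cls hE]
    intro h'
    exact h ⟨h'.1.symm, h'.2.symm⟩

end SHU
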