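import Mathlib
import Pool.Agent.SHU.SI

/-!
# SHU.EH: the law of the number of tokens after the splitting operations (hub part)
-/

open scoped Pointwise

namespace SHU

variable {α : Type} [DecidableEq α]

theorem sum_cls_swap {M : Type} [AddCommMonoid M] {U E : Finset α} (hE : Disjoint E U) {a b : α}
    (ha : a ∈ U) (hb : b ∈ U) (n : ℕ) (f : Finset α → M) :
    ∑ B ∈ cls U E n, f (Equiv.swap a b • B) = ∑ B ∈ cls U E n, f B := by
  refine Finset.sum_nbij' (fun B => Equiv.swap a b • B) (fun B => Equiv.swap a b • B)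
    ?_ ?_ ?_ ?_ ?_
  · intro B hB
    rw [mem_cls hE] at hB ⊢
    rw [swap_smul_sdiff ha hb, card_swap_smul_inter ha hb]; exact hB
  · intro B hB
    rw [mem_cls hE] at hB ⊢
    rw [swap_smul_sdiff ha hb, card_swap_smul_inter ha hb]; exact hB
  · intro B _; simp [smul_smul]
  · intro B _; simp [smul_smul]
  · intro B _; rfl

/-- generating polynomial of the number of tokens in `H'` -/
noncomputable def PP (H H' E : Finset α) (n : ℕ) (F : Finset α → ℝ) : Polynomial ℝ :=
  ∑ B ∈ cls (H ∪ H') E n, Polynomial.C (F B) * Polynomial.X ^ (B ∩ H').card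

theorem PP_act1 {H H' E : Finset α} (hE : Disjoint E (H ∪ H')) (n : ℕ) (e : Op α)
    (h1 : e.1 ∈ H ∪ H') (h2 : e.2.1 ∈ H ∪ H') (F : Finset α → ℝ) :
    PP H H' E n (act1 e F) = Polynomial.C (1 - e.2.2) * PP H H' E n F +
      Polynomial.C e.2.2 * ∑ B ∈ cls (H ∪ H') E n,
        Polynomial.C (F B) * Polynomial.X ^ ((Equiv.swap e.1 e.2.1 • B) ∩ H').card := by
  have h3 := sum_cls_swap hE h1 h2 n (fun B => Polynomial.C (F B) *
    (Polynomial.X : Polynomial ℝ) ^ ((Equiv.swap e.1 e.2.1 • B) ∩ H').card)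
  rw [← h3]
  simp only [PP, act1, Finset.mul_sum, ← Finset.sum_add_distrib]
  refine Finset.sum_congr rfl (fun B _ => ?_)
  have h4 : Equiv.swap e.1 e.2.1 • Equiv.swap e.1 e.2.1 • B = B := by simp [smul_smul]
  rw [h4]
  simp only [map_add, map_mul]
  ring

theorem inter_swap_of_notMem {H' : Finset α} {a b : α} (ha : a ∉ H') (hb : b ∉ H')
    (B : Finset α) : (Equiv.swap a b • B) ∩ H' = B ∩ H' := by
  ext y
  simp only [Finset.mem_inter, mem_swap_smul]
  constructor
  · rintro ⟨h, h'⟩
    rw [Equiv.swap_apply_of_ne_of_ne (by rintro rfl; exact ha h') (by rintro rfl; exact hb h')] at h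
    exact ⟨h, h'⟩
  · rintro ⟨h, h'⟩
    rw [Equiv.swap_apply_of_ne_of_ne (by rintro rfl; exact ha h') (by rintro rfl; exact hb h')]
    exact ⟨h, h'⟩

theorem PP_sym {H H' E : Finset α} (hd : Disjoint H H') (hE : Disjoint E (H ∪ H')) (n : ℕ)
    (L : List (Op α)) (hL : ∀ e ∈ L, InX H e ∨ InX H' e) (F : Finset α → ℝ) :
    PP H H' E n (act L F) = PP H H' E n F := by
  induction L generalizing F with
  | nil => rfl
  | cons e L ih =>
    rw [act_cons, ih (fun e' he' => hL e' (List.mem_cons_of_mem _ he'))]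
    have hw : ∀ B : Finset α, ((Equiv.swap e.1 e.2.1 • B) ∩ H').card = (B ∩ H').card := by
      intro B
      rcases hL e (List.mem_cons_self ..) with h | h
      · rw [inter_swap_of_notMem (Finset.disjoint_left.1 hd h.1)
          (Finset.disjoint_left.1 hd h.2.1)]
      · exact card_swap_smul_inter h.1 h.2.1 B
    have hU : e.1 ∈ H ∪ H' ∧ e.2.1 ∈ H ∪ H' := by
      rcases hL e (List.mem_cons_self ..) with h | h
      · exact ⟨Finset.mem_union_left _ h.1, Finset.mem_union_left _ h.2.1⟩
      · exact ⟨Finset.mem_union_right _ h.1, Finset.mem_union_right _ h.2.1⟩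
    rw [PP_act1 hE n e hU.1 hU.2 F]
    simp only [hw]
    rw [← PP, ← add_mul, ← map_add]
    simp

theorem PP_sp {H H' E : Finset α} (hd : Disjoint H H') (hE : Disjoint E (H ∪ H')) (n : ℕ)
    (sp : List (Op α)) (h1 : ∀ e ∈ sp, e.1 ∈ H ∧ e.2.1 ∈ H') (hn1 : (sp.map (fun e => e.1)).Nodup)
    (hn2 : (sp.map (fun e => e.2.1)).Nodup) (F : Finset α → ℝ)
    (hF : ∀ B, F B ≠ 0 → ∀ e ∈ sp, e.1 ∈ B ∧ e.2.1 ∉ B) :
    PP H H' E n (act sp F) = gp (sp.map (fun e => e.2.2)) * PP H H' E n F := by
  induction sp generalizing F with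
  | nil => simp [gp]
  | cons e sp ih =>
    obtain ⟨a1, a2⟩ := h1 e (List.mem_cons_self ..)
    rw [List.map_cons, List.nodup_cons] at hn1 hn2
    have a3 : e.1 ∉ H' := Finset.disjoint_left.1 hd a1
    have a4 : e.2.1 ∉ H := Finset.disjoint_right.1 hd a2
    rw [act_cons, ih (fun e' he' => h1 e' (List.mem_cons_of_mem _ he')) hn1.2 hn2.2]
    · rw [PP_act1 hE n e (Finset.mem_union_left _ a1) (Finset.mem_union_right _ a2) F]
      have h3 : ∑ B ∈ cls (H ∪ H') E n,
          Polynomial.C (F B) * (Polynomial.X : Polynomial ℝ) ^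
            ((Equiv.swap e.1 e.2.1 • B) ∩ H').card = Polynomial.X * PP H H' E n F := by
        rw [PP, Finset.mul_sum]
        refine Finset.sum_congr rfl (fun B _ => ?_)
        by_cases hB : F B = 0
        · rw [hB]; simp
        · obtain ⟨b1, b2⟩ := hF B hB e (List.mem_cons_self ..)
          have b3 : (Equiv.swap e.1 e.2.1 • B) ∩ H' = insert e.2.1 (B ∩ H') := by
            ext y
            simp only [Finset.mem_inter, Finset.mem_insert, mem_swap_smul]
            by_cases y1 : y = e.1
            · subst y1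
              have : e.1 ≠ e.2.1 := by intro h; exact a3 (h ▸ a2)
              simp [a3, this]
            · by_cases y2 : y = e.2.1
              · subst y2
                rw [Equiv.swap_apply_right]
                simp [b1, a2]
              · rw [Equiv.swap_apply_of_ne_of_ne y1 y2]
                simp [y2]
          rw [b3, Finset.card_insert_of_notMem (fun h => b2 (Finset.mem_inter.1 h).1), pow_succ]
          ring
      rw [h3]
      simp only [gp, List.map_cons, List.prod_cons]
      ring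
    · intro B hB e' he'
      have ne1 : e'.1 ≠ e.1 := by
        intro h
        exact hn1.1 (h ▸ List.mem_map.2 ⟨e', he', rfl⟩)
      have ne2 : e'.2.1 ≠ e.2.1 := by
        intro h
        exact hn2.1 (h ▸ List.mem_map.2 ⟨e', he', rfl⟩)
      obtain ⟨c1, c2⟩ := h1 e' (List.mem_cons_of_mem _ he')
      have ne3 : e'.1 ≠ e.2.1 := by intro h; exact a4 (h ▸ c1)
      have ne4 : e'.2.1 ≠ e.1 := by intro h; exact a3 (h ▸ c2)
      simp only [act1] at hB
      by_cases hB0 : F B = 0
      · have hB1 : F (Equiv.swap e.1 e.2.1 • B) ≠ 0 := by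
          intro h; rw [hB0, h] at hB; simp at hB
        obtain ⟨d1, d2⟩ := hF _ hB1 e' (List.mem_cons_of_mem _ he')
        rw [mem_swap_smul, Equiv.swap_apply_of_ne_of_ne ne1 ne3] at d1
        rw [mem_swap_smul, Equiv.swap_apply_of_ne_of_ne ne4 ne2] at d2
        exact ⟨d1, d2⟩
      · exact hF B hB0 e' (List.mem_cons_of_mem _ he')

theorem card_cls2 {H H' E : Finset α} (hd : Disjoint H H') (hE : Disjoint E (H ∪ H'))
    (n j : ℕ) (hj : j ≤ n) :
    ((cls (H ∪ H') E n).filter (fun B => (B ∩ H').card = j)).card =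
      H.card.choose (n - j) * H'.card.choose j := by
  rw [← Finset.card_powersetCard (n - j) H, ← Finset.card_powersetCard j H',
    ← Finset.card_product]
  have hEH : Disjoint E H := hE.mono_right Finset.subset_union_left
  have hEH' : Disjoint E H' := hE.mono_right Finset.subset_union_right
  have hsplit : ∀ B : Finset α, (B ∩ (H ∪ H')).card = (B ∩ H).card + (B ∩ H').card := by
    intro B
    rw [Finset.inter_union_distrib_left, Finset.card_union_of_disjoint]
    exact hd.mono Finset.inter_subset_right Finset.inter_subset_right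
  refine Finset.card_nbij' (fun B => (B ∩ H, B ∩ H')) (fun p => p.1 ∪ p.2 ∪ E) ?_ ?_ ?_ ?_
  · intro B hB
    rw [Finset.mem_coe, Finset.mem_filter, mem_cls hE] at hB
    obtain ⟨⟨h1, h2⟩, h3⟩ := hB
    rw [hsplit] at h2
    rw [Finset.mem_coe, Finset.mem_product, Finset.mem_powersetCard, Finset.mem_powersetCard]
    exact ⟨⟨Finset.inter_subset_right, by simp only; omega⟩, Finset.inter_subset_right, h3⟩
  · rintro ⟨S, S'⟩ hp
    rw [Finset.mem_coe, Finset.mem_product, Finset.mem_powersetCard, Finset.mem_powersetCard] at hp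
    obtain ⟨⟨h1, h2⟩, h3, h4⟩ := hp
    simp only at h1 h2 h3 h4
    have k1 : (S ∪ S' ∪ E) ∩ H = S := by
      ext y
      simp only [Finset.mem_inter, Finset.mem_union]
      constructor
      · rintro ⟨(h | h) | h, h'⟩
        · exact h
        · exact absurd (h3 h) (Finset.disjoint_left.1 hd h')
        · exact absurd h' (Finset.disjoint_left.1 hEH h)
      · intro h; exact ⟨Or.inl (Or.inl h), h1 h⟩
    have k2 : (S ∪ S' ∪ E) ∩ H' = S' := by
      ext y
      simp only [Finset.mem_inter, Finset.mem_union]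
      constructor
      · rintro ⟨(h | h) | h, h'⟩
        · exact absurd h' (Finset.disjoint_left.1 hd (h1 h))
        · exact h
        · exact absurd h' (Finset.disjoint_left.1 hEH' h)
      · intro h; exact ⟨Or.inl (Or.inr h), h3 h⟩
    rw [Finset.mem_coe, Finset.mem_filter, mem_cls hE, hsplit, k1, k2]
    refine ⟨⟨?_, by omega⟩, h4⟩
    ext y
    simp only [Finset.mem_sdiff, Finset.mem_union, not_or]
    constructor
    · rintro ⟨(h | h) | h, h', h''⟩
      · exact absurd (h1 h) h'
      · exact absurd (h3 h) h''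
      · exact h
    · intro h
      exact ⟨Or.inr h, Finset.disjoint_left.1 hEH h, Finset.disjoint_left.1 hEH' h⟩
  · intro B hB
    rw [Finset.mem_coe, Finset.mem_filter, mem_cls hE] at hB
    obtain ⟨⟨h1, h2⟩, h3⟩ := hB
    simp only
    rw [← Finset.inter_union_distrib_left, ← h1, Finset.union_comm, Finset.sdiff_union_inter]
  · rintro ⟨S, S'⟩ hp
    rw [Finset.mem_coe, Finset.mem_product, Finset.mem_powersetCard, Finset.mem_powersetCard] at hp
    obtain ⟨⟨h1, h2⟩, h3, h4⟩ := hp
    simp only at h1 h2 h3 h4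
    have k1 : (S ∪ S' ∪ E) ∩ H = S := by
      ext y
      simp only [Finset.mem_inter, Finset.mem_union]
      constructor
      · rintro ⟨(h | h) | h, h'⟩
        · exact h
        · exact absurd (h3 h) (Finset.disjoint_left.1 hd h')
        · exact absurd h' (Finset.disjoint_left.1 hEH h)
      · intro h; exact ⟨Or.inl (Or.inl h), h1 h⟩
    have k2 : (S ∪ S' ∪ E) ∩ H' = S' := by
      ext y
      simp only [Finset.mem_inter, Finset.mem_union]
      constructor
      · rintro ⟨(h | h) | h, h'⟩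
        · exact absurd h' (Finset.disjoint_left.1 hd (h1 h))
        · exact h
        · exact absurd h' (Finset.disjoint_left.1 hEH' h)
      · intro h; exact ⟨Or.inl (Or.inr h), h3 h⟩
    simp only [k1, k2]

variable [Fintype α]

theorem hub_formula {H H' : Finset α} (hd : Disjoint H H') {L L' : List (Op α)}
    (hL : IsSymOn H L) (hL' : IsSymOn H' L') (F : Finset α → ℝ) (B : Finset α) :
    act L' (act L F) B =
      (PP H H' (B \ (H ∪ H')) (B ∩ (H ∪ H')).card F).coeff (B ∩ H').card /
        ((H.card.choose (B ∩ H).card : ℝ) * (H'.card.choose (B ∩ H').card : ℝ)) := by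
  have hE : Disjoint (B \ (H ∪ H')) (H ∪ H') := Finset.sdiff_disjoint
  set E := B \ (H ∪ H') with hEdef
  set n := (B ∩ (H ∪ H')).card with hn
  set j := (B ∩ H').card with hj
  have hsplit : ∀ B : Finset α, (B ∩ (H ∪ H')).card = (B ∩ H).card + (B ∩ H').card := by
    intro B
    rw [Finset.inter_union_distrib_left, Finset.card_union_of_disjoint]
    exact hd.mono Finset.inter_subset_right Finset.inter_subset_right
  have hnj : n = (B ∩ H).card + j := hsplit B
  set F2 := act L' (act L F) with hF2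
  have hcomm : F2 = act L (act L' F) := by
    rw [hF2]
    apply act_act_comm
    intro e he e' he'
    obtain ⟨h1, h2, -⟩ := hL'.1 e he
    obtain ⟨h3, h4, -⟩ := hL.1 e' he'
    have key : ∀ x ∈ H, ∀ y ∈ H', x ≠ y := by
      rintro x hx y hy rfl
      exact Finset.disjoint_left.1 hd hx hy
    exact ⟨key _ h3 _ h1, key _ h3 _ h2, key _ h4 _ h1, key _ h4 _ h2⟩
  have inv1 : ∀ A A' : Finset α, A \ H' = A' \ H' → (A ∩ H').card = (A' ∩ H').card →
      F2 A = F2 A' :=
    eq_of_swap_inv F2 (fun a ha b hb A => hL'.inv _ ha hb A)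
  have inv2 : ∀ A A' : Finset α, A \ H = A' \ H → (A ∩ H).card = (A' ∩ H).card →
      F2 A = F2 A' := by
    rw [hcomm]
    exact eq_of_swap_inv _ (fun a ha b hb A => hL.inv _ ha hb A)
  have hconst : ∀ B' ∈ (cls (H ∪ H') E n).filter (fun B => (B ∩ H').card = j), F2 B' = F2 B := by
    intro B' hB'
    rw [Finset.mem_filter, mem_cls hE, hsplit] at hB'
    obtain ⟨⟨h1, h2⟩, h3⟩ := hB'
    have k1 : ((B ∩ H) ∪ (B' \ H)) \ H = B' \ H := by
      ext y
      simp only [Finset.mem_sdiff, Finset.mem_union, Finset.mem_inter]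
      tauto
    have k2 : ((B ∩ H) ∪ (B' \ H)) ∩ H = B ∩ H := by
      ext y
      simp only [Finset.mem_sdiff, Finset.mem_union, Finset.mem_inter]
      tauto
    have k3 : ((B ∩ H) ∪ (B' \ H)) ∩ H' = B' ∩ H' := by
      ext y
      simp only [Finset.mem_sdiff, Finset.mem_union, Finset.mem_inter]
      constructor
      · rintro ⟨(h | h), h'⟩
        · exact absurd h' (Finset.disjoint_left.1 hd h.2)
        · exact ⟨h.1, h'⟩
      · rintro ⟨h, h'⟩
        exact ⟨Or.inr ⟨h, Finset.disjoint_right.1 hd h'⟩, h'⟩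
    have k4 : ((B ∩ H) ∪ (B' \ H)) \ H' = B \ H' := by
      ext y
      have hy : y ∈ B' \ (H ∪ H') ↔ y ∈ B \ (H ∪ H') := by rw [h1]
      simp only [Finset.mem_sdiff, Finset.mem_union, not_or] at hy
      simp only [Finset.mem_sdiff, Finset.mem_union, Finset.mem_inter]
      constructor
      · rintro ⟨(h | h), h'⟩
        · exact ⟨h.1, h'⟩
        · exact ⟨(hy.1 ⟨h.1, h.2, h'⟩).1, h'⟩
      · rintro ⟨h, h'⟩
        by_cases hyH : y ∈ H
        · exact ⟨Or.inl ⟨h, hyH⟩, h'⟩
        · exact ⟨Or.inr ⟨(hy.2 ⟨h, hyH, h'⟩).1, hyH⟩, h'⟩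
    have e1 : F2 ((B ∩ H) ∪ (B' \ H)) = F2 B' := by
      apply inv2 _ _ k1
      rw [k2]; omega
    have e2 : F2 ((B ∩ H) ∪ (B' \ H)) = F2 B := by
      apply inv1 _ _ k4
      rw [k3, h3]
    rw [← e1, e2]
  have hPP : PP H H' E n F2 = PP H H' E n F := by
    rw [hF2, PP_sym hd hE n L' (fun e he => Or.inr (hL'.1 e he)),
      PP_sym hd hE n L (fun e he => Or.inl (hL.1 e he))]
  rw [← hPP]
  have hcoef : (PP H H' E n F2).coeff j =
      ∑ B' ∈ (cls (H ∪ H') E n).filter (fun B => (B ∩ H').card = j), F2 B' := by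
    rw [PP, Polynomial.finset_sum_coeff, Finset.sum_filter]
    refine Finset.sum_congr rfl (fun B' _ => ?_)
    rw [Polynomial.coeff_C_mul_X_pow]
    simp only [eq_comm]
  rw [hcoef, Finset.sum_congr rfl hconst, Finset.sum_const, card_cls2 hd hE n j (by omega),
    nsmul_eq_mul, (by omega : n - j = (B ∩ H).card)]
  have p1 : (0 : ℝ) < (H.card.choose (B ∩ H).card : ℝ) := by
    exact_mod_cast Nat.choose_pos (Finset.card_le_card Finset.inter_subset_right)
  have p2 : (0 : ℝ) < (H'.card.choose j : ℝ) := by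
    exact_mod_cast Nat.choose_pos (Finset.card_le_card Finset.inter_subset_right)
  push_cast
  field_simp

end SHU
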