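import Mathlib
import Pool.Agent.SHU.EH

/-!
# SHU.EM: the matching step
-/

open scoped Pointwise

namespace SHU

variable {α : Type} [DecidableEq α]

/-- `M` is a perfect matching between `X₁` and `X₂` -/
def PM (X₁ X₂ : Finset α) (M : List (α × α)) : Prop :=
  (M.flatMap (fun q => [q.1, q.2])).Nodup ∧
    (∀ q ∈ M, (q.1 ∈ X₁ ∧ q.2 ∈ X₂) ∨ (q.1 ∈ X₂ ∧ q.2 ∈ X₁)) ∧ M.length = X₁.card

/-- the product of the transpositions of a matching -/
def sig (M : List (α × α)) : Equiv.Perm α := (M.map (fun q => Equiv.swap q.1 q.2)).prod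

theorem sig_cons (q : α × α) (M : List (α × α)) : sig (q :: M) = Equiv.swap q.1 q.2 * sig M := by
  simp [sig]

theorem sig_notMem (M : List (α × α)) (x : α) (hx : x ∉ M.flatMap (fun q => [q.1, q.2])) :
    sig M x = x := by
  induction M with
  | nil => simp [sig]
  | cons q M ih =>
    simp only [List.flatMap_cons, List.mem_append, List.mem_cons, List.not_mem_nil, or_false,
      not_or] at hx
    rw [sig_cons, Equiv.Perm.mul_apply, ih hx.2]
    exact Equiv.swap_apply_of_ne_of_ne hx.1.1 hx.1.2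

theorem sig_mem (M : List (α × α)) (hM : (M.flatMap (fun q => [q.1, q.2])).Nodup)
    (q : α × α) (hq : q ∈ M) : sig M q.1 = q.2 ∧ sig M q.2 = q.1 := by
  induction M with
  | nil => simp at hq
  | cons r M ih =>
    rw [List.flatMap_cons] at hM
    simp only [List.cons_append, List.nil_append, List.nodup_cons, List.mem_cons, not_or] at hM
    obtain ⟨⟨a1, a2⟩, a3, a4⟩ := hM
    rw [sig_cons, Equiv.Perm.mul_apply, Equiv.Perm.mul_apply]
    rcases List.mem_cons.1 hq with h | h
    · rw [h, sig_notMem M _ a2, sig_notMem M _ a3]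
      exact ⟨Equiv.swap_apply_left _ _, Equiv.swap_apply_right _ _⟩
    · obtain ⟨b1, b2⟩ := ih a4 h
      rw [b1, b2]
      have m1 : q.1 ∈ M.flatMap (fun q => [q.1, q.2]) := List.mem_flatMap.2 ⟨q, h, by simp⟩
      have m2 : q.2 ∈ M.flatMap (fun q => [q.1, q.2]) := List.mem_flatMap.2 ⟨q, h, by simp⟩
      constructor
      · exact Equiv.swap_apply_of_ne_of_ne (by rintro h'; rw [h'] at m2; exact a2 m2)
          (by rintro h'; rw [h'] at m2; exact a3 m2)
      · exact Equiv.swap_apply_of_ne_of_ne (by rintro h'; rw [h'] at m1; exact a2 m1)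
          (by rintro h'; rw [h'] at m1; exact a3 m1)

theorem act_sig (M : List (α × α)) (hM : (M.flatMap (fun q => [q.1, q.2])).Nodup)
    (F : Finset α → ℝ) :
    act (M.map (fun q => ((q.1, q.2, 1 / 2) : Op α))) (fun A => F (sig M • A)) =
      act (M.map (fun q => ((q.1, q.2, 1 / 2) : Op α))) F := by
  induction M generalizing F with
  | nil => simp [sig]
  | cons r M ih =>
    rw [List.flatMap_cons] at hM
    simp only [List.cons_append, List.nil_append, List.nodup_cons, List.mem_cons, not_or] at hM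
    obtain ⟨⟨a1, a2⟩, a3, a4⟩ := hM
    rw [List.map_cons, act_cons, act_cons, ← ih a4 (act1 _ F)]
    congr 1
    funext A
    simp only [act1]
    rw [sig_cons, ← smul_smul, smul_smul (Equiv.swap r.1 r.2 * sig M) (Equiv.swap r.1 r.2) A,
      mul_assoc, Equiv.mul_swap_eq_swap_mul, sig_notMem M _ a2, sig_notMem M _ a3, ← mul_assoc,
      Equiv.swap_mul_self, one_mul]
    ring

theorem PM.cover {X₁ X₂ : Finset α} (hX : Disjoint X₁ X₂) (hc : X₁.card = X₂.card)
    {M : List (α × α)} (hM : PM X₁ X₂ M) (x : α) :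
    x ∈ M.flatMap (fun q => [q.1, q.2]) ↔ x ∈ X₁ ∪ X₂ := by
  obtain ⟨h1, h2, h3⟩ := hM
  have k1 : (M.flatMap (fun q => [q.1, q.2])).toFinset ⊆ X₁ ∪ X₂ := by
    intro y hy
    rw [List.mem_toFinset, List.mem_flatMap] at hy
    obtain ⟨q, hq, hy⟩ := hy
    simp only [List.mem_cons, List.not_mem_nil, or_false] at hy
    rw [Finset.mem_union]
    rcases h2 q hq with h | h <;> rcases hy with rfl | rfl
    · exact Or.inl h.1
    · exact Or.inr h.2
    · exact Or.inr h.1
    · exact Or.inl h.2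
  have k2 : (M.flatMap (fun q => [q.1, q.2])).toFinset = X₁ ∪ X₂ := by
    apply Finset.eq_of_subset_of_card_le k1
    rw [List.toFinset_card_of_nodup h1, Finset.card_union_of_disjoint hX, ← hc]
    have : ∀ M : List (α × α), (M.flatMap (fun q => [q.1, q.2])).length = 2 * M.length := by
      intro M
      induction M with
      | nil => simp
      | cons q M ih =>
        rw [List.flatMap_cons, List.length_append, ih, List.length_cons]
        simp only [List.length_cons, List.length_nil]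
        ring
    rw [this, h3]
    omega
  rw [← k2, List.mem_toFinset]

theorem PM.sig_smul {X₁ X₂ : Finset α} (hX : Disjoint X₁ X₂) (hc : X₁.card = X₂.card)
    {M : List (α × α)} (hM : PM X₁ X₂ M) : sig M • X₁ = X₂ ∧ sig M • X₂ = X₁ := by
  have hcov := hM.cover hX hc
  obtain ⟨h1, h2, h3⟩ := hM
  have key : ∀ x, (x ∈ X₁ → sig M x ∈ X₂) ∧ (x ∈ X₂ → sig M x ∈ X₁) := by
    intro x
    have k : x ∈ X₁ ∪ X₂ → (x ∈ X₁ → sig M x ∈ X₂) ∧ (x ∈ X₂ → sig M x ∈ X₁) := by
      intro hx
      rw [← hcov, List.mem_flatMap] at hx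
      obtain ⟨q, hq, hy⟩ := hx
      simp only [List.mem_cons, List.not_mem_nil, or_false] at hy
      obtain ⟨s1, s2⟩ := sig_mem M h1 q hq
      have dj := Finset.disjoint_left.1 hX
      rcases h2 q hq with h | h <;> rcases hy with rfl | rfl
      · rw [s1]; exact ⟨fun _ => h.2, fun h' => absurd h' (dj h.1)⟩
      · rw [s2]; exact ⟨fun h' => absurd h.2 (dj h'), fun _ => h.1⟩
      · rw [s1]; exact ⟨fun h' => absurd h.1 (dj h'), fun _ => h.2⟩
      · rw [s2]; exact ⟨fun _ => h.1, fun h' => absurd h' (dj h.2)⟩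
    exact ⟨fun h => (k (Finset.mem_union_left _ h)).1 h, fun h => (k (Finset.mem_union_right _ h)).2 h⟩
  constructor
  · apply Finset.eq_of_subset_of_card_le
    · intro y hy
      obtain ⟨x, hx, rfl⟩ := Finset.mem_smul_finset.1 hy
      exact (key x).1 hx
    · rw [Finset.card_smul_finset, hc]
  · apply Finset.eq_of_subset_of_card_le
    · intro y hy
      obtain ⟨x, hx, rfl⟩ := Finset.mem_smul_finset.1 hy
      exact (key x).2 hx
    · rw [Finset.card_smul_finset, hc]

theorem PM.sig_sdiff {X₁ X₂ : Finset α} (hX : Disjoint X₁ X₂) (hc : X₁.card = X₂.card)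
    {M : List (α × α)} (hM : PM X₁ X₂ M) (A : Finset α) :
    (sig M • A) \ (X₁ ∪ X₂) = A \ (X₁ ∪ X₂) := by
  have hcov := hM.cover hX hc
  have hfix : ∀ x, x ∉ X₁ ∪ X₂ → sig M x = x := fun x hx => sig_notMem M x (by rwa [hcov])
  ext x
  rw [Finset.mem_sdiff, Finset.mem_sdiff]
  constructor
  · rintro ⟨h, h'⟩
    refine ⟨?_, h'⟩
    obtain ⟨y, hy, rfl⟩ := Finset.mem_smul_finset.1 h
    have : sig M y = y := by
      have h1 := hfix (sig M • y) h'
      exact (sig M).injective h1
    rw [Equiv.Perm.smul_def, this]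
    exact hy
  · rintro ⟨h, h'⟩
    refine ⟨?_, h'⟩
    exact Finset.mem_smul_finset.2 ⟨x, h, hfix x h'⟩

theorem PM.sig_inter {X₁ X₂ : Finset α} (hX : Disjoint X₁ X₂) (hc : X₁.card = X₂.card)
    {M : List (α × α)} (hM : PM X₁ X₂ M) (A : Finset α) :
    ((sig M • A) ∩ X₁).card = (A ∩ X₂).card ∧ ((sig M • A) ∩ X₂).card = (A ∩ X₁).card := by
  obtain ⟨h1, h2⟩ := hM.sig_smul hX hc
  constructor
  · rw [← h2, ← Finset.smul_finset_inter, Finset.card_smul_finset]
  · rw [← h1, ← Finset.smul_finset_inter, Finset.card_smul_finset]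

end SHU
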