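import Mathlib
import Pool.Agent.SHU.EM

/-!
# SHU.EV: the even step (operator level)
-/

open scoped Pointwise

namespace SHU

variable {α : Type} [DecidableEq α]

theorem gp_natDegree (p : List ℝ) : (gp p).natDegree ≤ p.length := by
  induction p with
  | nil => simp [gp]
  | cons x p ih =>
    have h : gp (x :: p) = (Polynomial.C (1 - x) + Polynomial.C x * Polynomial.X) * gp p := by
      simp [gp]
    rw [h, List.length_cons]
    refine Polynomial.natDegree_mul_le.trans ?_
    have h1 : (Polynomial.C (1 - x) + Polynomial.C x * Polynomial.X : Polynomial ℝ).natDegree ≤ 1 := by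
      compute_degree
    omega

theorem gp_coeff_zero (p : List ℝ) (j : ℕ) (hj : p.length < j) : (gp p).coeff j = 0 :=
  Polynomial.coeff_eq_zero_of_natDegree_lt (lt_of_le_of_lt (gp_natDegree p) hj)

theorem PP_ind {H H' C E : Finset α} (hd : Disjoint H H') (hC : Disjoint C (H ∪ H'))
    (hE : Disjoint E (H ∪ H')) (n : ℕ) :
    PP H H' E n (fun B => if B = H ∪ C then (1 : ℝ) else 0) =
      if E = C ∧ n = H.card then 1 else 0 := by
  have hCH : Disjoint C H := hC.mono_right Finset.subset_union_left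
  have hCH' : Disjoint C H' := hC.mono_right Finset.subset_union_right
  have a1 : (H ∪ C) \ (H ∪ H') = C := by
    ext y
    simp only [Finset.mem_sdiff, Finset.mem_union, not_or]
    constructor
    · rintro ⟨h | h, h', h''⟩
      · exact absurd h h'
      · exact h
    · intro h
      exact ⟨Or.inr h, Finset.disjoint_left.1 hCH h, Finset.disjoint_left.1 hCH' h⟩
  have a2 : (H ∪ C) ∩ (H ∪ H') = H := by
    ext y
    simp only [Finset.mem_inter, Finset.mem_union]
    constructor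
    · rintro ⟨h | h, h'⟩
      · exact h
      · rcases h' with h' | h'
        · exact h'
        · exact absurd h' (Finset.disjoint_left.1 hCH' h)
    · intro h; exact ⟨Or.inl h, Or.inl h⟩
  have a3 : (H ∪ C) ∩ H' = ∅ := by
    ext y
    simp only [Finset.mem_inter, Finset.mem_union, Finset.notMem_empty, iff_false, not_and]
    rintro (h | h)
    · exact Finset.disjoint_left.1 hd h
    · exact Finset.disjoint_left.1 hCH' h
  have hsum : PP H H' E n (fun B => if B = H ∪ C then (1 : ℝ) else 0) =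
      ∑ B ∈ cls (H ∪ H') E n, if B = H ∪ C then (1 : Polynomial ℝ) else 0 := by
    rw [PP]
    refine Finset.sum_congr rfl (fun B _ => ?_)
    by_cases h : B = H ∪ C
    · rw [if_pos h, if_pos h, h, a3]; simp
    · rw [if_neg h, if_neg h]; simp
  rw [hsum, Finset.sum_ite_eq']
  have hiff : (H ∪ C ∈ cls (H ∪ H') E n) ↔ (E = C ∧ n = H.card) := by
    rw [mem_cls hE, a1, a2]
    constructor
    · rintro ⟨h, h'⟩; exact ⟨h.symm, h'.symm⟩
    · rintro ⟨h, h'⟩; exact ⟨h.symm, h'.symm⟩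
  by_cases h : E = C ∧ n = H.card
  · rw [if_pos h, if_pos (hiff.2 h)]
  · rw [if_neg h, if_neg (fun h' => h (hiff.1 h'))]

variable [Fintype α]

theorem hub_ind {H H' C : Finset α} (hd : Disjoint H H') (hC : Disjoint C (H ∪ H'))
    (sp : List (Op α)) (h1 : ∀ e ∈ sp, e.1 ∈ H ∧ e.2.1 ∈ H')
    (hs1 : (sp.map (fun e => e.1)).Nodup) (hs2 : (sp.map (fun e => e.2.1)).Nodup)
    {LH LH' : List (Op α)} (hLH : IsSymOn H LH) (hLH' : IsSymOn H' LH') (B : Finset α) :
    act LH' (act LH (act sp (fun B : Finset α => if B = H ∪ C then (1 : ℝ) else 0))) B =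
      if B \ (H ∪ H') = C ∧ (B ∩ (H ∪ H')).card = H.card then
        (gp (sp.map (fun e => e.2.2))).coeff (B ∩ H').card /
          ((H.card.choose (B ∩ H).card : ℝ) * (H'.card.choose (B ∩ H').card : ℝ)) else 0 := by
  have hCH' : Disjoint C H' := hC.mono_right Finset.subset_union_right
  rw [hub_formula hd hLH hLH', PP_sp hd Finset.sdiff_disjoint _ sp h1 hs1 hs2,
    PP_ind hd hC Finset.sdiff_disjoint]
  · by_cases h : B \ (H ∪ H') = C ∧ (B ∩ (H ∪ H')).card = H.card
    · rw [if_pos h, if_pos h, mul_one]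
    · rw [if_neg h, if_neg h, mul_zero, Polynomial.coeff_zero, zero_div]
  · intro B hB e he
    have hB' : B = H ∪ C := by
      by_contra h
      rw [if_neg h] at hB
      exact hB rfl
    obtain ⟨a1, a2⟩ := h1 e he
    rw [hB']
    refine ⟨Finset.mem_union_left _ a1, ?_⟩
    rw [Finset.mem_union, not_or]
    exact ⟨Finset.disjoint_right.1 hd a2, Finset.disjoint_right.1 hCH' a2⟩

theorem even_F4 {X₁ X₂ H H' C : Finset α} (hX : Disjoint X₁ X₂) (hH : H ⊆ X₁) (hH' : H' ⊆ X₂)
    (hC : Disjoint C (X₁ ∪ X₂)) (sp : List (Op α)) (h1 : ∀ e ∈ sp, e.1 ∈ H ∧ e.2.1 ∈ H')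
    (hs1 : (sp.map (fun e => e.1)).Nodup) (hs2 : (sp.map (fun e => e.2.1)).Nodup)
    (hb : H'.card = sp.length)
    {LH LH' Q₁ Q₂ : List (Op α)} (hLH : IsSymOn H LH) (hLH' : IsSymOn H' LH')
    (hQ₁ : Spr X₁ H Q₁) (hQ₂ : Spr X₂ H' Q₂) (A : Finset α) :
    act Q₂ (act Q₁ (act LH' (act LH (act sp (fun B : Finset α =>
      if B = H ∪ C then (1 : ℝ) else 0))))) A =
      if A \ (X₁ ∪ X₂) = C ∧ (A ∩ (X₁ ∪ X₂)).card = H.card then
        (gp (sp.map (fun e => e.2.2))).coeff (A ∩ X₂).card /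
          ((X₁.card.choose (A ∩ X₁).card : ℝ) * (X₂.card.choose (A ∩ X₂).card : ℝ)) else 0 := by
  have hd : Disjoint H H' := hX.mono hH hH'
  have hHH : H ∪ H' ⊆ X₁ ∪ X₂ := Finset.union_subset_union hH hH'
  have hC' : Disjoint C (H ∪ H') := hC.mono_right hHH
  set g := gp (sp.map (fun e => e.2.2)) with hg
  -- membership facts
  have dX := Finset.disjoint_left.1 hX
  have dC1 : ∀ x ∈ C, x ∉ X₁ := fun x hx h =>
    Finset.disjoint_left.1 hC hx (Finset.mem_union_left _ h)
  have dC2 : ∀ x ∈ C, x ∉ X₂ := fun x hx h =>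
    Finset.disjoint_left.1 hC hx (Finset.mem_union_right _ h)
  -- F2
  have hF2 : act LH' (act LH (act sp (fun B : Finset α => if B = H ∪ C then (1 : ℝ) else 0))) =
      fun B : Finset α => if B ∩ X₁ ⊆ H then
        (fun (k : ℕ) (D : Finset α) => if D \ H' = C ∧ k + (D ∩ H').card = H.card then
          g.coeff (D ∩ H').card / ((H.card.choose k : ℝ) * (H'.card.choose (D ∩ H').card : ℝ))
          else 0) (B ∩ X₁).card (B \ X₁) else 0 := by
    funext B
    rw [hub_ind hd hC' sp h1 hs1 hs2 hLH hLH' B]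
    by_cases hB : B ∩ X₁ ⊆ H
    · rw [if_pos hB]
      simp only
      have e1 : (B \ X₁) \ H' = B \ (H ∪ H') := by
        ext y
        simp only [Finset.mem_sdiff, Finset.mem_union, not_or]
        constructor
        · rintro ⟨⟨a, b⟩, c⟩; exact ⟨a, fun h => b (hH h), c⟩
        · rintro ⟨a, b, c⟩
          exact ⟨⟨a, fun h => b (hB (Finset.mem_inter.2 ⟨a, h⟩))⟩, c⟩
      have e2 : (B \ X₁) ∩ H' = B ∩ H' := by
        ext y
        simp only [Finset.mem_sdiff, Finset.mem_inter]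
        constructor
        · rintro ⟨⟨a, b⟩, c⟩; exact ⟨a, c⟩
        · rintro ⟨a, b⟩; exact ⟨⟨a, fun h => dX h (hH' b)⟩, b⟩
      have e3 : B ∩ X₁ = B ∩ H := by
        ext y
        simp only [Finset.mem_inter]
        constructor
        · rintro ⟨a, b⟩; exact ⟨a, hB (Finset.mem_inter.2 ⟨a, b⟩)⟩
        · rintro ⟨a, b⟩; exact ⟨a, hH b⟩
      have e4 : (B ∩ (H ∪ H')).card = (B ∩ H).card + (B ∩ H').card := by
        rw [Finset.inter_union_distrib_left, Finset.card_union_of_disjoint]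
        exact hd.mono Finset.inter_subset_right Finset.inter_subset_right
      rw [e1, e2, e3, e4]
    · rw [if_neg hB, if_neg]
      rintro ⟨h, -⟩
      apply hB
      intro y hy
      rw [Finset.mem_inter] at hy
      by_contra hyH
      have : y ∈ B \ (H ∪ H') := by
        rw [Finset.mem_sdiff, Finset.mem_union, not_or]
        exact ⟨hy.1, hyH, fun h' => dX hy.2 (hH' h')⟩
      rw [h] at this
      exact dC1 y this hy.2
  -- F3
  have hF3 : act Q₁ (act LH' (act LH (act sp (fun B : Finset α =>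
      if B = H ∪ C then (1 : ℝ) else 0)))) =
      fun B : Finset α => if B ∩ X₂ ⊆ H' then
        (fun (j : ℕ) (D : Finset α) => if D \ X₁ = C ∧ (D ∩ X₁).card + j = H.card then
          g.coeff j / ((X₁.card.choose (D ∩ X₁).card : ℝ) * (H'.card.choose j : ℝ))
          else 0) (B ∩ X₂).card (B \ X₂) else 0 := by
    rw [hF2]
    funext B
    rw [sprK hQ₁ (fun (k : ℕ) (D : Finset α) => if D \ H' = C ∧ k + (D ∩ H').card = H.card then
          g.coeff (D ∩ H').card / ((H.card.choose k : ℝ) * (H'.card.choose (D ∩ H').card : ℝ))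
          else 0) B]
    simp only
    have e2 : (B \ X₁) ∩ H' = B ∩ H' := by
      ext y
      simp only [Finset.mem_sdiff, Finset.mem_inter]
      constructor
      · rintro ⟨⟨a, b⟩, c⟩; exact ⟨a, c⟩
      · rintro ⟨a, b⟩; exact ⟨⟨a, fun h => dX h (hH' b)⟩, b⟩
    rw [e2]
    by_cases hB : B ∩ X₂ ⊆ H'
    · rw [if_pos hB]
      have e3 : B ∩ H' = B ∩ X₂ := by
        ext y
        simp only [Finset.mem_inter]
        constructor
        · rintro ⟨a, b⟩; exact ⟨a, hH' b⟩
        · rintro ⟨a, b⟩; exact ⟨a, hB (Finset.mem_inter.2 ⟨a, b⟩)⟩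
      have e4 : (B \ X₁) \ H' = (B \ X₂) \ X₁ := by
        ext y
        simp only [Finset.mem_sdiff]
        constructor
        · rintro ⟨⟨a, b⟩, c⟩
          exact ⟨⟨a, fun h => c (hB (Finset.mem_inter.2 ⟨a, h⟩))⟩, b⟩
        · rintro ⟨⟨a, b⟩, c⟩; exact ⟨⟨a, c⟩, fun h => b (hH' h)⟩
      have e5 : (B \ X₂) ∩ X₁ = B ∩ X₁ := by
        ext y
        simp only [Finset.mem_sdiff, Finset.mem_inter]
        constructor
        · rintro ⟨⟨a, b⟩, c⟩; exact ⟨a, c⟩
        · rintro ⟨a, b⟩; exact ⟨⟨a, dX b⟩, b⟩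
      rw [e3, e4, e5]
      by_cases hk : (B ∩ X₁).card ≤ H.card
      · rw [if_pos hk]
        by_cases hc : (B \ X₂) \ X₁ = C ∧ (B ∩ X₁).card + (B ∩ X₂).card = H.card
        · rw [if_pos hc, if_pos hc]
          have p1 : ((H.card.choose (B ∩ X₁).card : ℕ) : ℝ) ≠ 0 := by
            exact_mod_cast (Nat.choose_pos hk).ne'
          have p2 : ((X₁.card.choose (B ∩ X₁).card : ℕ) : ℝ) ≠ 0 := by
            exact_mod_cast (Nat.choose_pos (Finset.card_le_card Finset.inter_subset_right)).ne'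
          have p3 : ((H'.card.choose (B ∩ X₂).card : ℕ) : ℝ) ≠ 0 := by
            exact_mod_cast (Nat.choose_pos (Finset.card_le_card hB)).ne'
          field_simp
        · rw [if_neg hc, if_neg hc]; simp
      · rw [if_neg hk, if_neg]
        rintro ⟨-, h⟩
        omega
    · rw [if_neg hB]
      have hne : ¬ ((B \ X₁) \ H' = C ∧ (B ∩ X₁).card + (B ∩ H').card = H.card) := by
        rintro ⟨h, -⟩
        apply hB
        intro y hy
        rw [Finset.mem_inter] at hy
        by_contra hyH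
        have : y ∈ (B \ X₁) \ H' := by
          rw [Finset.mem_sdiff, Finset.mem_sdiff]
          exact ⟨⟨hy.1, Finset.disjoint_right.1 hX hy.2⟩, hyH⟩
        rw [h] at this
        exact dC2 y this hy.2
      rw [if_neg hne]
      simp
  rw [hF3, sprK hQ₂ (fun (j : ℕ) (D : Finset α) => if D \ X₁ = C ∧ (D ∩ X₁).card + j = H.card then
          g.coeff j / ((X₁.card.choose (D ∩ X₁).card : ℝ) * (H'.card.choose j : ℝ))
          else 0) A]
  have e5 : (A \ X₂) ∩ X₁ = A ∩ X₁ := by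
    ext y
    simp only [Finset.mem_sdiff, Finset.mem_inter]
    constructor
    · rintro ⟨⟨a, b⟩, c⟩; exact ⟨a, c⟩
    · rintro ⟨a, b⟩; exact ⟨⟨a, dX b⟩, b⟩
  have e6 : (A \ X₂) \ X₁ = A \ (X₁ ∪ X₂) := by
    ext y
    simp only [Finset.mem_sdiff, Finset.mem_union, not_or]
    tauto
  have e7 : (A ∩ (X₁ ∪ X₂)).card = (A ∩ X₁).card + (A ∩ X₂).card := by
    rw [Finset.inter_union_distrib_left, Finset.card_union_of_disjoint]
    exact hX.mono Finset.inter_subset_right Finset.inter_subset_right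
  rw [e5, e6, e7]
  by_cases hc : A \ (X₁ ∪ X₂) = C ∧ (A ∩ X₁).card + (A ∩ X₂).card = H.card
  · rw [if_pos hc, if_pos hc]
    by_cases hj : (A ∩ X₂).card ≤ H'.card
    · rw [if_pos hj]
      have p1 : ((H'.card.choose (A ∩ X₂).card : ℕ) : ℝ) ≠ 0 := by
        exact_mod_cast (Nat.choose_pos hj).ne'
      have p2 : ((X₁.card.choose (A ∩ X₁).card : ℕ) : ℝ) ≠ 0 := by
        exact_mod_cast (Nat.choose_pos (Finset.card_le_card Finset.inter_subset_right)).ne'
      have p3 : ((X₂.card.choose (A ∩ X₂).card : ℕ) : ℝ) ≠ 0 := by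
        exact_mod_cast (Nat.choose_pos (Finset.card_le_card Finset.inter_subset_right)).ne'
      field_simp
    · rw [if_neg hj, hg, gp_coeff_zero _ _ (by rw [List.length_map]; omega), zero_div]
  · rw [if_neg hc, if_neg hc]; simp

theorem even_spr {X₁ X₂ H : Finset α} (hX : Disjoint X₁ X₂) (hc : X₁.card = X₂.card)
    (hH : H ⊆ X₁) (sp : List (Op α)) (hs1 : (sp.map (fun e => e.1)).Nodup)
    (hs2 : (sp.map (fun e => e.2.1)).Nodup) (hs3 : ∀ e ∈ sp, e.1 ∈ H)
    (hs4 : ∀ e ∈ sp, e.2.1 ∈ X₂ ∧ 0 ≤ e.2.2 ∧ e.2.2 ≤ 1)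
    (hg : ∀ k ≤ H.card, (gp (sp.map (fun e => e.2.2))).coeff k +
      (gp (sp.map (fun e => e.2.2))).coeff (H.card - k) =
        2 * ((X₁.card.choose k : ℝ) * (X₁.card.choose (H.card - k) : ℝ)) /
          ((2 * X₁.card).choose H.card : ℝ))
    {LH LH' Q₁ Q₂ : List (Op α)} (hLH : IsSymOn H LH)
    (hLH' : IsSymOn (sp.map (fun e => e.2.1)).toFinset LH') (hQ₁ : Spr X₁ H Q₁)
    (hQ₂ : Spr X₂ (sp.map (fun e => e.2.1)).toFinset Q₂) (M : List (α × α)) (hM : PM X₁ X₂ M) :
    Spr (X₁ ∪ X₂) H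
      (sp ++ LH ++ LH' ++ Q₁ ++ Q₂ ++ M.map (fun q => ((q.1, q.2, 1 / 2) : Op α))) := by
  set H' := (sp.map (fun e => e.2.1)).toFinset with hH'def
  have hH' : H' ⊆ X₂ := by
    intro y hy
    rw [hH'def, List.mem_toFinset, List.mem_map] at hy
    obtain ⟨e, he, rfl⟩ := hy
    exact (hs4 e he).1
  have h1 : ∀ e ∈ sp, e.1 ∈ H ∧ e.2.1 ∈ H' := by
    intro e he
    exact ⟨hs3 e he, by rw [hH'def, List.mem_toFinset]; exact List.mem_map.2 ⟨e, he, rfl⟩⟩
  have hb : H'.card = sp.length := by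
    rw [hH'def, List.toFinset_card_of_nodup hs2, List.length_map]
  have i1 : X₁ ⊆ X₁ ∪ X₂ := Finset.subset_union_left
  have i2 : X₂ ⊆ X₁ ∪ X₂ := Finset.subset_union_right
  have dX := Finset.disjoint_left.1 hX
  have hMin : ∀ e ∈ M.map (fun q => ((q.1, q.2, 1 / 2) : Op α)), InX (X₁ ∪ X₂) e := by
    intro e he
    obtain ⟨q, hq, rfl⟩ := List.mem_map.1 he
    rcases hM.2.1 q hq with h | h
    · refine ⟨i1 h.1, i2 h.2, ?_, by norm_num, by norm_num⟩
      intro h'
      simp only at h'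
      exact dX h.1 (h' ▸ h.2)
    · refine ⟨i2 h.1, i1 h.2, ?_, by norm_num, by norm_num⟩
      intro h'
      simp only at h'
      exact dX h.2 (h' ▸ h.1)
  refine ⟨?_, hH.trans i1, ?_⟩
  · intro e he
    simp only [List.mem_append] at he
    rcases he with ((((he | he) | he) | he) | he) | he
    · obtain ⟨a1, a2⟩ := hs4 e he
      exact ⟨i1 (hH (hs3 e he)), i2 a1, fun h => dX (hH (hs3 e he)) (h ▸ a1), a2⟩
    · exact (hLH.1 e he).mono (hH.trans i1)
    · exact (hLH'.1 e he).mono (hH'.trans i2)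
    · exact (hQ₁.1 e he).mono i1
    · exact (hQ₂.1 e he).mono i2
    · exact hMin e he
  intro C hC A
  rw [act_append, act_append, act_append, act_append, act_append]
  have hF4 : act Q₂ (act Q₁ (act LH' (act LH (act sp (fun B : Finset α =>
      if B = H ∪ C then (1 : ℝ) else 0))))) = fun A =>
      if A \ (X₁ ∪ X₂) = C ∧ (A ∩ (X₁ ∪ X₂)).card = H.card then
        (gp (sp.map (fun e => e.2.2))).coeff (A ∩ X₂).card /
          ((X₁.card.choose (A ∩ X₁).card : ℝ) * (X₂.card.choose (A ∩ X₂).card : ℝ)) else 0 := by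
    funext A
    exact even_F4 hX hH hH' hC sp h1 hs1 hs2 hb hLH hLH' hQ₁ hQ₂ A
  rw [hF4]
  set F4 : Finset α → ℝ := fun A =>
      if A \ (X₁ ∪ X₂) = C ∧ (A ∩ (X₁ ∪ X₂)).card = H.card then
        (gp (sp.map (fun e => e.2.2))).coeff (A ∩ X₂).card /
          ((X₁.card.choose (A ∩ X₁).card : ℝ) * (X₂.card.choose (A ∩ X₂).card : ℝ)) else 0 with hF4def
  set M' := M.map (fun q => ((q.1, q.2, 1 / 2) : Op α)) with hM'
  have hsum : act M' F4 = act M' (fun A => (1 / 2 : ℝ) * F4 A + (1 / 2 : ℝ) * F4 (sig M • A)) := by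
    rw [act_add, act_mul, act_mul M' (1 / 2) (fun A => F4 (sig M • A)), act_sig M hM.1 F4]
    funext z
    ring
  rw [hsum]
  have huni : (fun A => (1 / 2 : ℝ) * F4 A + (1 / 2 : ℝ) * F4 (sig M • A)) = fun A : Finset α =>
      if A \ (X₁ ∪ X₂) = C ∧ (A ∩ (X₁ ∪ X₂)).card = H.card then
        1 / ((X₁ ∪ X₂).card.choose H.card : ℝ) else 0 := by
    funext A
    obtain ⟨s1, s2⟩ := hM.sig_inter hX hc A
    have s3 := hM.sig_sdiff hX hc A
    have e7 : ∀ A : Finset α, (A ∩ (X₁ ∪ X₂)).card = (A ∩ X₁).card + (A ∩ X₂).card := by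
      intro A
      rw [Finset.inter_union_distrib_left, Finset.card_union_of_disjoint]
      exact hX.mono Finset.inter_subset_right Finset.inter_subset_right
    simp only [hF4def]
    rw [e7, e7, s1, s2, s3, Finset.card_union_of_disjoint hX, ← hc]
    by_cases h : A \ (X₁ ∪ X₂) = C ∧ (A ∩ X₁).card + (A ∩ X₂).card = H.card
    · have h' : A \ (X₁ ∪ X₂) = C ∧ (A ∩ X₂).card + (A ∩ X₁).card = H.card :=
        ⟨h.1, by rw [add_comm]; exact h.2⟩
      rw [if_pos h, if_pos h', if_pos h]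
      have hk := hg (A ∩ X₁).card (by omega)
      rw [(by omega : H.card - (A ∩ X₁).card = (A ∩ X₂).card)] at hk
      have p2 : ((X₁.card.choose (A ∩ X₁).card : ℕ) : ℝ) ≠ 0 := by
        exact_mod_cast (Nat.choose_pos (Finset.card_le_card Finset.inter_subset_right)).ne'
      have p3 : ((X₁.card.choose (A ∩ X₂).card : ℕ) : ℝ) ≠ 0 := by
        rw [hc]
        exact_mod_cast (Nat.choose_pos (Finset.card_le_card Finset.inter_subset_right)).ne'
      have hle : H.card ≤ 2 * X₁.card := by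
        have := Finset.card_le_card hH
        omega
      have p4 : (((2 * X₁.card).choose H.card : ℕ) : ℝ) ≠ 0 := by
        exact_mod_cast (Nat.choose_pos hle).ne'
      rw [← two_mul X₁.card]
      rw [eq_div_iff p4] at hk
      field_simp
      linarith
    · have h' : ¬ (A \ (X₁ ∪ X₂) = C ∧ (A ∩ X₂).card + (A ∩ X₁).card = H.card) := by
        rintro ⟨a, b⟩
        exact h ⟨a, by rw [add_comm]; exact b⟩
      rw [if_neg h, if_neg h', if_neg h]
      ring
  rw [huni, act_inv]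
  intro e he z
  obtain ⟨a1, a2, -⟩ := hMin e he
  rw [swap_smul_sdiff a1 a2, card_swap_smul_inter a1 a2]

end SHU
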