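import Mathlib
import Pool.Agent.SHU.B

/-!
# SHU.MG: merging two shuffled sets
-/

open scoped Pointwise

namespace SHU

variable {α : Type} [DecidableEq α]

theorem Cost.append {L : List (Op α)} {k : ℕ} (h : Cost L k) {L' : List (Op α)} {k' : ℕ}
    (h' : Cost L' k') : Cost (L ++ L') (k + k') := by
  induction h' with
  | nil => simpa using h
  | snoc L' R k' c c' _ hR ih =>
    have := Cost.snoc (L ++ L') R (k + k') c c' ih hR
    rw [List.append_assoc] at this
    rw [← add_assoc k k']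
    exact this

theorem cost_flatMap (cs : List (List (Op α) × α × α)) (hp : ∀ c ∈ cs, ∃ s, Path s c.1 c.2.1)
    (L : List (Op α)) (k : ℕ) (h : Cost L k) :
    Cost (L ++ cs.flatMap (fun c => c.1)) (k + (cs.map (fun c => c.1.length + 1)).sum) := by
  induction cs generalizing L k with
  | nil => simpa using h
  | cons c cs ih =>
    obtain ⟨s, hs⟩ := hp c (List.mem_cons_self ..)
    have h1 := Cost.snoc L c.1 k s c.2.1 h hs
    have h2 := ih (fun c' hc' => hp c' (List.mem_cons_of_mem _ hc')) _ _ h1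
    simp only [List.flatMap_cons, List.map_cons, List.sum_cons]
    rw [← List.append_assoc, ← add_assoc]
    exact h2

/-- the full list of a schedule -/
def Sched.full {X H : Finset α} (S : Sched X H) : List (Op α) :=
  S.pre ++ S.comp.flatMap (fun c => c.1)

theorem Sched.cost_full {X H : Finset α} (S : Sched X H) : Cost S.full S.cost :=
  cost_flatMap S.comp S.hpath S.pre S.cpre S.hpre

variable [Fintype α]

theorem merge_sym {A B H : Finset α} (hd : Disjoint B H) (hA : A = B ∪ H)
    {LB LH Q : List (Op α)} (hB : IsSymOn B LB) (hH : IsSymOn H LH) (hQ : Spr A H Q) :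
    IsSymOn A (LB ++ LH ++ Q) := by
  have hBA : B ⊆ A := by rw [hA]; exact Finset.subset_union_left
  have hHA : H ⊆ A := by rw [hA]; exact Finset.subset_union_right
  refine ⟨?_, ?_⟩
  · intro e he
    rcases List.mem_append.1 he with he | he
    · rcases List.mem_append.1 he with he | he
      · exact (hB.1 e he).mono hBA
      · exact (hH.1 e he).mono hHA
    · exact hQ.1 e he
  intro a ha b hb z
  rw [act_append, act_append]
  set F' : Equiv.Perm α → ℝ := act LH (act LB (delta α)) with hF'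
  have hcomm : F' = act LB (act LH (delta α)) := by
    rw [hF']
    apply act_act_comm
    intro e he e' he'
    obtain ⟨h1, h2, -⟩ := hH.1 e he
    obtain ⟨h3, h4, -⟩ := hB.1 e' he'
    have key : ∀ x ∈ B, ∀ y ∈ H, x ≠ y := by
      rintro x hx y hy rfl
      exact Finset.disjoint_left.1 hd hx hy
    exact ⟨key _ h3 _ h1, key _ h3 _ h2, key _ h4 _ h1, key _ h4 _ h2⟩
  let Kp : Equiv.Perm α → Prop := fun z => (∀ x ∉ A, z x = x) ∧ z • H = H
  have hsmulH : ∀ a b : α, (a ∈ B ∧ b ∈ B) ∨ (a ∈ H ∧ b ∈ H) → Equiv.swap a b • H = H := by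
    intro a b hab
    ext x
    rw [mem_swap_smul]
    rcases hab with ⟨h1, h2⟩ | ⟨h1, h2⟩
    · have n1 : a ∉ H := Finset.disjoint_left.1 hd h1
      have n2 : b ∉ H := Finset.disjoint_left.1 hd h2
      by_cases x1 : x = a
      · subst x1; rw [Equiv.swap_apply_left]; simp [n1, n2]
      · by_cases x2 : x = b
        · subst x2; rw [Equiv.swap_apply_right]; simp [n1, n2]
        · rw [Equiv.swap_apply_of_ne_of_ne x1 x2]
    · by_cases x1 : x = a
      · subst x1; rw [Equiv.swap_apply_left]; simp [h1, h2]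
      · by_cases x2 : x = b
        · subst x2; rw [Equiv.swap_apply_right]; simp [h1, h2]
        · rw [Equiv.swap_apply_of_ne_of_ne x1 x2]
  have hfix : ∀ a ∈ A, ∀ b ∈ A, ∀ x ∉ A, Equiv.swap a b x = x := by
    intro a ha b hb x hx
    exact Equiv.swap_apply_of_ne_of_ne (by rintro rfl; exact hx ha) (by rintro rfl; exact hx hb)
  have hKp : ∀ a b : α, (a ∈ B ∧ b ∈ B) ∨ (a ∈ H ∧ b ∈ H) → ∀ z, Kp z → Kp (Equiv.swap a b * z) := by
    intro a b hab z hz
    have hab' : a ∈ A ∧ b ∈ A := by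
      rcases hab with ⟨h1, h2⟩ | ⟨h1, h2⟩
      · exact ⟨hBA h1, hBA h2⟩
      · exact ⟨hHA h1, hHA h2⟩
    refine ⟨fun x hx => ?_, ?_⟩
    · rw [Equiv.Perm.mul_apply, hz.1 x hx]; exact hfix a hab'.1 b hab'.2 x hx
    · rw [← smul_smul, hz.2, hsmulH a b hab]
  have hKp' : ∀ a b : α, (a ∈ B ∧ b ∈ B) ∨ (a ∈ H ∧ b ∈ H) → ∀ z, ¬ Kp z →
      ¬ Kp (Equiv.swap a b * z) := by
    intro a b hab z hz h
    apply hz
    have := hKp a b hab _ h
    rwa [← mul_assoc, Equiv.swap_mul_self, one_mul] at this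
  -- support
  have hsupp : ∀ z, ¬ Kp z → F' z = 0 := by
    have s1 : ∀ z, ¬ Kp z → act LB (delta α) z = 0 := by
      have := act_congr (fun z => ¬ Kp z) LB (fun e he z hz =>
        hKp' e.1 e.2.1 (Or.inl ⟨(hB.1 e he).1, (hB.1 e he).2.1⟩) z hz) (delta α) (fun _ => 0)
        (by
          intro z hz
          simp only [delta]
          rw [if_neg]
          rintro rfl
          exact hz ⟨fun x _ => rfl, one_smul _ _⟩)
      intro z hz
      rw [this z hz, act_zero]
    have := act_congr (fun z => ¬ Kp z) LH (fun e he z hz =>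
        hKp' e.1 e.2.1 (Or.inr ⟨(hH.1 e he).1, (hH.1 e he).2.1⟩) z hz) (act LB (delta α))
        (fun _ => 0) s1
    intro z hz
    rw [hF', this z hz, act_zero]
  -- invariance
  have hinv : ∀ a b : α, (a ∈ B ∧ b ∈ B) ∨ (a ∈ H ∧ b ∈ H) → ∀ z,
      F' (Equiv.swap a b * z) = F' z := by
    intro a b hab z
    rcases hab with ⟨h1, h2⟩ | ⟨h1, h2⟩
    · rw [hcomm]
      exact hB.inv (act LH (delta α)) h1 h2 z
    · exact hH.inv (act LB (delta α)) h1 h2 z
  have hconst : ∀ n : ℕ, ∀ z, z.support.card = n → Kp z → F' z = F' 1 := by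
    intro n
    induction n using Nat.strong_induction_on with
    | _ n ih =>
      intro z hn hz
      by_cases h1 : z = 1
      · rw [h1]
      obtain ⟨x, hx⟩ : ∃ x, z x ≠ x := by
        by_contra hc
        push Not at hc
        exact h1 (Equiv.ext hc)
      have hxA : x ∈ A := by
        by_contra hc
        exact hx (hz.1 x hc)
      have hzxA : z x ∈ A := by
        by_contra hc
        exact hx (z.injective (hz.1 _ hc))
      have hmem : ∀ y, z y ∈ H ↔ y ∈ H := by
        intro y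
        conv_lhs => rw [← hz.2]
        exact Finset.smul_mem_smul_finset_iff z
      have hab : (x ∈ B ∧ z x ∈ B) ∨ (x ∈ H ∧ z x ∈ H) := by
        by_cases hxH : x ∈ H
        · exact Or.inr ⟨hxH, (hmem x).2 hxH⟩
        · left
          have h2 : z x ∉ H := fun h => hxH ((hmem x).1 h)
          rw [hA, Finset.mem_union] at hxA hzxA
          exact ⟨hxA.resolve_right hxH, hzxA.resolve_right h2⟩
      rw [← hinv x (z x) hab z]
      exact ih _ (hn ▸ Equiv.Perm.card_support_swap_mul hx) _ rfl (hKp x (z x) hab z hz)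
  -- the function
  classical
  have hF : F' = fun z => F' 1 * ((if (∀ x ∉ A, z x = x) then (1 : ℝ) else 0) *
      (if z • H = H ∪ ∅ then (1 : ℝ) else 0)) := by
    funext z
    by_cases hz : Kp z
    · rw [hconst _ z rfl hz, if_pos hz.1, if_pos (by rw [Finset.union_empty]; exact hz.2)]
      ring
    · rw [hsupp z hz]
      by_cases h1 : ∀ x ∉ A, z x = x
      · have h2 : ¬ (z • H = H ∪ ∅) := by
          rw [Finset.union_empty]; exact fun h => hz ⟨h1, h⟩
        rw [if_neg h2]; ring
      · rw [if_neg h1]; ring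
  have hχ : ∀ a ∈ A, ∀ b ∈ A, ∀ z : Equiv.Perm α,
      (if (∀ x ∉ A, (Equiv.swap a b * z) x = x) then (1 : ℝ) else 0) =
        if (∀ x ∉ A, z x = x) then (1 : ℝ) else 0 := by
    intro a ha b hb z
    have h1 : ∀ z : Equiv.Perm α, (∀ x ∉ A, z x = x) → ∀ x ∉ A, (Equiv.swap a b * z) x = x := by
      intro z hz x hx
      rw [Equiv.Perm.mul_apply, hz x hx]; exact hfix a ha b hb x hx
    have h2 : (∀ x ∉ A, (Equiv.swap a b * z) x = x) ↔ ∀ x ∉ A, z x = x := by
      constructor
      · intro h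
        have := h1 _ h
        rwa [← mul_assoc, Equiv.swap_mul_self, one_mul] at this
      · exact h1 z
    simp only [h2]
  have hfin : act Q F' = fun z => F' 1 * ((if (∀ x ∉ A, z x = x) then (1 : ℝ) else 0) *
      (if (z • H) \ A = ∅ ∧ ((z • H) ∩ A).card = H.card then 1 / (A.card.choose H.card : ℝ)
        else 0)) := by
    conv_lhs => rw [hF]
    rw [act_mul]
    funext z
    congr 1
    rw [act_factor (fun z : Equiv.Perm α => if (∀ x ∉ A, z x = x) then (1 : ℝ) else 0) Q
      (fun e he z => hχ e.1 (hQ.1 e he).1 e.2.1 (hQ.1 e he).2.1 z)]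
    show _ * _ = _ * _
    congr 1
    have h3 := act_comp (Z := Equiv.Perm α) (W := Finset α) (fun z => z • H) Q
      (by intro e _ z; exact (smul_smul _ _ _).symm)
      (fun B : Finset α => if B = H ∪ ∅ then (1 : ℝ) else 0)
    rw [congrFun h3 z]
    exact hQ.2.2 ∅ (Finset.disjoint_empty_left _) (z • H)
  rw [hfin]
  simp only
  rw [hχ a ha b hb z, ← smul_smul, swap_smul_sdiff ha hb, card_swap_smul_inter ha hb]

theorem merge_TB (a t c₁ c₂ c₃ : ℕ) (_ht : 1 ≤ t) (h1 : TB a c₁) (h2 : TB t c₂)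
    (h3 : SB t (a + t) c₃) : TB (a + t) (c₁ + c₂ + c₃) := by
  intro α _ _ A hA
  obtain ⟨H, hHA, hH⟩ := Finset.exists_subset_card_eq (s := A) (n := t) (by omega)
  have hB : (A \ H).card = a := by
    rw [Finset.card_sdiff_of_subset hHA]; omega
  obtain ⟨L₁, k₁, s₁, p₁, q₁⟩ := h1 α (A \ H) hB
  obtain ⟨L₂, k₂, s₂, p₂, q₂⟩ := h2 α H hH
  obtain ⟨S, hS⟩ := h3 α A H hHA hH hA
  refine ⟨L₁ ++ L₂ ++ S.full, k₁ + k₂ + S.cost, ?_, (p₁.append p₂).append S.cost_full, by omega⟩
  exact merge_sym Finset.sdiff_disjoint (Finset.sdiff_union_of_subset hHA).symm s₁ s₂ S.hspr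

end SHU
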