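import Mathlib
import Pool.Agent.SHU.MG

/-!
# SHU.I1: interleaving two lists of completing runs
-/

open scoped Pointwise

namespace SHU

variable {α : Type}

theorem Path.append {a b c : α} {L L' : List (Op α)} (h : Path a L b) (h' : Path b L' c) :
    Path a (L ++ L') c := by
  induction h with
  | nil a => exact h'
  | cons a d c' e L h1 h2 _ ih => exact Path.cons a d c e (L ++ L') h1 h2 (ih h')

theorem Path.single (z v : α) (p : ℝ) : Path z [(z, v, p)] z :=
  Path.cons z z z (z, v, p) [] (Or.inl rfl) (Or.inl rfl) (Path.nil z)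

theorem cost_ops [DecidableEq α] (L : List (Op α)) : Cost L (2 * L.length) := by
  induction L with
  | nil => exact Cost.nil
  | cons e L ih =>
    have h1 : Cost [e] 2 := by
      have := Cost.snoc [] [e] 0 e.1 e.1 Cost.nil (Path.single e.1 e.2.1 e.2.2)
      simpa using this
    have h2 := h1.append ih
    rw [List.length_cons, mul_add, mul_one, add_comm]
    exact h2

/-- the list avoids the position -/
def Av (L : List (Op α)) (x : α) : Prop := ∀ e ∈ L, e.1 ≠ x ∧ e.2.1 ≠ x

/-- the condition of `hdone` -/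
def Dn (c d : List (Op α) × α × α) : Prop := Av d.1 c.2.1 ∧ Av d.1 c.2.2

theorem dn_iff (c d : List (Op α) × α × α) : Dn c d ↔ ∀ e ∈ d.1,
    e.1 ≠ c.2.1 ∧ e.1 ≠ c.2.2 ∧ e.2.1 ≠ c.2.1 ∧ e.2.1 ≠ c.2.2 := by
  constructor
  · rintro ⟨h1, h2⟩ e he
    exact ⟨(h1 e he).1, (h2 e he).1, (h1 e he).2, (h2 e he).2⟩
  · intro h
    exact ⟨fun e he => ⟨(h e he).1, (h e he).2.2.1⟩, fun e he => ⟨(h e he).2.1, (h e he).2.2.2⟩⟩

/-- a completing run with one element -/
noncomputable def sgl (q : α × α) : List (Op α) × α × α := ([(q.1, q.2, 1 / 2)], q.1, q.2)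

/-- interleaving -/
noncomputable def inter (z₀ : α) (tl : List (α × α)) :
    α → List (List (Op α) × α × α) → List (List (Op α) × α × α) → List (List (Op α) × α × α)
  | v, cX :: SX, cY :: SY =>
    (cX.1 ++ [(cX.2.1, v, 1 / 2)], cX.2.1, v) ::
      (cY.1 ++ [(cY.2.1, cX.2.2, 1 / 2)], cY.2.1, cX.2.2) :: inter z₀ tl cY.2.2 SX SY
  | v, [], _ => ((z₀, v) :: tl).map sgl
  | v, _ :: _, [] => ((z₀, v) :: tl).map sgl

theorem inter_length (z₀ : α) (tl : List (α × α)) (SX : List (List (Op α) × α × α)) :
    ∀ (v : α) (SY : List (List (Op α) × α × α)), SX.length = SY.length →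
    (inter z₀ tl v SX SY).length = 2 * SX.length + 1 + tl.length := by
  induction SX with
  | nil => intro v SY _; simp [inter]; ring
  | cons cX SX ih =>
    intro v SY h
    cases SY with
    | nil => simp at h
    | cons cY SY =>
      simp only [inter, List.length_cons] at h ⊢
      rw [ih _ SY (by omega)]
      ring

theorem inter_cost (z₀ : α) (tl : List (α × α)) (SX : List (List (Op α) × α × α)) :
    ∀ (v : α) (SY : List (List (Op α) × α × α)), SX.length = SY.length →
    ((inter z₀ tl v SX SY).map (fun c => c.1.length + 1)).sum =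
      (SX.map (fun c => c.1.length + 1)).sum + (SY.map (fun c => c.1.length + 1)).sum +
        2 * SX.length + 2 + 2 * tl.length := by
  induction SX with
  | nil =>
    intro v SY h
    cases SY with
    | cons cY SY => simp at h
    | nil =>
      simp only [inter, List.map_cons, List.map_map, List.sum_cons]
      have : ((fun c : List (Op α) × α × α => c.1.length + 1) ∘ sgl) = fun _ => 2 := by
        funext q; simp [sgl]
      rw [this]
      simp [sgl]
      ring
  | cons cX SX ih =>
    intro v SY h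
    cases SY with
    | nil => simp at h
    | cons cY SY =>
      simp only [List.length_cons] at h
      simp only [inter, List.map_cons, List.sum_cons, ih _ SY (by omega : SX.length = SY.length),
        List.length_append, List.length_cons, List.length_nil]
      ring

theorem inter_path (z₀ : α) (tl : List (α × α)) (SX : List (List (Op α) × α × α)) :
    ∀ (v : α) (SY : List (List (Op α) × α × α)), (∀ c ∈ SX, ∃ s, Path s c.1 c.2.1) →
    (∀ c ∈ SY, ∃ s, Path s c.1 c.2.1) →
    ∀ c ∈ inter z₀ tl v SX SY, ∃ s, Path s c.1 c.2.1 := by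
  have hbase : ∀ v, ∀ c ∈ ((z₀, v) :: tl).map sgl, ∃ s, Path s c.1 c.2.1 := by
    intro v c hc
    obtain ⟨q, -, rfl⟩ := List.mem_map.1 hc
    exact ⟨q.1, Path.single _ _ _⟩
  induction SX with
  | nil => intro v SY _ _ c hc; exact hbase v c hc
  | cons cX SX ih =>
    intro v SY hX hY c hc
    cases SY with
    | nil => exact hbase v c hc
    | cons cY SY =>
      simp only [inter, List.mem_cons] at hc
      rcases hc with rfl | rfl | hc
      · obtain ⟨s, hs⟩ := hX cX (List.mem_cons_self ..)
        exact ⟨s, hs.append (Path.single _ _ _)⟩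
      · obtain ⟨s, hs⟩ := hY cY (List.mem_cons_self ..)
        exact ⟨s, hs.append (Path.single _ _ _)⟩
      · exact ih _ SY (fun c hc => hX c (List.mem_cons_of_mem _ hc))
          (fun c hc => hY c (List.mem_cons_of_mem _ hc)) c hc

theorem inter_perm [DecidableEq α] (z₀ : α) (tl : List (α × α))
    (SX : List (List (Op α) × α × α)) :
    ∀ (v : α) (SY : List (List (Op α) × α × α)), SX.length = SY.length →
    List.Perm ((inter z₀ tl v SX SY).flatMap (fun c => [c.2.1, c.2.2]))
      (z₀ :: v :: (tl.flatMap (fun q => [q.1, q.2]) ++ (SX.flatMap (fun c => [c.2.1, c.2.2]) ++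
        SY.flatMap (fun c => [c.2.1, c.2.2])))) := by
  induction SX with
  | nil =>
    intro v SY h
    cases SY with
    | cons cY SY => simp at h
    | nil =>
      simp only [inter, List.map_cons, List.flatMap_cons, List.flatMap_nil, List.append_nil]
      rw [List.flatMap_map]
      exact List.Perm.refl _
  | cons cX SX ih =>
    intro v SY h
    cases SY with
    | nil => simp at h
    | cons cY SY =>
      simp only [List.length_cons] at h
      rw [List.perm_iff_count]
      intro a
      have h1 := (List.perm_iff_count.1 (ih cY.2.2 SY (by omega))) a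
      simp only [inter, List.flatMap_cons, List.count_append, List.count_cons, List.count_nil,
        List.cons_append, List.nil_append] at h1 ⊢
      rw [h1]
      ring

theorem inter_side (X₁ X₂ : Finset α) (z₀ : α) (tl : List (α × α)) (hz : z₀ ∈ X₁)
    (htl : ∀ q ∈ tl, q.1 ∈ X₁ ∧ q.2 ∈ X₂) (SX : List (List (Op α) × α × α)) :
    ∀ (v : α) (SY : List (List (Op α) × α × α)), v ∈ X₂ →
    (∀ c ∈ SX, c.2.1 ∈ X₁ ∧ c.2.2 ∈ X₁) → (∀ c ∈ SY, c.2.1 ∈ X₂ ∧ c.2.2 ∈ X₂) →
    ∀ c ∈ inter z₀ tl v SX SY, (c.2.1 ∈ X₁ ∧ c.2.2 ∈ X₂) ∨ (c.2.1 ∈ X₂ ∧ c.2.2 ∈ X₁) := by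
  have hbase : ∀ v ∈ X₂, ∀ c ∈ ((z₀, v) :: tl).map sgl,
      (c.2.1 ∈ X₁ ∧ c.2.2 ∈ X₂) ∨ (c.2.1 ∈ X₂ ∧ c.2.2 ∈ X₁) := by
    intro v hv c hc
    obtain ⟨q, hq, rfl⟩ := List.mem_map.1 hc
    rcases List.mem_cons.1 hq with rfl | hq
    · exact Or.inl ⟨hz, hv⟩
    · exact Or.inl (htl q hq)
  induction SX with
  | nil => intro v SY hv _ _ c hc; exact hbase v hv c hc
  | cons cX SX ih =>
    intro v SY hv hX hY c hc
    cases SY with
    | nil => exact hbase v hv c hc
    | cons cY SY =>
      simp only [inter, List.mem_cons] at hc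
      have a1 := hX cX (List.mem_cons_self ..)
      have a2 := hY cY (List.mem_cons_self ..)
      rcases hc with rfl | rfl | hc
      · exact Or.inl ⟨a1.1, hv⟩
      · exact Or.inr ⟨a2.1, a1.2⟩
      · exact ih _ SY a2.2 (fun c hc => hX c (List.mem_cons_of_mem _ hc))
          (fun c hc => hY c (List.mem_cons_of_mem _ hc)) c hc

theorem inter_av (z₀ : α) (tl : List (α × α)) (x : α) (hz : z₀ ≠ x)
    (htl : ∀ q ∈ tl, q.1 ≠ x ∧ q.2 ≠ x) (SX : List (List (Op α) × α × α)) :
    ∀ (v : α) (SY : List (List (Op α) × α × α)), v ≠ x →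
    (∀ c ∈ SX, Av c.1 x ∧ c.2.1 ≠ x ∧ c.2.2 ≠ x) → (∀ c ∈ SY, Av c.1 x ∧ c.2.1 ≠ x ∧ c.2.2 ≠ x) →
    ∀ c ∈ inter z₀ tl v SX SY, Av c.1 x := by
  have hbase : ∀ v, v ≠ x → ∀ c ∈ ((z₀, v) :: tl).map sgl, Av c.1 x := by
    intro v hv c hc
    obtain ⟨q, hq, rfl⟩ := List.mem_map.1 hc
    intro e he
    simp only [sgl, List.mem_singleton] at he
    subst he
    rcases List.mem_cons.1 hq with rfl | hq
    · exact ⟨hz, hv⟩
    · exact htl q hq
  induction SX with
  | nil => intro v SY hv _ _ c hc; exact hbase v hv c hc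
  | cons cX SX ih =>
    intro v SY hv hX hY c hc
    cases SY with
    | nil => exact hbase v hv c hc
    | cons cY SY =>
      simp only [inter, List.mem_cons] at hc
      have a1 := hX cX (List.mem_cons_self ..)
      have a2 := hY cY (List.mem_cons_self ..)
      rcases hc with rfl | rfl | hc
      · intro e he
        simp only [List.mem_append, List.mem_singleton] at he
        rcases he with he | rfl
        · exact a1.1 e he
        · exact ⟨a1.2.1, hv⟩
      · intro e he
        simp only [List.mem_append, List.mem_singleton] at he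
        rcases he with he | rfl
        · exact a2.1 e he
        · exact ⟨a2.2.1, a1.2.2⟩
      · exact ih _ SY a2.2.2 (fun c hc => hX c (List.mem_cons_of_mem _ hc))
          (fun c hc => hY c (List.mem_cons_of_mem _ hc)) c hc

end SHU
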