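import Mathlib
import Pool.Agent.SHU.I1

/-!
# SHU.I2: interleaving, operators
-/

open scoped Pointwise

namespace SHU

variable {α : Type} [DecidableEq α]

theorem comm_av {Z : Type} [MulAction (Equiv.Perm α) Z] {L L' : List (Op α)}
    (h : ∀ e ∈ L, Av L' e.1 ∧ Av L' e.2.1) (F : Z → ℝ) :
    act L (act L' F) = act L' (act L F) := by
  apply act_act_comm
  intro e he e' he'
  obtain ⟨h1, h2⟩ := h e he
  exact ⟨(h1 e' he').1, (h2 e' he').1, (h1 e' he').2, (h2 e' he').2⟩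

theorem av_flatMap {S : List (List (Op α) × α × α)} {x : α} (h : ∀ c ∈ S, Av c.1 x) :
    Av (S.flatMap (fun c => c.1)) x := by
  intro e he
  obtain ⟨c, hc, he⟩ := List.mem_flatMap.1 he
  exact h c hc e he

theorem av_of_side {X₁ X₂ : Finset α} (hd : Disjoint X₁ X₂) {L : List (Op α)}
    (hL : ∀ e ∈ L, e.1 ∈ X₁ ∧ e.2.1 ∈ X₁) {x : α} (hx : x ∈ X₂) : Av L x := by
  intro e he
  have hd' := Finset.disjoint_left.1 hd
  obtain ⟨h1, h2⟩ := hL e he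
  exact ⟨by rintro rfl; exact hd' h1 hx, by rintro rfl; exact hd' h2 hx⟩

theorem sgl_dn (l : List (α × α)) (h : (l.flatMap (fun q => [q.1, q.2])).Nodup) :
    (l.map sgl).Pairwise Dn := by
  induction l with
  | nil => exact List.Pairwise.nil
  | cons q l ih =>
    rw [List.flatMap_cons] at h
    simp only [List.cons_append, List.nil_append, List.nodup_cons, List.mem_cons, not_or] at h
    obtain ⟨⟨h1, h2⟩, h3, h4⟩ := h
    rw [List.map_cons, List.pairwise_cons]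
    refine ⟨?_, ih h4⟩
    intro d hd
    obtain ⟨r, hr, rfl⟩ := List.mem_map.1 hd
    have m1 : r.1 ∈ l.flatMap (fun q => [q.1, q.2]) := List.mem_flatMap.2 ⟨r, hr, by simp⟩
    have m2 : r.2 ∈ l.flatMap (fun q => [q.1, q.2]) := List.mem_flatMap.2 ⟨r, hr, by simp⟩
    constructor
    · intro e he
      simp only [sgl, List.mem_singleton] at he
      subst he
      exact ⟨fun h => h2 (h ▸ m1), fun h => h2 (h ▸ m2)⟩
    · intro e he
      simp only [sgl, List.mem_singleton] at he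
      subst he
      exact ⟨fun h => h3 (h ▸ m1), fun h => h3 (h ▸ m2)⟩

/-- the hypotheses of the interleaving -/
structure IG (X₁ X₂ : Finset α) (z₀ : α) (tl : List (α × α)) (v : α)
    (SX SY : List (List (Op α) × α × α)) : Prop where
  len : SX.length = SY.length
  hv : v ∈ X₂
  hX : ∀ c ∈ SX, (∀ e ∈ c.1, e.1 ∈ X₁ ∧ e.2.1 ∈ X₁) ∧ c.2.1 ∈ X₁ ∧ c.2.2 ∈ X₁
  hY : ∀ c ∈ SY, (∀ e ∈ c.1, e.1 ∈ X₂ ∧ e.2.1 ∈ X₂) ∧ c.2.1 ∈ X₂ ∧ c.2.2 ∈ X₂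
  n1 : (z₀ :: (tl.map (fun q => q.1) ++ SX.flatMap (fun c => [c.2.1, c.2.2]))).Nodup
  n2 : (tl.map (fun q => q.2) ++ (v :: SY.flatMap (fun c => [c.2.1, c.2.2]))).Nodup
  d1 : SX.Pairwise Dn
  d2 : SY.Pairwise Dn
  av : ∀ c ∈ SY, Av c.1 v

variable {X₁ X₂ : Finset α} {z₀ : α} {tl : List (α × α)}

theorem IG.tail {v : α} {cX cY : List (Op α) × α × α} {SX SY : List (List (Op α) × α × α)}
    (h : IG X₁ X₂ z₀ tl v (cX :: SX) (cY :: SY)) : IG X₁ X₂ z₀ tl cY.2.2 SX SY where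
  len := by have := h.len; simp only [List.length_cons] at this; omega
  hv := (h.hY cY (List.mem_cons_self ..)).2.2
  hX := fun c hc => h.hX c (List.mem_cons_of_mem _ hc)
  hY := fun c hc => h.hY c (List.mem_cons_of_mem _ hc)
  n1 := by
    have := h.n1
    rw [List.flatMap_cons] at this
    refine this.sublist (List.Sublist.cons_cons _ (List.Sublist.append (List.Sublist.refl _) ?_))
    exact List.sublist_append_right _ _
  n2 := by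
    have := h.n2
    rw [List.flatMap_cons] at this
    refine this.sublist (List.Sublist.append (List.Sublist.refl _) ?_)
    simp only [List.cons_append, List.nil_append]
    exact List.Sublist.cons _ (List.Sublist.cons _ (List.Sublist.refl _))
  d1 := (List.pairwise_cons.1 h.d1).2
  d2 := (List.pairwise_cons.1 h.d2).2
  av := fun c hc => ((List.pairwise_cons.1 h.d2).1 c hc).2

/-- what the later runs avoid -/
theorem IG.av_all (hd : Disjoint X₁ X₂) (hz : z₀ ∈ X₁) (htl : ∀ q ∈ tl, q.1 ∈ X₁ ∧ q.2 ∈ X₂)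
    {v : α} {cX cY : List (Op α) × α × α} {SX SY : List (List (Op α) × α × α)}
    (h : IG X₁ X₂ z₀ tl v (cX :: SX) (cY :: SY)) :
    (∀ c ∈ inter z₀ tl cY.2.2 SX SY, Av c.1 cX.2.1) ∧
    (∀ c ∈ inter z₀ tl cY.2.2 SX SY, Av c.1 cX.2.2) ∧
    (∀ c ∈ inter z₀ tl cY.2.2 SX SY, Av c.1 cY.2.1) ∧
    (∀ c ∈ inter z₀ tl cY.2.2 SX SY, Av c.1 v) := by
  have hne : ∀ {x y : α}, x ∈ X₁ → y ∈ X₂ → x ≠ y := by
    rintro x y hx hy rfl
    exact Finset.disjoint_left.1 hd hx hy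
  obtain ⟨x1, x2, x3⟩ := h.hX cX (List.mem_cons_self ..)
  obtain ⟨y1, y2, y3⟩ := h.hY cY (List.mem_cons_self ..)
  have hX' : ∀ c ∈ SX, (∀ e ∈ c.1, e.1 ∈ X₁ ∧ e.2.1 ∈ X₁) ∧ c.2.1 ∈ X₁ ∧ c.2.2 ∈ X₁ :=
    fun c hc => h.hX c (List.mem_cons_of_mem _ hc)
  have hY' : ∀ c ∈ SY, (∀ e ∈ c.1, e.1 ∈ X₂ ∧ e.2.1 ∈ X₂) ∧ c.2.1 ∈ X₂ ∧ c.2.2 ∈ X₂ :=
    fun c hc => h.hY c (List.mem_cons_of_mem _ hc)
  have n1 := h.n1
  have n2 := h.n2
  rw [List.flatMap_cons] at n1 n2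
  simp only [List.cons_append, List.nil_append, List.nodup_cons, List.nodup_append,
    List.mem_append, List.mem_cons, not_or] at n1 n2
  obtain ⟨⟨m1, m2, m3, m4⟩, m5, ⟨⟨m6, m7⟩, m8, m9⟩, m10⟩ := n1
  obtain ⟨k1, ⟨⟨k2, k3, k4⟩, ⟨k5, k6⟩, k7, k8⟩, k9⟩ := n2
  have memX : ∀ c ∈ SX, c.2.1 ∈ SX.flatMap (fun c => [c.2.1, c.2.2]) ∧
      c.2.2 ∈ SX.flatMap (fun c => [c.2.1, c.2.2]) := fun c hc =>
    ⟨List.mem_flatMap.2 ⟨c, hc, by simp⟩, List.mem_flatMap.2 ⟨c, hc, by simp⟩⟩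
  have memY : ∀ c ∈ SY, c.2.1 ∈ SY.flatMap (fun c => [c.2.1, c.2.2]) ∧
      c.2.2 ∈ SY.flatMap (fun c => [c.2.1, c.2.2]) := fun c hc =>
    ⟨List.mem_flatMap.2 ⟨c, hc, by simp⟩, List.mem_flatMap.2 ⟨c, hc, by simp⟩⟩
  have d1 := (List.pairwise_cons.1 h.d1).1
  have d2 := (List.pairwise_cons.1 h.d2).1
  have sX : ∀ {x : α}, x ∈ X₁ → ∀ c ∈ SY, Av c.1 x ∧ c.2.1 ≠ x ∧ c.2.2 ≠ x := by
    intro x hx c hc
    obtain ⟨a1, a2, a3⟩ := hY' c hc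
    exact ⟨av_of_side hd.symm a1 hx, (hne hx a2).symm, (hne hx a3).symm⟩
  have sY : ∀ {x : α}, x ∈ X₂ → ∀ c ∈ SX, Av c.1 x ∧ c.2.1 ≠ x ∧ c.2.2 ≠ x := by
    intro x hx c hc
    obtain ⟨a1, a2, a3⟩ := hX' c hc
    exact ⟨av_of_side hd a1 hx, hne a2 hx, hne a3 hx⟩
  refine ⟨?_, ?_, ?_, ?_⟩
  · apply inter_av z₀ tl cX.2.1 m2 _ SX cY.2.2 SY (hne x2 y3).symm _ (sX x2)
    · intro q hq
      exact ⟨m10 _ (List.mem_map.2 ⟨q, hq, rfl⟩) _ (Or.inl rfl), (hne x2 (htl q hq).2).symm⟩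
    · intro c hc
      exact ⟨(d1 c hc).1, fun e => m7 (e ▸ (memX c hc).1), fun e => m7 (e ▸ (memX c hc).2)⟩
  · apply inter_av z₀ tl cX.2.2 m3 _ SX cY.2.2 SY (hne x3 y3).symm _ (sX x3)
    · intro q hq
      exact ⟨m10 _ (List.mem_map.2 ⟨q, hq, rfl⟩) _ (Or.inr (Or.inl rfl)),
        (hne x3 (htl q hq).2).symm⟩
    · intro c hc
      exact ⟨(d1 c hc).2, fun e => m8 (e ▸ (memX c hc).1), fun e => m8 (e ▸ (memX c hc).2)⟩
  · apply inter_av z₀ tl cY.2.1 (hne hz y2) _ SX cY.2.2 SY (fun e => k5 e.symm) (sY y2) _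
    · intro q hq
      exact ⟨hne (htl q hq).1 y2, k9 _ (List.mem_map.2 ⟨q, hq, rfl⟩) _ (Or.inr (Or.inl rfl))⟩
    · intro c hc
      exact ⟨(d2 c hc).1, fun e => k6 (e ▸ (memY c hc).1), fun e => k6 (e ▸ (memY c hc).2)⟩
  · apply inter_av z₀ tl v (hne hz h.hv) _ SX cY.2.2 SY (fun e => k3 e.symm) (sY h.hv) _
    · intro q hq
      exact ⟨hne (htl q hq).1 h.hv, k9 _ (List.mem_map.2 ⟨q, hq, rfl⟩) _ (Or.inl rfl)⟩
    · intro c hc
      exact ⟨h.av c (List.mem_cons_of_mem _ hc), fun e => k4 (e ▸ (memY c hc).1),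
        fun e => k4 (e ▸ (memY c hc).2)⟩

end SHU
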