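import Mathlib
import Pool.Agent.SHU.I2

/-!
# SHU.I3: interleaving, operators (continued)
-/

open scoped Pointwise

namespace SHU

variable {α : Type} [DecidableEq α] {X₁ X₂ : Finset α} {z₀ : α} {tl : List (α × α)}

theorem IG.base_nodup (hd : Disjoint X₁ X₂) (hz : z₀ ∈ X₁) (htl : ∀ q ∈ tl, q.1 ∈ X₁ ∧ q.2 ∈ X₂)
    {v : α} {SY : List (List (Op α) × α × α)}
    (h : IG X₁ X₂ z₀ tl v [] SY) :
    (((z₀, v) :: tl).flatMap (fun q => [q.1, q.2])).Nodup := by
  have hne : ∀ {x y : α}, x ∈ X₁ → y ∈ X₂ → x ≠ y := by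
    rintro x y hx hy rfl
    exact Finset.disjoint_left.1 hd hx hy
  have n1 := h.n1
  have n2 := h.n2
  have hv := h.hv
  clear h
  rw [List.flatMap_cons]
  simp only [List.flatMap_nil, List.append_nil, List.nodup_cons, List.nodup_append, List.mem_cons,
    List.mem_map, not_exists, not_and] at n1 n2
  obtain ⟨m1, m2⟩ := n1
  obtain ⟨k1, k2, k3⟩ := n2
  simp only [List.cons_append, List.nil_append, List.nodup_cons, List.mem_cons, not_or,
    List.mem_flatMap, not_exists, not_and, List.not_mem_nil, not_false_eq_true, and_true]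
  refine ⟨⟨hne hz hv, ?_⟩, ?_, ?_⟩
  · intro q hq
    exact ⟨fun e => m1 q hq e.symm, hne hz (htl q hq).2⟩
  · intro q hq
    exact ⟨(hne (htl q hq).1 hv).symm, fun e => k3 _ ⟨q, hq, rfl⟩ _ (Or.inl rfl) e.symm⟩
  · clear k3 m1 k2
    induction tl with
    | nil => simp
    | cons q tl ih =>
      rw [List.map_cons, List.nodup_cons] at m2 k1
      simp only [List.mem_map, not_exists, not_and] at m2 k1
      rw [List.flatMap_cons]
      simp only [List.cons_append, List.nil_append, List.nodup_cons, List.mem_cons, not_or,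
        List.mem_flatMap, not_exists, not_and, List.not_mem_nil, not_false_eq_true, and_true]
      obtain ⟨q1, q2⟩ := htl q (List.mem_cons_self ..)
      refine ⟨⟨hne q1 q2, ?_⟩, ?_, ih (fun r hr => htl r (List.mem_cons_of_mem _ hr)) m2.2 k1.2⟩
      · intro r hr
        exact ⟨fun e => m2.1 r hr e.symm, hne q1 (htl r (List.mem_cons_of_mem _ hr)).2⟩
      · intro r hr
        exact ⟨(hne (htl r (List.mem_cons_of_mem _ hr)).1 q2).symm, fun e => k1.1 r hr e.symm⟩

theorem inter_dn (hd : Disjoint X₁ X₂) (hz : z₀ ∈ X₁) (htl : ∀ q ∈ tl, q.1 ∈ X₁ ∧ q.2 ∈ X₂)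
    (SX : List (List (Op α) × α × α)) :
    ∀ (v : α) (SY : List (List (Op α) × α × α)), IG X₁ X₂ z₀ tl v SX SY →
    (inter z₀ tl v SX SY).Pairwise Dn := by
  have hne : ∀ {x y : α}, x ∈ X₁ → y ∈ X₂ → x ≠ y := by
    rintro x y hx hy rfl
    exact Finset.disjoint_left.1 hd hx hy
  induction SX with
  | nil =>
    intro v SY h
    have := sgl_dn _ (h.base_nodup hd hz htl)
    simpa [inter] using this
  | cons cX SX ih =>
    intro v SY h
    cases SY with
    | nil => have := h.len; simp at this
    | cons cY SY =>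
      obtain ⟨a1, a2, a3, a4⟩ := h.av_all hd hz htl
      obtain ⟨x1, x2, x3⟩ := h.hX cX (List.mem_cons_self ..)
      obtain ⟨y1, y2, y3⟩ := h.hY cY (List.mem_cons_self ..)
      have n1 := h.n1
      have n2 := h.n2
      rw [List.flatMap_cons] at n1 n2
      simp only [List.cons_append, List.nil_append, List.nodup_cons, List.nodup_append,
        List.mem_append, List.mem_cons, not_or] at n1 n2
      obtain ⟨⟨m1, m2, m3, m4⟩, m5, ⟨⟨m6, m7⟩, m8, m9⟩, m10⟩ := n1
      obtain ⟨k1, ⟨⟨k2, k3, k4⟩, ⟨k5, k6⟩, k7, k8⟩, k9⟩ := n2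
      simp only [inter, List.pairwise_cons, List.mem_cons]
      refine ⟨?_, ?_, ih _ SY h.tail⟩
      · rintro d (rfl | hd')
        · constructor
          · intro e he
            simp only [List.mem_append, List.mem_singleton] at he
            rcases he with he | rfl
            · exact av_of_side hd.symm y1 x2 e he
            · exact ⟨(hne x2 y2).symm, fun e => m6 e.symm⟩
          · intro e he
            simp only [List.mem_append, List.mem_singleton] at he
            rcases he with he | rfl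
            · exact h.av cY (List.mem_cons_self ..) e he
            · exact ⟨fun e => k2 e.symm, hne x3 h.hv⟩
        · exact ⟨a1 d hd', a4 d hd'⟩
      · intro d hd'
        exact ⟨a3 d hd', a2 d hd'⟩

theorem inter_act {Z : Type} [MulAction (Equiv.Perm α) Z] (hd : Disjoint X₁ X₂)
    (SX : List (List (Op α) × α × α)) :
    ∀ (v : α) (SY : List (List (Op α) × α × α)), IG X₁ X₂ z₀ tl v SX SY →
    ∀ F : Z → ℝ, act ((inter z₀ tl v SX SY).flatMap (fun c => c.1)) F =
      act (SX.flatMap (fun c => c.1) ++ SY.flatMap (fun c => c.1) ++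
        (inter z₀ tl v SX SY).map (fun c => ((c.2.1, c.2.2, 1 / 2) : Op α))) F := by
  have hne : ∀ {x y : α}, x ∈ X₁ → y ∈ X₂ → x ≠ y := by
    rintro x y hx hy rfl
    exact Finset.disjoint_left.1 hd hx hy
  induction SX with
  | nil =>
    intro v SY h F
    cases SY with
    | cons cY SY => have := h.len; simp at this
    | nil =>
      simp only [inter, List.flatMap_nil, List.nil_append]
      congr 1
      rw [List.flatMap_map, List.map_map]
      have : ∀ l : List (α × α), l.flatMap (fun q => (sgl q).1) =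
          l.map ((fun c : List (Op α) × α × α => ((c.2.1, c.2.2, 1 / 2) : Op α)) ∘ sgl) := by
        intro l
        induction l with
        | nil => rfl
        | cons q l ih => rw [List.flatMap_cons, List.map_cons, ih]; rfl
      exact this _
  | cons cX SX ih =>
    intro v SY h F
    cases SY with
    | nil => have := h.len; simp at this
    | cons cY SY =>
      obtain ⟨x1, x2, x3⟩ := h.hX cX (List.mem_cons_self ..)
      obtain ⟨y1, y2, y3⟩ := h.hY cY (List.mem_cons_self ..)
      have d1 := (List.pairwise_cons.1 h.d1).1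
      have d2 := (List.pairwise_cons.1 h.d2).1
      have hX' : ∀ c ∈ SX, (∀ e ∈ c.1, e.1 ∈ X₁ ∧ e.2.1 ∈ X₁) ∧ c.2.1 ∈ X₁ ∧ c.2.2 ∈ X₁ :=
        fun c hc => h.hX c (List.mem_cons_of_mem _ hc)
      have hY' : ∀ c ∈ SY, (∀ e ∈ c.1, e.1 ∈ X₂ ∧ e.2.1 ∈ X₂) ∧ c.2.1 ∈ X₂ ∧ c.2.2 ∈ X₂ :=
        fun c hc => h.hY c (List.mem_cons_of_mem _ hc)
      set SXf := SX.flatMap (fun c => c.1) with hSXf
      set SYf := SY.flatMap (fun c => c.1) with hSYf
      have sXf : ∀ e ∈ SXf, e.1 ∈ X₁ ∧ e.2.1 ∈ X₁ := by
        intro e he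
        obtain ⟨c, hc, he⟩ := List.mem_flatMap.1 he
        exact (hX' c hc).1 e he
      have sYf : ∀ e ∈ SYf, e.1 ∈ X₂ ∧ e.2.1 ∈ X₂ := by
        intro e he
        obtain ⟨c, hc, he⟩ := List.mem_flatMap.1 he
        exact (hY' c hc).1 e he
      -- commutations
      have c1 : ∀ G : Z → ℝ, act SXf (act [(cY.2.1, cX.2.2, 1 / 2)] G) =
          act [(cY.2.1, cX.2.2, 1 / 2)] (act SXf G) := by
        intro G
        refine (comm_av ?_ G).symm
        intro e he
        rw [List.mem_singleton] at he
        subst he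
        exact ⟨av_of_side hd sXf y2, av_flatMap (fun c hc => (d1 c hc).2)⟩
      have c2 : ∀ G : Z → ℝ, act SYf (act [(cY.2.1, cX.2.2, 1 / 2)] G) =
          act [(cY.2.1, cX.2.2, 1 / 2)] (act SYf G) := by
        intro G
        refine (comm_av ?_ G).symm
        intro e he
        rw [List.mem_singleton] at he
        subst he
        exact ⟨av_flatMap (fun c hc => (d2 c hc).1), av_of_side hd.symm sYf x3⟩
      have c3 : ∀ G : Z → ℝ, act SXf (act cY.1 G) = act cY.1 (act SXf G) := by
        intro G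
        refine comm_av ?_ G
        intro e he
        exact ⟨av_of_side hd.symm y1 (sXf e he).1, av_of_side hd.symm y1 (sXf e he).2⟩
      have c4 : ∀ G : Z → ℝ, act SXf (act [(cX.2.1, v, 1 / 2)] G) =
          act [(cX.2.1, v, 1 / 2)] (act SXf G) := by
        intro G
        refine (comm_av ?_ G).symm
        intro e he
        rw [List.mem_singleton] at he
        subst he
        exact ⟨av_flatMap (fun c hc => (d1 c hc).1), av_of_side hd sXf h.hv⟩
      have c5 : ∀ G : Z → ℝ, act cY.1 (act [(cX.2.1, v, 1 / 2)] G) =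
          act [(cX.2.1, v, 1 / 2)] (act cY.1 G) := by
        intro G
        refine (comm_av ?_ G).symm
        intro e he
        rw [List.mem_singleton] at he
        subst he
        exact ⟨av_of_side hd.symm y1 x2, h.av cY (List.mem_cons_self ..)⟩
      have c6 : ∀ G : Z → ℝ, act SYf (act [(cX.2.1, v, 1 / 2)] G) =
          act [(cX.2.1, v, 1 / 2)] (act SYf G) := by
        intro G
        refine (comm_av ?_ G).symm
        intro e he
        rw [List.mem_singleton] at he
        subst he
        exact ⟨av_of_side hd.symm sYf x2,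
          av_flatMap (fun c hc => h.av c (List.mem_cons_of_mem _ hc))⟩
      simp only [inter, List.flatMap_cons, List.map_cons, ← hSXf, ← hSYf]
      set MM := (inter z₀ tl cY.2.2 SX SY).map (fun c => ((c.2.1, c.2.2, 1 / 2) : Op α)) with hMM
      have e1 : cX.1 ++ SXf ++ (cY.1 ++ SYf) ++
          ((cX.2.1, v, 1 / 2) :: (cY.2.1, cX.2.2, 1 / 2) :: MM) =
          cX.1 ++ SXf ++ (cY.1 ++ SYf) ++ [(cX.2.1, v, 1 / 2)] ++ [(cY.2.1, cX.2.2, 1 / 2)] ++ MM := by
        simp
      rw [e1]
      simp only [act_append]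
      rw [ih _ SY h.tail, act_append, act_append]
      rw [← hSYf, c1, c2, c3, c4, c5, c6]

end SHU
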