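import Mathlib
import Pool.Agent.SHU.SI

/-!
# SHU.OD: adding one position
-/

open scoped Pointwise

namespace SHU

variable {α : Type} [DecidableEq α] [Fintype α]

theorem odd_spr {X H : Finset α} {x h₁ : α} (hx : x ∉ X) (hh : h₁ ∈ H) {LH Q : List (Op α)}
    (hL : IsSymOn H LH) (hQ : Spr X H Q) :
    Spr (insert x X) H
      ((h₁, x, (H.card : ℝ) / ((X.card : ℝ) + 1)) :: (LH ++ Q)) := by
  have hHX : H ⊆ X := hQ.2.1
  have hcard := Finset.card_le_card hHX
  have hhX : h₁ ∈ X := hHX hh
  have hxh : h₁ ≠ x := by rintro rfl; exact hx hhX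
  have hxH : x ∉ H := fun h => hx (hHX h)
  have hpos : 0 < H.card := Finset.card_pos.2 ⟨h₁, hh⟩
  have hN : (0 : ℝ) < (X.card : ℝ) + 1 := by positivity
  refine ⟨?_, hHX.trans (Finset.subset_insert _ _), ?_⟩
  · intro e he
    rcases List.mem_cons.1 he with rfl | he
    · refine ⟨Finset.mem_insert_of_mem hhX, Finset.mem_insert_self _ _, hxh, by positivity, ?_⟩
      have : (H.card : ℝ) ≤ X.card := by exact_mod_cast hcard
      show (H.card : ℝ) / ((X.card : ℝ) + 1) ≤ 1
      rw [div_le_one hN]
      linarith
    · rcases List.mem_append.1 he with he | he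
      · exact (hL.1 e he).mono (hHX.trans (Finset.subset_insert _ _))
      · exact (hQ.1 e he).mono (Finset.subset_insert _ _)
  intro C hC A
  have hxC : x ∉ C := fun h => (Finset.disjoint_left.1 hC h) (Finset.mem_insert_self _ _)
  have hCX : Disjoint C X := hC.mono_right (Finset.subset_insert _ _)
  have hCH : Disjoint C H := hCX.mono_right hHX
  set p : ℝ := (H.card : ℝ) / ((X.card : ℝ) + 1) with hp
  set D : Finset α := (H.erase h₁) ∪ insert x C with hD
  -- after the first operation
  have s1 : act1 ((h₁, x, p) : Op α) (fun B : Finset α => if B = H ∪ C then (1 : ℝ) else 0) =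
      fun B => (1 - p) * (if B = H ∪ C then (1 : ℝ) else 0) + p * (if B = D then (1 : ℝ) else 0) := by
    funext B
    simp only [act1]
    congr 2
    have h1 : Equiv.swap h₁ x • B = H ∪ C ↔ B = D := by
      have h2 : Equiv.swap h₁ x • (H ∪ C) = D := by
        ext y
        rw [mem_swap_smul]
        simp only [hD, Finset.mem_union, Finset.mem_erase, Finset.mem_insert]
        by_cases y1 : y = h₁
        · subst y1
          rw [Equiv.swap_apply_left]
          have a1 : y ∉ C := fun h => (Finset.disjoint_left.1 hCH h) hh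
          simp [hxH, hxC, hxh, a1]
        · by_cases y2 : y = x
          · subst y2
            rw [Equiv.swap_apply_right]
            simp [hh]
          · rw [Equiv.swap_apply_of_ne_of_ne y1 y2]
            simp [y1, y2]
      constructor
      · intro h
        rw [← h2, ← h, smul_smul, Equiv.swap_mul_self, one_smul]
      · rintro rfl
        rw [← h2, smul_smul, Equiv.swap_mul_self, one_smul]
    simp only [h1]
  rw [act_cons, s1, act_append]
  -- after the symmetrisation of H
  have hDH : D \ H = insert x C := by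
    ext y
    simp only [hD, Finset.mem_sdiff, Finset.mem_union, Finset.mem_erase, Finset.mem_insert]
    constructor
    · rintro ⟨(h | h), h'⟩
      · exact absurd h.2 h'
      · exact h
    · intro h
      refine ⟨Or.inr h, ?_⟩
      rcases h with rfl | h
      · exact hxH
      · exact Finset.disjoint_left.1 hCH h
  have hDc : (D ∩ H).card = H.card - 1 := by
    have : D ∩ H = H.erase h₁ := by
      ext y
      simp only [hD, Finset.mem_inter, Finset.mem_union, Finset.mem_erase, Finset.mem_insert]
      constructor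
      · rintro ⟨(h | h), h'⟩
        · exact h
        · rcases h with rfl | h
          · exact absurd h' hxH
          · exact absurd h' (Finset.disjoint_left.1 hCH h)
      · intro h
        exact ⟨Or.inl h, h.2⟩
    rw [this, Finset.card_erase_of_mem hh]
  have hHC1 : (H ∪ C) \ H = C := by
    rw [Finset.union_sdiff_distrib, Finset.sdiff_self, Finset.empty_union,
      Finset.sdiff_eq_self_of_disjoint hCH]
  have hHC2 : (H ∪ C) ∩ H = H := by
    rw [Finset.union_inter_distrib_right, Finset.inter_self,
      Finset.disjoint_iff_inter_eq_empty.1 hCH, Finset.union_empty]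
  let ψ : ℕ → Finset α → ℝ := fun k E =>
    if k = H.card ∧ E = C then (1 - p) else
      if k = H.card - 1 ∧ E = insert x C then p / H.card else 0
  have s2 : act LH (fun B : Finset α => (1 - p) * (if B = H ∪ C then (1 : ℝ) else 0) +
      p * (if B = D then (1 : ℝ) else 0)) =
      fun B => if B ∩ X ⊆ H then ψ (B ∩ X).card (B \ X) else 0 := by
    rw [act_add, act_mul, act_mul]
    funext B
    have hch : H.card.choose (H.card - 1) = H.card := by
      obtain ⟨j, hj⟩ := Nat.exists_eq_succ_of_ne_zero hpos.ne'
      rw [hj]; simp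
    simp only [symInd hL, hHC1, hHC2, hDH, hDc, Nat.choose_self, hch, ψ]
    by_cases hB : B ∩ X ⊆ H
    · have b1 : B \ H = B \ X := by
        ext y
        simp only [Finset.mem_sdiff]
        constructor
        · rintro ⟨h, h'⟩
          exact ⟨h, fun h'' => h' (hB (Finset.mem_inter.2 ⟨h, h''⟩))⟩
        · rintro ⟨h, h'⟩
          exact ⟨h, fun h'' => h' (hHX h'')⟩
      have b2 : B ∩ H = B ∩ X := by
        ext y
        simp only [Finset.mem_inter]
        constructor
        · rintro ⟨h, h'⟩; exact ⟨h, hHX h'⟩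
        · rintro ⟨h, h'⟩; exact ⟨h, hB (Finset.mem_inter.2 ⟨h, h'⟩)⟩
      rw [b1, b2, if_pos hB]
      by_cases c1 : (B ∩ X).card = H.card ∧ B \ X = C
      · have c2 : ¬ (B \ X = insert x C ∧ (B ∩ X).card = H.card - 1) := by
          rintro ⟨-, h⟩; omega
        rw [if_pos c1.symm, if_pos c1, if_neg c2]; simp
      · rw [if_neg c1, if_neg (fun h => c1 h.symm)]
        by_cases c2 : (B ∩ X).card = H.card - 1 ∧ B \ X = insert x C
        · rw [if_pos c2.symm, if_pos c2]; ring
        · rw [if_neg c2, if_neg (fun h => c2 h.symm)]; ring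
    · rw [if_neg hB]
      obtain ⟨y, hy, hyH⟩ := Finset.not_subset.1 hB
      rw [Finset.mem_inter] at hy
      have hyB : y ∈ B \ H := Finset.mem_sdiff.2 ⟨hy.1, hyH⟩
      have c1 : ¬ (B \ H = C ∧ (B ∩ H).card = H.card) := by
        rintro ⟨h, -⟩
        rw [h] at hyB
        exact Finset.disjoint_left.1 hCX hyB hy.2
      have c2 : ¬ (B \ H = insert x C ∧ (B ∩ H).card = H.card - 1) := by
        rintro ⟨h, -⟩
        rw [h, Finset.mem_insert] at hyB
        rcases hyB with rfl | hyB
        · exact hx hy.2
        · exact Finset.disjoint_left.1 hCX hyB hy.2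
      rw [if_neg c1, if_neg c2]; ring
  rw [s2, sprK hQ]
  -- arithmetic
  have hNc : (insert x X).card = X.card + 1 := Finset.card_insert_of_notMem hx
  rw [hNc]
  have e1 : ((X.card + 1).choose H.card : ℝ) * (((X.card : ℝ) + 1) - H.card) =
      ((X.card : ℝ) + 1) * X.card.choose H.card := by
    have := Nat.choose_mul_succ_eq X.card H.card
    have h5 : ((X.card + 1 - H.card : ℕ) : ℝ) = ((X.card : ℝ) + 1) - H.card := by
      rw [Nat.cast_sub (by omega)]; push_cast; ring
    rw [← h5]
    have h6 : (X.card.choose H.card : ℝ) * ((X.card + 1 : ℕ) : ℝ) =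
        ((X.card + 1).choose H.card : ℝ) * ((X.card + 1 - H.card : ℕ) : ℝ) := by
      exact_mod_cast this
    push_cast at h6 ⊢
    linarith
  have e2 : ((X.card + 1).choose H.card : ℝ) * H.card =
      ((X.card : ℝ) + 1) * X.card.choose (H.card - 1) := by
    obtain ⟨j, hj⟩ := Nat.exists_eq_succ_of_ne_zero hpos.ne'
    rw [hj]
    have := Nat.add_one_mul_choose_eq X.card j
    simp only [Nat.succ_eq_add_one, Nat.add_sub_cancel]
    have h6 : ((X.card + 1 : ℕ) : ℝ) * (X.card.choose j : ℝ) =
        ((X.card + 1).choose (j + 1) : ℝ) * ((j + 1 : ℕ) : ℝ) := by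
      exact_mod_cast this
    push_cast at h6 ⊢
    linarith
  have q1 : (0 : ℝ) < (X.card.choose H.card : ℝ) := by exact_mod_cast Nat.choose_pos hcard
  have q2 : (0 : ℝ) < (X.card.choose (H.card - 1) : ℝ) := by
    exact_mod_cast Nat.choose_pos (by omega)
  have q3 : (0 : ℝ) < ((X.card + 1).choose H.card : ℝ) := by
    exact_mod_cast Nat.choose_pos (by omega)
  have q4 : (0 : ℝ) < (H.card : ℝ) := by exact_mod_cast hpos
  have v1 : (1 - p) / X.card.choose H.card = 1 / ((X.card + 1).choose H.card : ℝ) := by
    rw [hp, div_eq_div_iff q1.ne' q3.ne']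
    field_simp
    linarith
  have v2 : p / X.card.choose (H.card - 1) = 1 / ((X.card + 1).choose H.card : ℝ) := by
    rw [hp, div_eq_div_iff q2.ne' q3.ne']
    field_simp
    linarith
  have hch : H.card.choose (H.card - 1) = H.card := by
    obtain ⟨j, hj⟩ := Nat.exists_eq_succ_of_ne_zero hpos.ne'
    rw [hj]; simp
  by_cases hxA : x ∈ A
  · have a1 : A ∩ insert x X = insert x (A ∩ X) := by
      ext y
      simp only [Finset.mem_inter, Finset.mem_insert]
      constructor
      · rintro ⟨h, h' | h'⟩
        · exact Or.inl h'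
        · exact Or.inr ⟨h, h'⟩
      · rintro (rfl | ⟨h, h'⟩)
        · exact ⟨hxA, Or.inl rfl⟩
        · exact ⟨h, Or.inr h'⟩
    have a2 : (A ∩ insert x X).card = (A ∩ X).card + 1 := by
      rw [a1, Finset.card_insert_of_notMem (fun h => hx (Finset.mem_inter.1 h).2)]
    have a3 : A \ X = insert x (A \ insert x X) := by
      ext y
      simp only [Finset.mem_sdiff, Finset.mem_insert, not_or]
      constructor
      · rintro ⟨h, h'⟩
        by_cases hy : y = x
        · exact Or.inl hy
        · exact Or.inr ⟨h, hy, h'⟩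
      · rintro (rfl | ⟨h, -, h'⟩)
        · exact ⟨hxA, hx⟩
        · exact ⟨h, h'⟩
    have n1 : ¬ ((A ∩ X).card = H.card ∧ A \ X = C) := by
      rintro ⟨-, h⟩
      exact hxC (h ▸ Finset.mem_sdiff.2 ⟨hxA, hx⟩)
    have n2 : A \ X = insert x C ↔ A \ insert x X = C := by
      rw [a3]
      constructor
      · intro h
        have h1 : (insert x (A \ insert x X)).erase x = (insert x C).erase x := by rw [h]
        rw [Finset.erase_insert (by simp), Finset.erase_insert hxC] at h1
        exact h1
      · intro h; rw [h]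
    rw [a2]
    simp only [ψ]
    rw [if_neg n1]
    simp only [n2]
    by_cases g1 : (A ∩ X).card = H.card - 1 ∧ A \ insert x X = C
    · rw [if_pos g1, if_pos (by omega : (A ∩ X).card ≤ H.card),
        if_pos (⟨g1.2, by omega⟩ : A \ insert x X = C ∧ (A ∩ X).card + 1 = H.card), g1.1, hch, ← v2]
      field_simp
    · rw [if_neg g1]
      have : ¬ (A \ insert x X = C ∧ (A ∩ X).card + 1 = H.card) := by
        rintro ⟨h, h'⟩; exact g1 ⟨by omega, h⟩
      rw [if_neg this]
      simp
  · have a1 : A ∩ insert x X = A ∩ X := by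
      ext y
      simp only [Finset.mem_inter, Finset.mem_insert]
      constructor
      · rintro ⟨h, rfl | h'⟩
        · exact absurd h hxA
        · exact ⟨h, h'⟩
      · rintro ⟨h, h'⟩; exact ⟨h, Or.inr h'⟩
    have a3 : A \ insert x X = A \ X := by
      ext y
      simp only [Finset.mem_sdiff, Finset.mem_insert, not_or]
      constructor
      · rintro ⟨h, -, h'⟩; exact ⟨h, h'⟩
      · rintro ⟨h, h'⟩; exact ⟨h, fun h3 => hxA (h3 ▸ h), h'⟩
    have n1 : ¬ ((A ∩ X).card = H.card - 1 ∧ A \ X = insert x C) := by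
      rintro ⟨-, h⟩
      have : x ∈ A \ X := h ▸ Finset.mem_insert_self _ _
      exact hxA (Finset.mem_sdiff.1 this).1
    rw [a1, a3]
    simp only [ψ]
    rw [if_neg n1]
    by_cases g1 : (A ∩ X).card = H.card ∧ A \ X = C
    · rw [if_pos g1, if_pos g1.1.le, if_pos g1.symm, g1.1, Nat.choose_self, ← v1]
      simp
    · have g2 : ¬ (A \ X = C ∧ (A ∩ X).card = H.card) := fun h => g1 h.symm
      rw [if_neg g1, if_neg g2]
      simp

end SHU
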