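import Mathlib
import Pool.Agent.SHU.I3
import Pool.Agent.SHU.OD

/-!
# SHU.I4: schedules (crude bounds and the odd step)
-/

open scoped Pointwise

namespace SHU

theorem symOn_small {α : Type} [DecidableEq α] [Fintype α] (A : Finset α) (h : A.card ≤ 1) :
    IsSymOn A [] := by
  refine ⟨fun e he => by simp at he, ?_⟩
  intro a ha b hb z
  have : a = b := Finset.card_le_one.1 h a ha b hb
  subst this
  rw [Equiv.swap_self]
  rfl

theorem TB_small (n : ℕ) (hn : n ≤ 1) : TB n 0 := by
  intro α _ _ A hA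
  exact ⟨[], 0, symOn_small A (by omega), Cost.nil, le_refl _⟩

theorem spr_nil {α : Type} [DecidableEq α] (X : Finset α) : Spr X X [] := by
  refine ⟨fun e he => by simp at he, subset_rfl, ?_⟩
  intro C hC A
  rw [act_nil]
  have hiff : A = X ∪ C ↔ (A \ X = C ∧ (A ∩ X).card = X.card) := by
    constructor
    · rintro rfl
      constructor
      · ext y
        simp only [Finset.mem_sdiff, Finset.mem_union]
        constructor
        · rintro ⟨h | h, h'⟩
          · exact absurd h h'
          · exact h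
        · intro h; exact ⟨Or.inr h, Finset.disjoint_left.1 hC h⟩
      · rw [Finset.inter_eq_right.2 Finset.subset_union_left]
    · rintro ⟨h1, h2⟩
      have h3 : A ∩ X = X := Finset.eq_of_subset_of_card_le Finset.inter_subset_right h2.ge
      rw [← h1]
      ext y
      rw [Finset.mem_union, Finset.mem_sdiff]
      constructor
      · intro h
        by_cases hy : y ∈ X
        · exact Or.inl hy
        · exact Or.inr ⟨h, hy⟩
      · rintro (h | h)
        · rw [← h3] at h; exact (Finset.mem_inter.1 h).1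
        · exact h.1
  by_cases h : A = X ∪ C
  · rw [if_pos h, if_pos (hiff.1 h), Nat.choose_self]; simp
  · rw [if_neg h, if_neg (fun h' => h (hiff.2 h'))]

theorem cost_single {α : Type} [DecidableEq α] (e : Op α) : Cost [e] 2 := by
  have := cost_ops [e]
  simpa using this

theorem spr_exists (t c₀ : ℕ) (h0 : TB t c₀) (ht : 1 ≤ t) (n : ℕ) (hn : t ≤ n) :
    ∃ c, ∀ (α : Type) [Fintype α] [DecidableEq α] (X H : Finset α), H ⊆ X → H.card = t →
      X.card = n → ∃ (Q : List (Op α)) (k : ℕ), Spr X H Q ∧ Cost Q k ∧ k ≤ c := by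
  induction n, hn using Nat.le_induction with
  | base =>
    refine ⟨0, ?_⟩
    intro α _ _ X H hHX hH hX
    have : H = X := Finset.eq_of_subset_of_card_le hHX (by omega)
    subst this
    exact ⟨[], 0, spr_nil H, Cost.nil, le_refl _⟩
  | succ n hn ih =>
    obtain ⟨c, hc⟩ := ih
    refine ⟨2 + c₀ + c, ?_⟩
    intro α _ _ X H hHX hH hX
    obtain ⟨x, hxX, hxH⟩ : ∃ x ∈ X, x ∉ H := by
      by_contra hcon
      push Not at hcon
      have := Finset.card_le_card (show X ⊆ H from hcon)
      omega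
    obtain ⟨h₁, hh₁⟩ : H.Nonempty := Finset.card_pos.1 (by omega)
    have hHX' : H ⊆ X.erase x := fun y hy =>
      Finset.mem_erase.2 ⟨fun h => hxH (h ▸ hy), hHX hy⟩
    have hX' : (X.erase x).card = n := by rw [Finset.card_erase_of_mem hxX, hX]; rfl
    obtain ⟨Q, k, hQ, hk, hkc⟩ := hc α (X.erase x) H hHX' hH hX'
    obtain ⟨LH, k₀, hL, hk₀, hkc₀⟩ := h0 α H hH
    have h1 := odd_spr (Finset.notMem_erase x X) hh₁ hL hQ
    rw [Finset.insert_erase hxX] at h1
    refine ⟨_, 2 + (k₀ + k), h1, ?_, by omega⟩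
    exact (cost_single (h₁, x, (H.card : ℝ) / (((X.erase x).card : ℝ) + 1))).append (hk₀.append hk)

/-- empty completing runs -/
def pad {α : Type} : List α → List (List (Op α) × α × α)
  | a :: b :: l => ([], a, b) :: pad l
  | _ => []

theorem pad_spec {α : Type} : ∀ (n : ℕ) (l : List α), l.length = n →
    (pad l).length = n / 2 ∧ List.Sublist ((pad l).flatMap (fun c => [c.2.1, c.2.2])) l ∧
      (∀ c ∈ pad l, c.1 = []) := by
  intro n
  induction n using Nat.strong_induction_on with
  | _ n ih =>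
    intro l hl
    match l, hl with
    | [], hl => 
      simp only [List.length_nil] at hl
      subst hl
      simp [pad]
    | [a], hl =>
      simp only [List.length_cons, List.length_nil] at hl
      subst hl
      simp [pad]
    | a :: b :: l, hl =>
      simp only [List.length_cons] at hl
      obtain ⟨h1, h2, h3⟩ := ih l.length (by omega) l rfl
      refine ⟨?_, ?_, ?_⟩
      · simp only [pad, List.length_cons, h1]; omega
      · simp only [pad, List.flatMap_cons, List.cons_append, List.nil_append]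
        exact (h2.cons_cons b).cons_cons a
      · intro c hc
        simp only [pad, List.mem_cons] at hc
        rcases hc with rfl | hc
        · rfl
        · exact h3 c hc

theorem SB_of_TB (t c₀ : ℕ) (h0 : TB t c₀) (ht : 1 ≤ t) (n : ℕ) (hn : t ≤ n) :
    ∃ c, SB t n c := by
  obtain ⟨c, hc⟩ := spr_exists t c₀ h0 ht n hn
  refine ⟨c + n / 2, ?_⟩
  intro α _ _ X H hHX hH hX
  obtain ⟨Q, k, hQ, hk, hkc⟩ := hc α X H hHX hH hX
  obtain ⟨p1, p2, p3⟩ := pad_spec n X.toList (by rw [Finset.length_toList, hX])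
  have hflat : (pad X.toList).flatMap (fun c => c.1) = [] := by
    rw [List.flatMap_eq_nil_iff]
    exact fun c hc => p3 c hc
  have hmem : ∀ c ∈ pad X.toList, c.2.1 ∈ X ∧ c.2.2 ∈ X := by
    intro c hc
    have m1 : c.2.1 ∈ (pad X.toList).flatMap (fun c => [c.2.1, c.2.2]) :=
      List.mem_flatMap.2 ⟨c, hc, by simp⟩
    have m2 : c.2.2 ∈ (pad X.toList).flatMap (fun c => [c.2.1, c.2.2]) :=
      List.mem_flatMap.2 ⟨c, hc, by simp⟩
    exact ⟨Finset.mem_toList.1 (p2.subset m1), Finset.mem_toList.1 (p2.subset m2)⟩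
  let S : Sched X H :=
    { pre := Q
      cpre := k
      hpre := hk
      comp := pad X.toList
      hpath := fun c hc => ⟨c.2.1, by rw [p3 c hc]; exact Path.nil _⟩
      hnd := X.nodup_toList.sublist p2
      hin := hmem
      hdone := by
        refine List.Pairwise.imp_of_mem (R := fun _ _ => True) ?_ (List.pairwise_of_forall (fun _ _ => trivial))
        intro c d _ hd _ e he
        rw [p3 d hd] at he
        simp at he
      hlen := by rw [p1, hX]
      hspr := by rw [hflat, List.append_nil]; exact hQ }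
  refine ⟨S, ?_⟩
  show k + ((pad X.toList).map (fun c => c.1.length + 1)).sum ≤ _
  have : (pad X.toList).map (fun c => c.1.length + 1) = (pad X.toList).map (fun _ => 1) := by
    apply List.map_congr_left
    intro c hc
    rw [p3 c hc]; rfl
  rw [this]
  simp only [List.map_const', List.sum_replicate, smul_eq_mul, mul_one, p1]
  omega

theorem ht (n : ℕ) : ∃ c, TB n c := by
  induction n with
  | zero => exact ⟨0, TB_small 0 (by omega)⟩
  | succ n ih =>
    obtain ⟨c₁, hc₁⟩ := ih
    obtain ⟨c₃, hc₃⟩ := SB_of_TB 1 0 (TB_small 1 (le_refl _)) (le_refl _) (n + 1) (by omega)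
    exact ⟨_, merge_TB n 1 c₁ 0 c₃ (le_refl _) hc₁ (TB_small 1 (le_refl _)) hc₃⟩

theorem hb (t n : ℕ) (ht' : 1 ≤ t) (htn : t ≤ n) : ∃ c, SB t n c := by
  obtain ⟨c₀, hc₀⟩ := ht t
  exact SB_of_TB t c₀ hc₀ ht' n htn

theorem ho (t : ℕ) (ht' : 1 ≤ t) : ∃ κ : ℕ, ∀ m, t ≤ 2 * m → ∀ c, SB t (2 * m) c →
    SB t (2 * m + 1) (c + κ) := by
  obtain ⟨c₀, hc₀⟩ := ht t
  refine ⟨2 + c₀, ?_⟩
  intro m hm c hc α _ _ X H hHX hH hX
  obtain ⟨x, hxX, hxH⟩ : ∃ x ∈ X, x ∉ H := by
    by_contra hcon
    push Not at hcon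
    have := Finset.card_le_card (show X ⊆ H from hcon)
    omega
  obtain ⟨h₁, hh₁⟩ : H.Nonempty := Finset.card_pos.1 (by omega)
  have hHX' : H ⊆ X.erase x := fun y hy =>
    Finset.mem_erase.2 ⟨fun h => hxH (h ▸ hy), hHX hy⟩
  have hX' : (X.erase x).card = 2 * m := by rw [Finset.card_erase_of_mem hxX, hX]; rfl
  obtain ⟨S, hS⟩ := hc α (X.erase x) H hHX' hH hX'
  obtain ⟨LH, k₀, hL, hk₀, hkc₀⟩ := hc₀ α H hH
  have h1 := odd_spr (Finset.notMem_erase x X) hh₁ hL S.hspr
  rw [Finset.insert_erase hxX] at h1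
  let S' : Sched X H :=
    { pre := [(h₁, x, (H.card : ℝ) / (((X.erase x).card : ℝ) + 1))] ++ (LH ++ S.pre)
      cpre := 2 + (k₀ + S.cpre)
      hpre := (cost_single _).append (hk₀.append S.hpre)
      comp := S.comp
      hpath := S.hpath
      hnd := S.hnd
      hin := fun c hc => ⟨Finset.mem_of_mem_erase (S.hin c hc).1, Finset.mem_of_mem_erase (S.hin c hc).2⟩
      hdone := S.hdone
      hlen := by rw [S.hlen, hX', hX]; omega
      hspr := by
        simpa [List.append_assoc] using h1 }
  refine ⟨S', ?_⟩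
  have : S'.cost = 2 + (k₀ + S.cpre) + (S.comp.map (fun c => c.1.length + 1)).sum := rfl
  rw [this]
  have h2 : S.cost = S.cpre + (S.comp.map (fun c => c.1.length + 1)).sum := rfl
  omega

end SHU
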