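import Mathlib
import Pool.Agent.SHU.D

/-!
# SHU.RR: existence of the splitting probabilities

PAPER PROOF. Write t = 2r+1, d = t-2. (1) LIMIT POLYNOMIAL. By induction on r there is a real
polynomial G of degree t-2 with all coefficients g_0..g_{t-2} > 0 and
 (*) g_k + g_{t-k} = 2 * C(t,k) / 2^t for all k <= t (g_{t-1} = g_t = 0),
and t-1 points s_0 < s_1 < ... < s_{t-2} = 0 with G(s_i) G(s_{i+1}) < 0, one of the s_i being -1.
r = 1: G = (1+3u)/4, points -1, 0. Step: G' = ((1+u)/2)^2 G + eps * A, A = u^2 - u^t (t odd, so that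
A = - u^{t+2} A(1/u): (*) is preserved for t+2, degree t = (t+2)-2, A(-1) = 2). At the old points
different from -1 the sign is that of G (eps small), at -1 the sign is that of eps: choose the sign of
eps opposite to G(-1), and replace the point -1 by -1-delta, -1, -1+delta. Coefficients stay > 0 for
small eps. (2) FINITE m. h_k(m) = C(m,k) C(m,t-k) / C(2m,t) -> C(t,k)/2^t (m -> infinity). Define g_k(m) = g_k for
r+1 <= k <= t-2, g_k(m) = 2 h_k(m) - g_{t-k} for k <= r (with g_{t-1} = g_t = 0): then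
g_k(m)+g_{t-k}(m) = 2 h_k(m), sum = 1, coefficients converge to g_k, so for m >= m_0 they are positive and the
signs at the points s_i are unchanged: t-2 distinct negative roots u_i (IVT), G_m has degree t-2, so
G_m = prod (u - u_i)/(1 - u_i) = prod ((1-p_i) + p_i u), p_i = 1/(1-u_i) in (0,1).
-/

open Polynomial

namespace SHU

private theorem rr_evpos (L M : ℝ) (hL : 0 < L) :
    ∀ᶠ η in nhdsWithin (0 : ℝ) (Set.Ioi 0), 0 < L + η * M := by
  have h : Filter.Tendsto (fun η : ℝ => L + η * M) (nhdsWithin 0 (Set.Ioi 0))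
      (nhds (L + 0 * M)) :=
    (Continuous.tendsto (by fun_prop) 0).mono_left nhdsWithin_le_nhds
  refine h.eventually (lt_mem_nhds ?_)
  simpa using hL

private theorem rr_ivt (f : ℝ → ℝ) (hf : Continuous f) (c : ℕ → ℝ) (σ : ℝ) (n : ℕ)
    (hc : ∀ i < n, c i < c (i + 1)) (hs : ∀ i ≤ n, 0 < σ * (-1) ^ i * f (c i)) :
    c 0 ≤ c n ∧ ∃ S : Finset ℝ, S.card = n ∧ ∀ x ∈ S, f x = 0 ∧ c 0 < x ∧ x < c n := by
  induction n with
  | zero => exact ⟨le_rfl, ∅, rfl, fun x hx => by simp at hx⟩
  | succ n ih =>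
    obtain ⟨h0, S, hS, hS'⟩ := ih (fun i hi => hc i (by omega)) (fun i hi => hs i (by omega))
    have h1 := hc n (by omega)
    have hn := hs n (by omega)
    have hn1 := hs (n + 1) (by omega)
    rw [pow_succ] at hn1
    have hcont : ContinuousOn (fun x => σ * (-1) ^ n * f x) (Set.Icc (c n) (c (n + 1))) := by
      fun_prop
    obtain ⟨y, hy, hy0⟩ := intermediate_value_Ioo' h1.le hcont
      (show (0 : ℝ) ∈ Set.Ioo _ _ from ⟨by linarith, hn⟩)
    have hσ : σ * (-1) ^ n ≠ 0 := by
      intro h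
      rw [h, zero_mul] at hn
      exact lt_irrefl _ hn
    have hfy : f y = 0 := by
      simp only at hy0
      exact (mul_eq_zero.1 hy0).resolve_left hσ
    refine ⟨by linarith, insert y S, ?_, ?_⟩
    · rw [Finset.card_insert_of_notMem, hS]
      intro hyS
      exact absurd (hS' y hyS).2.2 (not_lt.2 hy.1.le)
    · intro x hx
      rcases Finset.mem_insert.1 hx with rfl | hx
      · exact ⟨hfy, by linarith [hy.1], hy.2⟩
      · obtain ⟨h2, h3, h4⟩ := hS' x hx
        exact ⟨h2, h3, by linarith⟩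

private theorem rr_ivt' (f : ℝ → ℝ) (hf : Continuous f) (c : ℕ → ℝ) (σ : ℝ) (n : ℕ)
    (hc : ∀ i < n, c (i + 1) < c i) (hs : ∀ i ≤ n, 0 < σ * (-1) ^ i * f (c i)) :
    ∃ S : Finset ℝ, S.card = n ∧ ∀ x ∈ S, f x = 0 ∧ c n < x ∧ x < c 0 := by
  obtain ⟨-, S, hS, hS'⟩ := rr_ivt f hf (fun i => c (n - i)) (σ * (-1) ^ n) n
    (fun i hi => by
      have h1 : n - i = (n - (i + 1)) + 1 := by omega
      have h2 := hc (n - (i + 1)) (by omega)
      rw [h1]
      exact h2)
    (fun i hi => by
      have h2 := hs (n - i) (by omega)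
      have h3 : ((-1 : ℝ)) ^ n * (-1) ^ i = (-1) ^ (n - i) := by
        obtain ⟨j, rfl⟩ := Nat.exists_eq_add_of_le hi
        rw [Nat.add_sub_cancel_left, pow_add]
        have : ((-1 : ℝ) ^ i) * (-1) ^ i = 1 := by
          rw [← mul_pow]; simp
        calc (-1 : ℝ) ^ i * (-1) ^ j * (-1) ^ i = ((-1) ^ i * (-1) ^ i) * (-1) ^ j := by ring
          _ = (-1) ^ j := by rw [this, one_mul]
      rw [mul_assoc σ, h3]
      exact h2)
  refine ⟨S, hS, fun x hx => ?_⟩
  obtain ⟨h1, h2, h3⟩ := hS' x hx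
  simp only [Nat.sub_zero, Nat.sub_self] at h2 h3
  exact ⟨h1, h2, h3⟩

private theorem rr_list (l : List ℝ) (hl : ∀ u ∈ l, u < 0) :
    (l.map (fun u => X - C u)).prod =
      C ((l.map (fun u => 1 - u)).prod) * gp (l.map (fun u => 1 / (1 - u))) := by
  induction l with
  | nil => simp [gp]
  | cons a l ih =>
    have ha : a < 0 := hl a (by simp)
    have ih' := ih (fun u hu => hl u (by simp [hu]))
    have hne : (1 - a) ≠ 0 := by linarith
    have e1 : X - C a = C (1 - a) * (C (1 - 1 / (1 - a)) + C (1 / (1 - a)) * X) := by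
      rw [mul_add, ← mul_assoc, ← C_mul, ← C_mul]
      have h1 : (1 - a) * (1 - 1 / (1 - a)) = -a := by field_simp; ring
      have h2 : (1 - a) * (1 / (1 - a)) = 1 := by field_simp
      rw [h1, h2]
      simp only [C_neg, C_1, one_mul]
      ring
    have e2 : gp ((1 / (1 - a)) :: l.map (fun u => 1 / (1 - u))) =
        (C (1 - 1 / (1 - a)) + C (1 / (1 - a)) * X) * gp (l.map (fun u => 1 / (1 - u))) := by
      simp [gp]
    rw [List.map_cons, List.prod_cons, List.map_cons, List.prod_cons, List.map_cons, e2, ih', e1,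
      C_mul]
    ring

private theorem rr_prod (P : Polynomial ℝ) (d : ℕ) (hd : P.natDegree ≤ d)
    (hpos : ∀ k ≤ d, 0 < P.coeff k) (h1 : P.eval 1 = 1)
    (S : Finset ℝ) (hS : S.card = d) (hroot : ∀ x ∈ S, P.eval x = 0) :
    ∃ p : List ℝ, p.length = d ∧ (∀ x ∈ p, 0 ≤ x ∧ x ≤ 1) ∧ gp p = P := by
  have hP : P ≠ 0 := by
    intro h
    have := hpos 0 (Nat.zero_le _)
    simp [h] at this
  have hneg : ∀ u ∈ P.roots, u < 0 := by
    intro u hu
    by_contra hcon
    push Not at hcon
    have hr : P.eval u = 0 := (mem_roots hP).1 hu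
    rw [eval_eq_sum_range' (Nat.lt_succ_of_le hd)] at hr
    have : 0 < ∑ i ∈ Finset.range (d + 1), P.coeff i * u ^ i := by
      refine Finset.sum_pos' (fun i hi => ?_) ⟨0, by simp, ?_⟩
      · have := hpos i (by have := Finset.mem_range.1 hi; omega)
        positivity
      · simpa using hpos 0 (Nat.zero_le _)
    linarith
  have hsub : S.val ≤ P.roots := by
    rw [Multiset.le_iff_subset S.nodup]
    intro x hx
    exact (mem_roots hP).2 (hroot x hx)
  have hc1 : d ≤ Multiset.card P.roots := by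
    have := Multiset.card_le_card hsub
    rw [← hS]
    exact this
  have hc2 : Multiset.card P.roots ≤ P.natDegree := card_roots' P
  have hcard : Multiset.card P.roots = P.natDegree := by omega
  have hfac := C_leadingCoeff_mul_prod_multiset_X_sub_C hcard
  set l := P.roots.toList with hl
  have hlr : (l : Multiset ℝ) = P.roots := by rw [hl]; exact Multiset.coe_toList _
  have hl0 : ∀ u ∈ l, u < 0 := fun u hu => hneg u (by rw [← hlr]; exact hu)
  have hfac2 : P = C (P.leadingCoeff * (l.map (fun u => 1 - u)).prod) *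
      gp (l.map (fun u => 1 / (1 - u))) := by
    rw [C_mul, mul_assoc, ← rr_list l hl0]
    conv_lhs => rw [← hfac]
    rw [← hlr]
    simp
  have hgp1 : ∀ p : List ℝ, (gp p).eval 1 = 1 := by
    intro p
    induction p with
    | nil => simp [gp]
    | cons a p ih =>
      have : gp (a :: p) = (C (1 - a) + C a * X) * gp p := by simp [gp]
      rw [this, eval_mul, ih]
      simp
  have hlc : P.leadingCoeff * (l.map (fun u => 1 - u)).prod = 1 := by
    have h2 := h1
    rw [hfac2, eval_mul, hgp1, eval_C, mul_one] at h2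
    exact h2
  rw [hlc, C_1, one_mul] at hfac2
  refine ⟨l.map (fun u => 1 / (1 - u)), ?_, ?_, hfac2.symm⟩
  · rw [List.length_map, hl, Multiset.length_toList]
    omega
  · intro x hx
    obtain ⟨u, hu, rfl⟩ := List.mem_map.1 hx
    have := hl0 u hu
    constructor
    · exact div_nonneg zero_le_one (by linarith)
    · rw [div_le_one (by linarith)]
      linarith

private theorem rr_reflect_B (n : ℕ) : reflect n ((C (1 / 2 : ℝ) * (1 + X)) ^ n) =
    (C (1 / 2 : ℝ) * (1 + X)) ^ n := by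
  induction n with
  | zero => simp
  | succ n ih =>
    have h1 : (C (1 / 2 : ℝ) * (1 + X)).natDegree ≤ 1 := by
      refine (natDegree_C_mul_le _ _).trans ?_
      compute_degree
    have h2 : ((C (1 / 2 : ℝ) * (1 + X)) ^ n).natDegree ≤ n := by
      have := natDegree_pow_le_of_le n h1
      rwa [mul_one] at this
    rw [pow_succ, reflect_mul _ _ h2 h1, ih]
    congr 1
    rw [reflect_C_mul, reflect_add, reflect_one_X]
    have : reflect 1 (1 : ℝ[X]) = X := by
      have h3 := reflect_C (1 : ℝ) 1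
      rwa [C_1, one_mul, pow_one] at h3
    rw [this, add_comm]

private theorem rr_shift (c : ℕ → ℝ) (n : ℕ) (G : ℝ[X]) (σ d : ℝ) (hd : 0 < d) (s : ℝ)
    (hs : s = 1 ∨ s = -1) (t : ℕ) (ht : Odd t) (hσ : σ * σ = 1)
    (hc : ∀ i < n, s * c i < s * c (i + 1))
    (hd1 : 0 < n → s * (-1) + d < s * c 1)
    (hsg : ∀ i ≤ n, 0 < σ * (-1) ^ i * G.eval (c i))
    (hd2 : 0 < σ * G.eval (-1 + s * d)) :
    ∃ c' : ℕ → ℝ, c' 0 = -1 ∧ (∀ i < n + 1, s * c' i < s * c' (i + 1)) ∧
      ∀ᶠ η in nhdsWithin (0 : ℝ) (Set.Ioi 0), ∀ i ∈ Finset.range (n + 2),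
        0 < (-σ) * (-1) ^ i *
          ((C (1 / 2 : ℝ) * (1 + X)) ^ 2 * G + C (-σ * η) * (X ^ 2 - X ^ t)).eval (c' i) := by
  have hss : s * s = 1 := by rcases hs with h | h <;> rw [h] <;> norm_num
  have hmono : ∀ i, i ≤ n → 0 < i → s * (-1) + d < s * c i := by
    intro i
    induction i with
    | zero => intro _ h; omega
    | succ i ih =>
      intro h1 _
      rcases Nat.eq_zero_or_pos i with rfl | hi
      · exact hd1 (by omega)
      · exact (ih (by omega) hi).trans (hc i (by omega))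
  refine ⟨fun i => match i with
    | 0 => -1
    | 1 => -1 + s * d
    | (j + 2) => c (j + 1), rfl, ?_, ?_⟩
  · intro i hi
    match i, hi with
    | 0, _ =>
      show s * (-1) < s * (-1 + s * d)
      nlinarith
    | 1, hi =>
      show s * (-1 + s * d) < s * c 1
      have := hd1 (by omega)
      nlinarith
    | (j + 2), hi =>
      show s * c (j + 1) < s * c (j + 2)
      exact hc (j + 1) (by omega)
  · rw [Filter.eventually_all_finset]
    intro i hi
    have hi' : i < n + 2 := Finset.mem_range.1 hi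
    match i, hi' with
    | 0, _ =>
      have hpos : ∀ᶠ η in nhdsWithin (0 : ℝ) (Set.Ioi 0), (0 : ℝ) < η := self_mem_nhdsWithin
      filter_upwards [hpos] with η hη
      have e : ((C (1 / 2 : ℝ) * (1 + X)) ^ 2 * G + C (-σ * η) * (X ^ 2 - X ^ t)).eval (-1) =
          -σ * η * 2 := by
        simp only [eval_add, eval_mul, eval_pow, eval_C, eval_one, eval_X, eval_sub, ht.neg_one_pow]
        ring
      show 0 < (-σ) * (-1) ^ 0 * _
      rw [e]
      have : -σ * (-1) ^ 0 * (-σ * η * 2) = (σ * σ) * η * 2 := by ring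
      rw [this, hσ]
      linarith
    | 1, _ =>
      have hL : 0 < (d ^ 2 / 4) * (σ * G.eval (-1 + s * d)) := by positivity
      filter_upwards [rr_evpos _ (-(σ * σ * ((-1 + s * d) ^ 2 - (-1 + s * d) ^ t))) hL] with η hη
      have e : ((C (1 / 2 : ℝ) * (1 + X)) ^ 2 * G + C (-σ * η) * (X ^ 2 - X ^ t)).eval (-1 + s * d) =
          (s * s) * (d ^ 2 / 4) * G.eval (-1 + s * d) -
            σ * η * ((-1 + s * d) ^ 2 - (-1 + s * d) ^ t) := by
        simp only [eval_add, eval_mul, eval_pow, eval_C, eval_one, eval_X, eval_sub]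
        ring
      show 0 < (-σ) * (-1) ^ 1 * _
      rw [e, hss]
      have : -σ * (-1) ^ 1 * (1 * (d ^ 2 / 4) * eval (-1 + s * d) G -
          σ * η * ((-1 + s * d) ^ 2 - (-1 + s * d) ^ t)) =
          d ^ 2 / 4 * (σ * eval (-1 + s * d) G) +
            η * (-(σ * σ * ((-1 + s * d) ^ 2 - (-1 + s * d) ^ t))) := by ring
      rw [this]
      exact hη
    | (j + 2), hj =>
      have hj1 : j + 1 ≤ n := by omega
      have hcm := hmono (j + 1) hj1 (by omega)
      have hne : 1 + c (j + 1) ≠ 0 := by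
        intro h
        have h2 : c (j + 1) = -1 := by linarith
        rw [h2] at hcm
        linarith
      have hL : 0 < ((1 + c (j + 1)) / 2) ^ 2 * (σ * (-1) ^ (j + 1) * G.eval (c (j + 1))) := by
        have := hsg (j + 1) hj1
        positivity
      filter_upwards [rr_evpos _ (-(σ * (-1) ^ (j + 1) * σ * ((c (j + 1)) ^ 2 - (c (j + 1)) ^ t)))
        hL] with η hη
      have e : ((C (1 / 2 : ℝ) * (1 + X)) ^ 2 * G + C (-σ * η) * (X ^ 2 - X ^ t)).eval
          (c (j + 1)) = ((1 + c (j + 1)) / 2) ^ 2 * G.eval (c (j + 1)) -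
            σ * η * ((c (j + 1)) ^ 2 - (c (j + 1)) ^ t) := by
        simp only [eval_add, eval_mul, eval_pow, eval_C, eval_one, eval_X, eval_sub]
        ring
      show 0 < (-σ) * (-1) ^ (j + 2) * _
      rw [e]
      have : -σ * (-1) ^ (j + 2) * (((1 + c (j + 1)) / 2) ^ 2 * eval (c (j + 1)) G -
          σ * η * (c (j + 1) ^ 2 - c (j + 1) ^ t)) =
          ((1 + c (j + 1)) / 2) ^ 2 * (σ * (-1) ^ (j + 1) * eval (c (j + 1)) G) +
            η * (-(σ * (-1) ^ (j + 1) * σ * ((c (j + 1)) ^ 2 - (c (j + 1)) ^ t))) := by ring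
      rw [this]
      exact hη

private theorem rr_limit (r : ℕ) : ∃ (G : ℝ[X]) (σ : ℝ) (a b : ℕ → ℝ) (p q : ℕ),
    σ * σ = 1 ∧ p + q = 2 * r + 1 ∧ a 0 = -1 ∧ b 0 = -1 ∧
    (∀ i < p, (-1) * a i < (-1) * a (i + 1)) ∧ (∀ i < q, 1 * b i < 1 * b (i + 1)) ∧
    (∀ i ≤ p, 0 < σ * (-1) ^ i * G.eval (a i)) ∧ (∀ i ≤ q, 0 < σ * (-1) ^ i * G.eval (b i)) ∧
    G.natDegree ≤ 2 * r + 1 ∧ (∀ k ≤ 2 * r + 1, 0 < G.coeff k) ∧
    G + reflect (2 * r + 3) G = C 2 * (C (1 / 2 : ℝ) * (1 + X)) ^ (2 * r + 3) := by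
  induction r with
  | zero =>
    refine ⟨C (1 / 4) + C (3 / 4) * X, -1, fun _ => -1, fun i => (i : ℝ) - 1, 0, 1, by norm_num,
      rfl, rfl, by simp, by simp, ?_, ?_, ?_, ?_, ?_, ?_⟩
    · intro i hi
      push_cast
      linarith
    · intro i hi
      have : i = 0 := by omega
      subst this
      simp only [eval_add, eval_mul, eval_C, eval_X]
      norm_num
    · intro i hi
      have h01 : i = 0 ∨ i = 1 := by omega
      rcases h01 with rfl | rfl
      · simp only [eval_add, eval_mul, eval_C, eval_X]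
        norm_num
      · simp only [eval_add, eval_mul, eval_C, eval_X]
        norm_num
    · compute_degree
    · intro k hk
      have h01 : k = 0 ∨ k = 1 := by omega
      rcases h01 with rfl | rfl
      · simp
      · simp [coeff_C]
    · have e1 : reflect (2 * 0 + 3) (C (1 / 4 : ℝ) + C (3 / 4) * X) =
          C (1 / 4) * X ^ 3 + C (3 / 4) * X ^ 2 := by
        rw [reflect_add, reflect_C]
        have := reflect_C_mul_X_pow (R := ℝ) (2 * 0 + 3) 1 (c := 3 / 4)
        rw [pow_one] at this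
        rw [this]
        rfl
      rw [e1]
      have e2 : (C 2 : ℝ[X]) * (C (1 / 2 : ℝ) * (1 + X)) ^ (2 * 0 + 3) =
          (C 2 * C (1 / 2) * C (1 / 2) * C (1 / 2)) * (1 + X) ^ 3 := by ring
      rw [e2, ← C_mul, ← C_mul, ← C_mul]
      have e3 : (C (3 / 4) : ℝ[X]) = 3 * C (1 / 4) := by
        rw [show (3 : ℝ[X]) = C 3 from rfl, ← C_mul]
        norm_num
      have e4 : (2 * (1 / 2) * (1 / 2) * (1 / 2) : ℝ) = 1 / 4 := by norm_num
      rw [e3, e4]
      ring
  | succ r ih =>
    obtain ⟨G, σ, a, b, p, q, hσ, hpq, ha0, hb0, ha, hb, has, hbs, hdeg, hpos, hrefl⟩ := ih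
    have hG : Continuous (fun x => G.eval x) := G.continuous
    have hcont : ∀ s : ℝ, ∀ᶠ d in nhdsWithin (0 : ℝ) (Set.Ioi 0), 0 < σ * G.eval (-1 + s * d) := by
      intro s
      have h : Filter.Tendsto (fun d : ℝ => σ * G.eval (-1 + s * d)) (nhdsWithin 0 (Set.Ioi 0))
          (nhds (σ * G.eval (-1 + s * 0))) :=
        (Continuous.tendsto (by fun_prop) 0).mono_left nhdsWithin_le_nhds
      refine h.eventually (lt_mem_nhds ?_)
      have := has 0 (Nat.zero_le _)
      rw [ha0] at this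
      simpa using this
    have hgap : ∀ (s : ℝ) (c : ℕ → ℝ) (n : ℕ), c 0 = -1 → (∀ i < n, s * c i < s * c (i + 1)) →
        ∀ᶠ d in nhdsWithin (0 : ℝ) (Set.Ioi 0), 0 < n → s * (-1) + d < s * c 1 := by
      intro s c n h0 hc
      rcases Nat.eq_zero_or_pos n with rfl | hn
      · exact Filter.Eventually.of_forall (fun d h => absurd h (lt_irrefl _))
      · have h1 := hc 0 hn
        rw [h0] at h1
        filter_upwards [rr_evpos (s * c 1 - s * (-1)) (-1) (by linarith)] with d hd _
        linarith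
    obtain ⟨d, ⟨⟨⟨⟨hd1, hd2⟩, hd3⟩, hd4⟩, hd0⟩⟩ := ((((hcont 1).and (hcont (-1))).and
      (hgap 1 b q hb0 hb)).and (hgap (-1) a p ha0 ha)).and
        (self_mem_nhdsWithin : ∀ᶠ d in nhdsWithin (0 : ℝ) (Set.Ioi 0), d ∈ Set.Ioi (0 : ℝ)) |>.exists
    have hd0' : 0 < d := hd0
    have hodd : Odd (2 * r + 3) := ⟨r + 1, by ring⟩
    obtain ⟨a', ha0', ha', hae⟩ := rr_shift a p G σ d hd0' (-1) (Or.inr rfl) (2 * r + 3) hodd hσ
      ha hd4 has hd2
    obtain ⟨b', hb0', hb', hbe⟩ := rr_shift b q G σ d hd0' 1 (Or.inl rfl) (2 * r + 3) hodd hσ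
      hb hd3 hbs hd1
    set B : ℝ[X] := C (1 / 2 : ℝ) * (1 + X) with hB
    have hBG : ∀ k, (B ^ 2 * G).coeff k = (1 / 4) * (G.coeff k + 2 * (X * G).coeff k +
        (X ^ 2 * G).coeff k) := by
      intro k
      have : B ^ 2 * G = C (1 / 4) * (G + C 2 * (X * G) + X ^ 2 * G) := by
        have h4 : (C (1 / 4) : ℝ[X]) = C (1 / 2) * C (1 / 2) := by rw [← C_mul]; norm_num
        have h5 : (C 2 : ℝ[X]) = 2 := rfl
        rw [hB, h4, h5]
        ring
      rw [this, coeff_C_mul, coeff_add, coeff_add, coeff_C_mul]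
    have hnn : ∀ k, 0 ≤ G.coeff k := by
      intro k
      by_cases hk : k ≤ 2 * r + 1
      · exact (hpos k hk).le
      · rw [coeff_eq_zero_of_natDegree_lt (by omega)]
    have hBGpos : ∀ k ≤ 2 * (r + 1) + 1, 0 < (B ^ 2 * G).coeff k := by
      intro k hk
      rw [hBG]
      have h1 : 0 ≤ (X * G).coeff k := by
        rcases k with _ | k
        · simp
        · rw [coeff_X_mul]; exact hnn k
      have h2 : 0 ≤ (X ^ 2 * G).coeff k := by
        rw [coeff_X_pow_mul']
        split_ifs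
        · exact hnn _
        · exact le_rfl
      by_cases hk1 : k ≤ 2 * r + 1
      · have := hpos k hk1
        positivity
      · have h3 : 0 < (X ^ 2 * G).coeff k := by
          rw [coeff_X_pow_mul', if_pos (by omega)]
          exact hpos _ (by omega)
        have := hnn k
        positivity
    have hcoefe : ∀ᶠ η in nhdsWithin (0 : ℝ) (Set.Ioi 0), ∀ k ∈ Finset.range (2 * (r + 1) + 2),
        0 < (B ^ 2 * G + C (-σ * η) * (X ^ 2 - X ^ (2 * r + 3))).coeff k := by
      rw [Filter.eventually_all_finset]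
      intro k hk
      have hk' := Finset.mem_range.1 hk
      filter_upwards [rr_evpos _ (-σ * (X ^ 2 - X ^ (2 * r + 3) : ℝ[X]).coeff k)
        (hBGpos k (by omega))] with η hη
      rw [coeff_add, coeff_C_mul]
      have e : η * (-σ * (X ^ 2 - X ^ (2 * r + 3) : ℝ[X]).coeff k) =
          -σ * η * (X ^ 2 - X ^ (2 * r + 3) : ℝ[X]).coeff k := by ring
      rw [← e]
      exact hη
    obtain ⟨η, ⟨⟨h1, h2⟩, h3⟩⟩ := ((hae.and hbe).and hcoefe).exists
    refine ⟨B ^ 2 * G + C (-σ * η) * (X ^ 2 - X ^ (2 * r + 3)), -σ, a', b', p + 1, q + 1,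
      by rw [neg_mul_neg]; exact hσ, by omega, ha0', hb0', ha', hb', ?_, ?_, ?_, ?_, ?_⟩
    · intro i hi
      exact h1 i (Finset.mem_range.2 (by omega))
    · intro i hi
      exact h2 i (Finset.mem_range.2 (by omega))
    · refine (natDegree_add_le _ _).trans (max_le ?_ ?_)
      · refine natDegree_mul_le.trans ?_
        have : (B ^ 2).natDegree ≤ 2 := by
          rw [hB]; compute_degree
        omega
      · refine (natDegree_C_mul_le _ _).trans ?_
        refine (natDegree_sub_le _ _).trans ?_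
        rw [natDegree_X_pow, natDegree_X_pow]
        omega
    · intro k hk
      exact h3 k (Finset.mem_range.2 (by omega))
    · have e1 : reflect (2 * (r + 1) + 3) (B ^ 2 * G) = B ^ 2 * reflect (2 * r + 3) G := by
        have hB2 : (B ^ 2).natDegree ≤ 2 := by
          rw [hB]; compute_degree
        have := reflect_mul (B ^ 2) G (F := 2) (G := 2 * r + 3) hB2 (by omega)
        rw [show 2 * (r + 1) + 3 = 2 + (2 * r + 3) by ring, this, rr_reflect_B 2]
      have e2 : reflect (2 * (r + 1) + 3) (X ^ 2 - X ^ (2 * r + 3) : ℝ[X]) =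
          X ^ (2 * r + 3) - X ^ 2 := by
        rw [reflect_sub, reflect_monomial, reflect_monomial,
          revAt_le (by omega), revAt_le (by omega)]
        congr 2
        all_goals omega
      rw [reflect_add, e1, reflect_C_mul, e2]
      have e3 : B ^ 2 * G + C (-σ * η) * (X ^ 2 - X ^ (2 * r + 3)) +
          (B ^ 2 * reflect (2 * r + 3) G + C (-σ * η) * (X ^ (2 * r + 3) - X ^ 2)) =
          B ^ 2 * (G + reflect (2 * r + 3) G) := by ring
      rw [e3, hrefl]
      ring

private theorem rr_hlim (t k : ℕ) (hk : k ≤ t) : Filter.Tendsto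
    (fun m : ℕ => ((m.choose k : ℝ) * (m.choose (t - k) : ℝ)) / ((2 * m).choose t : ℝ))
    Filter.atTop (nhds ((t.choose k : ℝ) / 2 ^ t)) := by
  have h1 := (isEquivalent_choose k).mul (isEquivalent_choose (t - k))
  have h2 : Asymptotics.IsEquivalent Filter.atTop (fun m : ℕ => (((2 * m).choose t : ℕ) : ℝ))
      (fun m : ℕ => (((2 * m : ℕ) : ℝ) ^ t / t.factorial : ℝ)) :=
    (isEquivalent_choose t).comp_tendsto
      (Filter.tendsto_atTop_mono (fun n => by simp; omega) Filter.tendsto_id)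
  have h3 := h1.div h2
  refine (h3.tendsto_nhds_iff).2 ?_
  refine Filter.Tendsto.congr' ?_ tendsto_const_nhds
  filter_upwards [Filter.eventually_gt_atTop 0] with m hm
  have hm' : (m : ℝ) ≠ 0 := by exact_mod_cast hm.ne'
  simp only [Pi.mul_apply, Pi.div_apply]
  obtain ⟨j, rfl⟩ := Nat.exists_eq_add_of_le hk
  rw [Nat.add_sub_cancel_left, Nat.cast_add_choose ℝ, pow_add, pow_add]
  push_cast
  have f1 : ((k + j).factorial : ℝ) ≠ 0 := by exact_mod_cast (k + j).factorial_ne_zero
  have f2 : (k.factorial : ℝ) ≠ 0 := by exact_mod_cast k.factorial_ne_zero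
  have f3 : (j.factorial : ℝ) ≠ 0 := by exact_mod_cast j.factorial_ne_zero
  field_simp
  rw [mul_pow, mul_pow]
  ring

private theorem rr_sum (t m : ℕ) (h : t ≤ 2 * m) : ∑ k ∈ Finset.range (t + 1),
    ((m.choose k : ℝ) * (m.choose (t - k) : ℝ)) / ((2 * m).choose t : ℝ) = 1 := by
  rw [← Finset.sum_div]
  have h1 := Nat.add_choose_eq m m t
  rw [Finset.Nat.sum_antidiagonal_eq_sum_range_succ_mk] at h1
  have h2 : (((2 * m).choose t : ℕ) : ℝ) =
      ∑ k ∈ Finset.range (t + 1), ((m.choose k : ℝ) * (m.choose (t - k) : ℝ)) := by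
    rw [two_mul, h1]
    push_cast
    rfl
  rw [← h2]
  refine div_self ?_
  have := Nat.choose_pos h
  exact_mod_cast this.ne'

theorem rr (t : ℕ) (ht : Odd t) (h3 : 3 ≤ t) :
    ∃ m₀ : ℕ, ∀ m ≥ m₀, ∃ p : List ℝ, p.length = t - 2 ∧ (∀ x ∈ p, 0 ≤ x ∧ x ≤ 1) ∧
      ∀ k ≤ t, (gp p).coeff k + (gp p).coeff (t - k) =
        2 * ((m.choose k : ℝ) * (m.choose (t - k) : ℝ)) / ((2 * m).choose t : ℝ) := by
  obtain ⟨r', hr'⟩ := ht
  obtain ⟨r, rfl⟩ : ∃ r, r' = r + 1 := ⟨r' - 1, by omega⟩
  have htr : t = 2 * r + 3 := by omega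
  subst htr
  obtain ⟨G, σ, a, b, p, q, hσ, hpq, ha0, hb0, ha, hb, has, hbs, hdeg, hpos, hrefl⟩ := rr_limit r
  set t : ℕ := 2 * r + 3 with htdef
  set h : ℕ → ℕ → ℝ := fun k m =>
    ((m.choose k : ℝ) * (m.choose (t - k) : ℝ)) / ((2 * m).choose t : ℝ) with hh
  set hi : ℕ → ℝ := fun k => (t.choose k : ℝ) / 2 ^ t with hhi
  have hlim : ∀ k ≤ t, Filter.Tendsto (h k) Filter.atTop (nhds (hi k)) := fun k hk => rr_hlim t k hk
  have hsymm : ∀ k ≤ t, ∀ m, h (t - k) m = h k m := by
    intro k hk m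
    simp only [hh]
    rw [Nat.sub_sub_self hk, mul_comm]
  have hisymm : ∀ k ≤ t, hi (t - k) = hi k := by
    intro k hk
    simp only [hhi]
    rw [Nat.choose_symm hk]
  have hstar : ∀ k ≤ t, G.coeff k + G.coeff (t - k) = 2 * hi k := by
    intro k hk
    have h1 : (G + reflect t G).coeff k = (C 2 * (C (1 / 2 : ℝ) * (1 + X)) ^ t).coeff k := by
      rw [hrefl]
    rw [coeff_add, coeff_reflect, revAt_le hk, coeff_C_mul, mul_pow, ← C_pow, coeff_C_mul,
      coeff_one_add_X_pow] at h1
    rw [h1]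
    simp only [hhi]
    rw [one_div, inv_pow]
    ring
  set Gm : ℕ → ℝ[X] := fun m =>
    G + ∑ k ∈ Finset.range (r + 2), C (2 * (h k m - hi k)) * X ^ k with hGm
  have hGmc : ∀ m k, (Gm m).coeff k =
      G.coeff k + (if k < r + 2 then 2 * (h k m - hi k) else 0) := by
    intro m k
    simp only [hGm]
    rw [coeff_add, finsetSum_coeff]
    congr 1
    simp only [coeff_C_mul, coeff_X_pow, mul_ite, mul_one, mul_zero]
    rw [Finset.sum_ite_eq]
    simp only [Finset.mem_range]
  have hGme : ∀ m x, (Gm m).eval x =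
      G.eval x + ∑ k ∈ Finset.range (r + 2), (2 * (h k m - hi k)) * x ^ k := by
    intro m x
    simp only [hGm]
    rw [eval_add, eval_finsetSum]
    congr 1
    refine Finset.sum_congr rfl (fun k _ => ?_)
    simp only [eval_mul, eval_C, eval_pow, eval_X]
  have hdl : ∀ k < r + 2, Filter.Tendsto (fun m => 2 * (h k m - hi k)) Filter.atTop (nhds 0) := by
    intro k hk
    have h1 := ((hlim k (by omega)).sub_const (hi k)).const_mul 2
    simpa using h1
  have hel : ∀ x, Filter.Tendsto (fun m => (Gm m).eval x) Filter.atTop (nhds (G.eval x)) := by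
    intro x
    simp_rw [hGme]
    have h1 : Filter.Tendsto
        (fun m => ∑ k ∈ Finset.range (r + 2), (2 * (h k m - hi k)) * x ^ k) Filter.atTop
        (nhds (∑ k ∈ Finset.range (r + 2), 0 * x ^ k)) :=
      tendsto_finsetSum _ (fun k hk => (hdl k (Finset.mem_range.1 hk)).mul_const _)
    have h2 := h1.const_add (G.eval x)
    simpa using h2
  have hcl : ∀ k, Filter.Tendsto (fun m => (Gm m).coeff k) Filter.atTop (nhds (G.coeff k)) := by
    intro k
    simp_rw [hGmc]
    by_cases hk : k < r + 2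
    · simp only [if_pos hk]
      have h2 := (hdl k hk).const_add (G.coeff k)
      simpa using h2
    · simp only [if_neg hk, add_zero]
      exact tendsto_const_nhds
  have hsgn : ∀ (c : ℕ → ℝ) (n : ℕ), (∀ i ≤ n, 0 < σ * (-1) ^ i * G.eval (c i)) →
      ∀ᶠ m in Filter.atTop, ∀ i ∈ Finset.range (n + 1), 0 < σ * (-1) ^ i * (Gm m).eval (c i) := by
    intro c n hc
    rw [Filter.eventually_all_finset]
    intro i hi'
    have h1 := hc i (by have := Finset.mem_range.1 hi'; omega)
    exact ((hel (c i)).const_mul (σ * (-1) ^ i)).eventually (lt_mem_nhds h1)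
  have hcoef : ∀ᶠ m in Filter.atTop, ∀ k ∈ Finset.range (2 * r + 2), 0 < (Gm m).coeff k := by
    rw [Filter.eventually_all_finset]
    intro k hk
    have h1 := hpos k (by have := Finset.mem_range.1 hk; omega)
    exact (hcl k).eventually (lt_mem_nhds h1)
  obtain ⟨m₀, hm₀⟩ := Filter.eventually_atTop.1
    (((hsgn a p has).and (hsgn b q hbs)).and (hcoef.and (Filter.eventually_ge_atTop t)))
  refine ⟨m₀, fun m hm => ?_⟩
  obtain ⟨⟨hA, hB⟩, hC, hmt⟩ := hm₀ m hm
  have hcm : Continuous (fun x => (Gm m).eval x) := (Gm m).continuous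
  obtain ⟨Sa, hSa, hSa'⟩ := rr_ivt' (fun x => (Gm m).eval x) hcm a σ p
    (fun i hi' => by have := ha i hi'; linarith)
    (fun i hi' => hA i (Finset.mem_range.2 (by omega)))
  obtain ⟨-, Sb, hSb, hSb'⟩ := rr_ivt (fun x => (Gm m).eval x) hcm b σ q
    (fun i hi' => by have := hb i hi'; linarith)
    (fun i hi' => hB i (Finset.mem_range.2 (by omega)))
  have hdisj : Disjoint Sa Sb := by
    rw [Finset.disjoint_left]
    intro x hx1 hx2
    have h1 := (hSa' x hx1).2.2
    have h2 := (hSb' x hx2).2.1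
    rw [ha0] at h1
    rw [hb0] at h2
    linarith
  have hdegm : (Gm m).natDegree ≤ 2 * r + 1 := by
    refine (natDegree_add_le _ _).trans (max_le hdeg ?_)
    refine natDegree_sum_le_of_forall_le _ _ (fun k hk => ?_)
    refine (natDegree_C_mul_X_pow_le _ _).trans ?_
    have := Finset.mem_range.1 hk
    omega
  have hstarm : ∀ k ≤ t, (Gm m).coeff k + (Gm m).coeff (t - k) = 2 * h k m := by
    intro k hk
    rw [hGmc, hGmc]
    have h1 := hstar k hk
    by_cases hk2 : k < r + 2
    · rw [if_pos hk2, if_neg (by omega)]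
      linarith
    · rw [if_neg hk2, if_pos (by omega), hsymm k hk, hisymm k hk]
      linarith
  have heval1 : (Gm m).eval 1 = 1 := by
    have h1 : (Gm m).eval 1 = ∑ k ∈ Finset.range (t + 1), (Gm m).coeff k := by
      rw [eval_eq_sum_range' (show (Gm m).natDegree < t + 1 by omega)]
      simp
    have h2 : ∑ k ∈ Finset.range (t + 1), (Gm m).coeff (t - k) =
        ∑ k ∈ Finset.range (t + 1), (Gm m).coeff k := by
      have := Finset.sum_range_reflect (fun k => (Gm m).coeff k) (t + 1)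
      simpa using this
    have h3 : ∑ k ∈ Finset.range (t + 1), ((Gm m).coeff k + (Gm m).coeff (t - k)) =
        ∑ k ∈ Finset.range (t + 1), 2 * h k m :=
      Finset.sum_congr rfl (fun k hk => hstarm k (by have := Finset.mem_range.1 hk; omega))
    rw [Finset.sum_add_distrib, h2, ← Finset.mul_sum] at h3
    have h4 : ∑ k ∈ Finset.range (t + 1), h k m = 1 := rr_sum t m (by omega)
    rw [h4] at h3
    rw [h1]
    linarith
  obtain ⟨l, hl1, hl2, hl3⟩ := rr_prod (Gm m) (2 * r + 1) hdegm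
    (fun k hk => hC k (Finset.mem_range.2 (by omega))) heval1 (Sa ∪ Sb)
    (by rw [Finset.card_union_of_disjoint hdisj, hSa, hSb, hpq])
    (fun x hx => by
      rcases Finset.mem_union.1 hx with hx | hx
      · exact (hSa' x hx).1
      · exact (hSb' x hx).1)
  refine ⟨l, by rw [hl1]; omega, hl2, fun k hk => ?_⟩
  rw [hl3, hstarm k hk]
  simp only [hh]
  ring

end SHU
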