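import Mathlib
import Pool.Agent.SHU.EV
import Pool.Agent.SHU.RR
import Pool.Agent.SHU.I4

/-!
# SHU.IL: schedules (interleaving of the runs)
-/

open scoped Pointwise

namespace SHU

theorem Spr.congr {α : Type} [DecidableEq α] {X H : Finset α} {L L' : List (Op α)}
    (h : Spr X H L) (h1 : ∀ e ∈ L', InX X e)
    (h2 : ∀ F : Finset α → ℝ, act L' F = act L F) : Spr X H L' :=
  ⟨h1, h.2.1, fun C hC A => by rw [h2]; exact h.2.2 C hC A⟩

theorem inter_mem {α : Type} (z₀ : α) (tl : List (α × α)) (SX : List (List (Op α) × α × α)) :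
    ∀ (v : α) (SY : List (List (Op α) × α × α)),
    ∀ e ∈ (inter z₀ tl v SX SY).flatMap (fun c => c.1),
      e ∈ SX.flatMap (fun c => c.1) ∨ e ∈ SY.flatMap (fun c => c.1) ∨
        e ∈ (inter z₀ tl v SX SY).map (fun c => ((c.2.1, c.2.2, 1 / 2) : Op α)) := by
  have hbase : ∀ l : List (α × α), ∀ e ∈ (l.map sgl).flatMap (fun c => c.1),
      e ∈ (l.map sgl).map (fun c => ((c.2.1, c.2.2, 1 / 2) : Op α)) := by
    intro l e he
    obtain ⟨c, hc, he⟩ := List.mem_flatMap.1 he
    obtain ⟨q, hq, rfl⟩ := List.mem_map.1 hc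
    simp only [sgl, List.mem_singleton] at he
    subst he
    exact List.mem_map.2 ⟨sgl q, List.mem_map.2 ⟨q, hq, rfl⟩, rfl⟩
  induction SX with
  | nil => intro v SY e he; exact Or.inr (Or.inr (hbase _ e he))
  | cons cX SX ih =>
    intro v SY e he
    cases SY with
    | nil => exact Or.inr (Or.inr (hbase _ e he))
    | cons cY SY =>
      simp only [inter, List.flatMap_cons, List.mem_append, List.map_cons, List.mem_cons,
        List.not_mem_nil, or_false] at he ⊢
      rcases he with (he | he) | (he | he) | he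
      · exact Or.inl (Or.inl he)
      · exact Or.inr (Or.inr (Or.inl he))
      · exact Or.inr (Or.inl (Or.inl he))
      · exact Or.inr (Or.inr (Or.inr (Or.inl he)))
      · rcases ih _ _ e he with h | h | h
        · exact Or.inl (Or.inr h)
        · exact Or.inr (Or.inl (Or.inr h))
        · exact Or.inr (Or.inr (Or.inr (Or.inr h)))

theorem leftover {α : Type} [DecidableEq α] (X : Finset α) (m : ℕ) (hX : X.card = m)
    (comp : List (List (Op α) × α × α)) (hl : comp.length = m / 2)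
    (hnd : (comp.flatMap (fun c => [c.2.1, c.2.2])).Nodup) :
    ∃ l : List α, l.length = m % 2 ∧ (∀ x ∈ l, x ∈ X) ∧
      (l ++ comp.flatMap (fun c => [c.2.1, c.2.2])).Nodup := by
  have hlen : ∀ comp : List (List (Op α) × α × α),
      (comp.flatMap (fun c => [c.2.1, c.2.2])).length = 2 * comp.length := by
    intro comp
    induction comp with
    | nil => simp
    | cons q M ih =>
      rw [List.flatMap_cons, List.length_append, ih, List.length_cons]
      simp only [List.length_cons, List.length_nil]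
      ring
  rcases Nat.mod_two_eq_zero_or_one m with h | h
  · exact ⟨[], by rw [h]; rfl, by simp, by simpa using hnd⟩
  · obtain ⟨x, hxX, hx⟩ : ∃ x ∈ X, x ∉ comp.flatMap (fun c => [c.2.1, c.2.2]) := by
      by_contra hcon
      push Not at hcon
      have h1 : X ⊆ (comp.flatMap (fun c => [c.2.1, c.2.2])).toFinset := fun y hy =>
        List.mem_toFinset.2 (hcon y hy)
      have h2 := Finset.card_le_card h1
      rw [List.toFinset_card_of_nodup hnd, hlen, hl, hX] at h2
      omega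
    refine ⟨[x], by rw [h]; rfl, by simpa using hxX, ?_⟩
    simp only [List.cons_append, List.nil_append, List.nodup_cons]
    exact ⟨hx, hnd⟩

theorem count_pairs {α : Type} [DecidableEq α] (a : α) (tl : List (α × α)) :
    List.count a (tl.flatMap (fun q => [q.1, q.2])) =
      List.count a (tl.map (fun q => q.1)) + List.count a (tl.map (fun q => q.2)) := by
  induction tl with
  | nil => simp
  | cons q tl ih =>
    simp only [List.flatMap_cons, List.count_append, List.map_cons, List.count_cons,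
      List.count_nil, ih]
    ring

variable {α : Type} [DecidableEq α] [Fintype α]

/-- the interleaved schedule -/
theorem exists_sched {X₁ X₂ H H' : Finset α} (hX : Disjoint X₁ X₂) (hc : X₁.card = X₂.card)
    (hH : H ⊆ X₁) (sp : List (Op α)) (hs1 : (sp.map (fun e => e.1)).Nodup)
    (hs2 : (sp.map (fun e => e.2.1)).Nodup) (hs3 : ∀ e ∈ sp, e.1 ∈ H)
    (hs4 : ∀ e ∈ sp, e.2.1 ∈ X₂ ∧ 0 ≤ e.2.2 ∧ e.2.2 ≤ 1)
    (hH' : (sp.map (fun e => e.2.1)).toFinset = H')
    (hg : ∀ k ≤ H.card, (gp (sp.map (fun e => e.2.2))).coeff k +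
      (gp (sp.map (fun e => e.2.2))).coeff (H.card - k) =
        2 * ((X₁.card.choose k : ℝ) * (X₁.card.choose (H.card - k) : ℝ)) /
          ((2 * X₁.card).choose H.card : ℝ))
    {LH LH' : List (Op α)} (hLH : IsSymOn H LH) (hLH' : IsSymOn H' LH')
    {k k' : ℕ} (hk : Cost LH k) (hk' : Cost LH' k')
    (S₁ : Sched X₁ H) (S₂ : Sched X₂ H') (hpos : 2 ≤ X₁.card) :
    ∃ S : Sched (X₁ ∪ X₂) H,
      S.cost ≤ S₁.cost + S₂.cost + X₁.card + (2 * sp.length + k + k' + 2) := by
  have hne : ∀ {x y : α}, x ∈ X₁ → y ∈ X₂ → x ≠ y := by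
    rintro x y hx hy rfl
    exact Finset.disjoint_left.1 hX hx hy
  obtain ⟨l₁, l11, l12, l13⟩ := leftover X₁ X₁.card rfl S₁.comp S₁.hlen S₁.hnd
  obtain ⟨l₂, l21, l22, l23⟩ := leftover X₂ X₁.card hc.symm S₂.comp (by rw [S₂.hlen, hc]) S₂.hnd
  obtain ⟨cX, SX, hSX⟩ : ∃ cX SX, S₁.comp = cX :: SX := by
    have := S₁.hlen
    cases h : S₁.comp with
    | nil => rw [h] at this; simp only [List.length_nil] at this; omega
    | cons a b => exact ⟨a, b, rfl⟩
  obtain ⟨cY, SY, hSY⟩ : ∃ cY SY, S₂.comp = cY :: SY := by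
    have := S₂.hlen
    cases h : S₂.comp with
    | nil => rw [h] at this; simp only [List.length_nil] at this; omega
    | cons a b => exact ⟨a, b, rfl⟩
  set tl : List (α × α) := l₁.zip l₂ with htl
  have t1 : tl.map (fun q => q.1) = l₁ := List.map_fst_zip (by omega)
  have t2 : tl.map (fun q => q.2) = l₂ := List.map_snd_zip (by omega)
  have t3 : ∀ q ∈ tl, q.1 ∈ X₁ ∧ q.2 ∈ X₂ := by
    intro q hq
    constructor
    · apply l12; rw [← t1]; exact List.mem_map.2 ⟨q, hq, rfl⟩
    · apply l22; rw [← t2]; exact List.mem_map.2 ⟨q, hq, rfl⟩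
  have t4 : tl.length = X₁.card % 2 := by rw [htl, List.length_zip, l11, l21, min_self]
  have f1 := S₁.hspr.1
  have f2 := S₂.hspr.1
  have fX : ∀ c ∈ S₁.comp, (∀ e ∈ c.1, e.1 ∈ X₁ ∧ e.2.1 ∈ X₁) ∧ c.2.1 ∈ X₁ ∧ c.2.2 ∈ X₁ := by
    intro c hc
    refine ⟨fun e he => ?_, S₁.hin c hc⟩
    have := f1 e (List.mem_append_right _ (List.mem_flatMap.2 ⟨c, hc, he⟩))
    exact ⟨this.1, this.2.1⟩
  have fY : ∀ c ∈ S₂.comp, (∀ e ∈ c.1, e.1 ∈ X₂ ∧ e.2.1 ∈ X₂) ∧ c.2.1 ∈ X₂ ∧ c.2.2 ∈ X₂ := by
    intro c hc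
    refine ⟨fun e he => ?_, S₂.hin c hc⟩
    have := f2 e (List.mem_append_right _ (List.mem_flatMap.2 ⟨c, hc, he⟩))
    exact ⟨this.1, this.2.1⟩
  have gX : ∀ e ∈ S₁.pre, e.1 ∈ X₁ ∧ e.2.1 ∈ X₁ := by
    intro e he
    have := f1 e (List.mem_append_left _ he)
    exact ⟨this.1, this.2.1⟩
  have gY : ∀ e ∈ S₂.pre, e.1 ∈ X₂ ∧ e.2.1 ∈ X₂ := by
    intro e he
    have := f2 e (List.mem_append_left _ he)
    exact ⟨this.1, this.2.1⟩
  have dX : S₁.comp.Pairwise Dn := S₁.hdone.imp (fun h => (dn_iff _ _).2 h)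
  have dY : S₂.comp.Pairwise Dn := S₂.hdone.imp (fun h => (dn_iff _ _).2 h)
  rw [hSX] at fX dX l13
  rw [hSY] at fY dY l23
  rw [List.flatMap_cons] at l13 l23
  simp only [List.cons_append, List.nil_append] at l13 l23
  obtain ⟨x1, x2, x3⟩ := fX cX (List.mem_cons_self ..)
  obtain ⟨y1, y2, y3⟩ := fY cY (List.mem_cons_self ..)
  have lenX : (cX :: SX).length = X₁.card / 2 := by rw [← hSX]; exact S₁.hlen
  have lenY : (cY :: SY).length = X₁.card / 2 := by rw [← hSY, hc]; exact S₂.hlen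
  rw [List.length_cons] at lenX lenY
  have ig : IG X₁ X₂ cX.2.1 tl cY.2.2 SX SY :=
    { len := by omega
      hv := y3
      hX := fun c hc => fX c (List.mem_cons_of_mem _ hc)
      hY := fun c hc => fY c (List.mem_cons_of_mem _ hc)
      n1 := by
        rw [t1]
        have h1 : (l₁ ++ cX.2.1 :: SX.flatMap (fun c => [c.2.1, c.2.2])).Nodup := by
          refine l13.sublist (List.Sublist.append (List.Sublist.refl _) ?_)
          exact List.Sublist.cons_cons _ (List.Sublist.cons _ (List.Sublist.refl _))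
        exact (List.perm_middle.nodup_iff).1 h1
      n2 := by
        rw [t2]
        refine l23.sublist (List.Sublist.append (List.Sublist.refl _) ?_)
        exact List.Sublist.cons _ (List.Sublist.refl _)
      d1 := (List.pairwise_cons.1 dX).2
      d2 := (List.pairwise_cons.1 dY).2
      av := fun c hc => ((List.pairwise_cons.1 dY).1 c hc).2 }
  set I := inter cX.2.1 tl cY.2.2 SX SY with hI
  have iperm := inter_perm cX.2.1 tl SX cY.2.2 SY ig.len
  rw [← hI] at iperm
  set cH : List (Op α) × α × α :=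
    (cY.1 ++ [(cY.2.1, cX.2.2, 1 / 2)], cY.2.1, cX.2.2) with hcH
  -- nodup
  have hnd : ((cH :: I).flatMap (fun c => [c.2.1, c.2.2])).Nodup := by
    have hbig : ((l₁ ++ cX.2.1 :: cX.2.2 :: SX.flatMap (fun c => [c.2.1, c.2.2])) ++
        (l₂ ++ cY.2.1 :: cY.2.2 :: SY.flatMap (fun c => [c.2.1, c.2.2]))).Nodup := by
      refine List.Nodup.append l13 l23 ?_
      intro x hx hy
      have hx1 : x ∈ X₁ := by
        simp only [List.mem_append, List.mem_cons, List.mem_flatMap] at hx
        rcases hx with h | rfl | rfl | ⟨c, hc, h⟩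
        · exact l12 x h
        · exact x2
        · exact x3
        · have := fX c (List.mem_cons_of_mem _ hc)
          simp only [List.not_mem_nil, or_false] at h
          rcases h with rfl | rfl
          · exact this.2.1
          · exact this.2.2
      have hx2 : x ∈ X₂ := by
        simp only [List.mem_append, List.mem_cons, List.mem_flatMap] at hy
        rcases hy with h | rfl | rfl | ⟨c, hc, h⟩
        · exact l22 x h
        · exact y2
        · exact y3
        · have := fY c (List.mem_cons_of_mem _ hc)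
          simp only [List.not_mem_nil, or_false] at h
          rcases h with rfl | rfl
          · exact this.2.1
          · exact this.2.2
      exact hne hx1 hx2 rfl
    refine (List.Perm.nodup_iff ?_).1 hbig
    rw [List.perm_iff_count]
    intro a
    have h1 := (List.perm_iff_count.1 iperm) a
    rw [List.flatMap_cons, hcH]
    simp only [List.count_append, List.count_cons, List.count_nil, count_pairs, t1, t2] at h1 ⊢
    rw [h1]
    ring
  have hside : ∀ c ∈ cH :: I, (c.2.1 ∈ X₁ ∧ c.2.2 ∈ X₂) ∨ (c.2.1 ∈ X₂ ∧ c.2.2 ∈ X₁) := by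
    intro c hc
    rcases List.mem_cons.1 hc with rfl | hc
    · exact Or.inr ⟨y2, x3⟩
    · exact inter_side X₁ X₂ cX.2.1 tl x2 t3 SX cY.2.2 SY y3
        (fun c hc => (ig.hX c hc).2) (fun c hc => (ig.hY c hc).2) c hc
  have hlenI : (cH :: I).length = X₁.card := by
    rw [List.length_cons, hI, inter_length _ _ _ _ _ ig.len, t4]
    omega
  have hPM : PM X₁ X₂ ((cH :: I).map (fun c => c.2)) := by
    refine ⟨?_, ?_, ?_⟩
    · rw [List.flatMap_map]; exact hnd
    · intro q hq
      obtain ⟨c, hc, rfl⟩ := List.mem_map.1 hq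
      exact hside c hc
    · rw [List.length_map, hlenI]
  subst hH'
  have hev := even_spr hX hc hH sp hs1 hs2 hs3 hs4 hg hLH hLH' S₁.hspr S₂.hspr _ hPM
  rw [List.map_map] at hev
  have hmm : ((fun q : α × α => ((q.1, q.2, 1 / 2) : Op α)) ∘
      (fun c : List (Op α) × α × α => c.2)) = fun c => ((c.2.1, c.2.2, 1 / 2) : Op α) := rfl
  rw [hmm, List.map_cons, hSX, hSY, List.flatMap_cons, List.flatMap_cons] at hev
  -- avoidance for the first run
  have n1 := ig.n1
  have n2 := ig.n2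
  have hd1 := (List.pairwise_cons.1 dX).1
  have hd2 := (List.pairwise_cons.1 dY).1
  have aY : ∀ d ∈ I, Av d.1 cY.2.1 := by
    rw [hI]
    rw [List.nodup_append] at l23
    simp only [List.nodup_cons, List.mem_cons, not_or] at l23
    obtain ⟨k1, ⟨⟨k2, k3⟩, k4, k5⟩, k6⟩ := l23
    apply inter_av cX.2.1 tl cY.2.1 (hne x2 y2) _ SX cY.2.2 SY (fun e => k2 e.symm)
    · intro c hc
      obtain ⟨a1, a2, a3⟩ := ig.hX c hc
      exact ⟨av_of_side hX a1 y2, hne a2 y2, hne a3 y2⟩
    · intro c hc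
      exact ⟨(hd2 c hc).1, fun e => k3 (e ▸ List.mem_flatMap.2 ⟨c, hc, by simp⟩),
        fun e => k3 (e ▸ List.mem_flatMap.2 ⟨c, hc, by simp⟩)⟩
    · intro q hq
      refine ⟨hne (t3 q hq).1 y2, ?_⟩
      exact k6 _ (by rw [← t2]; exact List.mem_map.2 ⟨q, hq, rfl⟩) _ (Or.inl rfl)
  have aX : ∀ d ∈ I, Av d.1 cX.2.2 := by
    rw [hI]
    rw [List.nodup_append] at l13
    simp only [List.nodup_cons, List.mem_cons, not_or] at l13
    obtain ⟨k1, ⟨⟨k2, k3⟩, k4, k5⟩, k6⟩ := l13
    apply inter_av cX.2.1 tl cX.2.2 k2 _ SX cY.2.2 SY (hne x3 y3).symm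
    · intro c hc
      exact ⟨(hd1 c hc).2, fun e => k4 (e ▸ List.mem_flatMap.2 ⟨c, hc, by simp⟩),
        fun e => k4 (e ▸ List.mem_flatMap.2 ⟨c, hc, by simp⟩)⟩
    · intro c hc
      obtain ⟨a1, a2, a3⟩ := ig.hY c hc
      exact ⟨av_of_side hX.symm a1 x3, (hne x3 a2).symm, (hne x3 a3).symm⟩
    · intro q hq
      refine ⟨?_, (hne x3 (t3 q hq).2).symm⟩
      exact k6 _ (by rw [← t1]; exact List.mem_map.2 ⟨q, hq, rfl⟩) _ (Or.inr (Or.inl rfl))
  have hdn : (cH :: I).Pairwise Dn := by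
    rw [List.pairwise_cons]
    exact ⟨fun d hd => ⟨aY d hd, aX d hd⟩, inter_dn hX x2 t3 SX cY.2.2 SY ig⟩
  -- the operator
  set SXf := SX.flatMap (fun c => c.1) with hSXf
  set SYf := SY.flatMap (fun c => c.1) with hSYf
  have sXf : ∀ e ∈ SXf, e.1 ∈ X₁ ∧ e.2.1 ∈ X₁ := by
    intro e he
    obtain ⟨c, hc, he⟩ := List.mem_flatMap.1 he
    exact (ig.hX c hc).1 e he
  have sYf : ∀ e ∈ SYf, e.1 ∈ X₂ ∧ e.2.1 ∈ X₂ := by
    intro e he
    obtain ⟨c, hc, he⟩ := List.mem_flatMap.1 he
    exact (ig.hY c hc).1 e he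
  have sideComm : ∀ {L L' : List (Op α)}, (∀ e ∈ L, e.1 ∈ X₁ ∧ e.2.1 ∈ X₁) →
      (∀ e ∈ L', e.1 ∈ X₂ ∧ e.2.1 ∈ X₂) → ∀ F : Finset α → ℝ,
      act L (act L' F) = act L' (act L F) := by
    intro L L' hL hL' F
    refine comm_av ?_ F
    intro e he
    exact ⟨av_of_side hX.symm hL' (hL e he).1, av_of_side hX.symm hL' (hL e he).2⟩
  have c1 : ∀ G : Finset α → ℝ, act SXf (act [(cY.2.1, cX.2.2, 1 / 2)] G) =
      act [(cY.2.1, cX.2.2, 1 / 2)] (act SXf G) := by
    intro G
    refine (comm_av ?_ G).symm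
    intro e he
    rw [List.mem_singleton] at he
    subst he
    exact ⟨av_of_side hX sXf y2, av_flatMap (fun c hc => (hd1 c hc).2)⟩
  have c2 : ∀ G : Finset α → ℝ, act SYf (act [(cY.2.1, cX.2.2, 1 / 2)] G) =
      act [(cY.2.1, cX.2.2, 1 / 2)] (act SYf G) := by
    intro G
    refine (comm_av ?_ G).symm
    intro e he
    rw [List.mem_singleton] at he
    subst he
    exact ⟨av_flatMap (fun c hc => (hd2 c hc).1), av_of_side hX.symm sYf x3⟩
  have hact : ∀ F : Finset α → ℝ,
      act ((sp ++ LH ++ LH' ++ S₁.pre ++ S₂.pre ++ cX.1) ++ (cH :: I).flatMap (fun c => c.1)) F =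
      act (sp ++ LH ++ LH' ++ (S₁.pre ++ (cX.1 ++ SXf)) ++ (S₂.pre ++ (cY.1 ++ SYf)) ++
        ((cH.2.1, cH.2.2, 1 / 2) :: I.map (fun c => ((c.2.1, c.2.2, 1 / 2) : Op α)))) F := by
    intro F
    have e1 : ((cH.2.1, cH.2.2, 1 / 2) :: I.map (fun c => ((c.2.1, c.2.2, 1 / 2) : Op α))) =
        [(cY.2.1, cX.2.2, 1 / 2)] ++ I.map (fun c => ((c.2.1, c.2.2, 1 / 2) : Op α)) := rfl
    have e2 : (cH :: I).flatMap (fun c => c.1) =
        cY.1 ++ [(cY.2.1, cX.2.2, 1 / 2)] ++ I.flatMap (fun c => c.1) := rfl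
    rw [e1, e2]
    simp only [act_append]
    rw [hI, inter_act hX SX cY.2.2 SY ig]
    simp only [act_append]
    rw [← hSXf, ← hSYf, ← hI]
    rw [c1, c2, sideComm sXf y1, sideComm x1 gY, sideComm sXf gY]
  let S : Sched (X₁ ∪ X₂) H :=
    { pre := sp ++ LH ++ LH' ++ S₁.pre ++ S₂.pre ++ cX.1
      cpre := 2 * sp.length + k + k' + S₁.cpre + S₂.cpre + (cX.1.length + 1)
      hpre := by
        obtain ⟨s, hs⟩ := S₁.hpath cX (by rw [hSX]; exact List.mem_cons_self ..)
        exact Cost.snoc _ _ _ s cX.2.1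
          (((((cost_ops sp).append hk).append hk').append S₁.hpre).append S₂.hpre) hs
      comp := cH :: I
      hpath := by
        intro c hc
        rcases List.mem_cons.1 hc with rfl | hc
        · obtain ⟨s, hs⟩ := S₂.hpath cY (by rw [hSY]; exact List.mem_cons_self ..)
          exact ⟨s, hs.append (Path.single _ _ _)⟩
        · refine inter_path cX.2.1 tl SX cY.2.2 SY (fun c hc => S₁.hpath c ?_)
            (fun c hc => S₂.hpath c ?_) c hc
          · rw [hSX]; exact List.mem_cons_of_mem _ hc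
          · rw [hSY]; exact List.mem_cons_of_mem _ hc
      hnd := hnd
      hin := by
        intro c hc
        rcases hside c hc with h | h
        · exact ⟨Finset.mem_union_left _ h.1, Finset.mem_union_right _ h.2⟩
        · exact ⟨Finset.mem_union_right _ h.1, Finset.mem_union_left _ h.2⟩
      hdone := hdn.imp (fun h => (dn_iff _ _).1 h)
      hlen := by
        rw [hlenI, Finset.card_union_of_disjoint hX, ← hc]; omega
      hspr := by
        refine hev.congr ?_ hact
        intro e he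
        apply hev.1
        have hkey : ∀ e ∈ I.flatMap (fun c => c.1), e ∈ SXf ∨ e ∈ SYf ∨
            e ∈ I.map (fun c => ((c.2.1, c.2.2, 1 / 2) : Op α)) :=
          inter_mem cX.2.1 tl SX cY.2.2 SY
        rw [List.flatMap_cons] at he
        simp only [hcH, List.mem_append, List.mem_cons, List.not_mem_nil, or_false] at he ⊢
        rcases he with (((((he | he) | he) | he) | he) | he) | ((he | he) | he)
        · exact Or.inl (Or.inl (Or.inl (Or.inl (Or.inl he))))
        · exact Or.inl (Or.inl (Or.inl (Or.inl (Or.inr he))))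
        · exact Or.inl (Or.inl (Or.inl (Or.inr he)))
        · exact Or.inl (Or.inl (Or.inr (Or.inl he)))
        · exact Or.inl (Or.inr (Or.inl he))
        · exact Or.inl (Or.inl (Or.inr (Or.inr (Or.inl he))))
        · exact Or.inl (Or.inr (Or.inr (Or.inl he)))
        · exact Or.inr (Or.inl he)
        · rcases hkey e he with h | h | h
          · exact Or.inl (Or.inl (Or.inr (Or.inr (Or.inr h))))
          · exact Or.inl (Or.inr (Or.inr (Or.inr h)))
          · exact Or.inr (Or.inr h) }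
  refine ⟨S, ?_⟩
  have hS : S.cost = 2 * sp.length + k + k' + S₁.cpre + S₂.cpre + (cX.1.length + 1) +
      ((cH :: I).map (fun c => c.1.length + 1)).sum := rfl
  have hS₁ : S₁.cost = S₁.cpre + ((cX :: SX).map (fun c => c.1.length + 1)).sum := by
    rw [← hSX]; rfl
  have hS₂ : S₂.cost = S₂.cpre + ((cY :: SY).map (fun c => c.1.length + 1)).sum := by
    rw [← hSY]; rfl
  rw [hS, hS₁, hS₂, List.map_cons, List.map_cons, List.map_cons, List.sum_cons, List.sum_cons,
    List.sum_cons, hI, inter_cost _ _ _ _ _ ig.len, t4, hcH]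
  simp only [List.length_append, List.length_cons, List.length_nil]
  omega

theorem he (t : ℕ) (ho : Odd t) (h3 : 3 ≤ t) : ∃ m₀ κ : ℕ, ∀ m ≥ m₀, ∀ c₁ c₂, SB t m c₁ →
    SB (t - 2) m c₂ → SB t (2 * m) (c₁ + c₂ + m + κ) := by
  obtain ⟨m₀, hm₀⟩ := rr t ho h3
  obtain ⟨cL, hcL⟩ := ht t
  obtain ⟨cL', hcL'⟩ := ht (t - 2)
  refine ⟨max m₀ t, 2 * (t - 2) + cL + cL' + 2, ?_⟩
  intro m hm c₁ c₂ hc₁ hc₂ α _ _ X H hHX hH hX
  obtain ⟨p, hp1, hp2, hp3⟩ := hm₀ m (le_trans (le_max_left _ _) hm)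
  have htm : t ≤ m := le_trans (le_max_right _ _) hm
  obtain ⟨X₁, hHX₁, hX₁X, hX₁⟩ := Finset.exists_subsuperset_card_eq hHX
    (by omega : H.card ≤ m) (by omega : m ≤ X.card)
  have hX₂ : (X \ X₁).card = m := by
    rw [Finset.card_sdiff_of_subset hX₁X]; omega
  have hXd : Disjoint X₁ (X \ X₁) := Finset.disjoint_sdiff
  have hXu : X₁ ∪ (X \ X₁) = X := Finset.union_sdiff_of_subset hX₁X
  obtain ⟨H', hH'X₂, hH'⟩ := Finset.exists_subset_card_eq (by omega : t - 2 ≤ (X \ X₁).card)
  set sp : List (Op α) := (H.toList.take (t - 2)).zip (H'.toList.zip p) with hsp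
  have q1 : (H'.toList.zip p).length = t - 2 := by
    rw [List.length_zip, Finset.length_toList, hH', hp1, min_self]
  have q0 : (H.toList.take (t - 2)).length = t - 2 := by
    rw [List.length_take, Finset.length_toList, hH]; omega
  have e1 : sp.map (fun e => e.1) = H.toList.take (t - 2) := List.map_fst_zip (by omega)
  have e23 : sp.map (fun e => e.2) = H'.toList.zip p := List.map_snd_zip (by omega)
  have e2 : sp.map (fun e => e.2.1) = H'.toList := by
    have : sp.map (fun e => e.2.1) = (sp.map (fun e => e.2)).map (fun e => e.1) := by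
      rw [List.map_map]; rfl
    rw [this, e23]
    exact List.map_fst_zip (by rw [Finset.length_toList, hH', hp1])
  have e3 : sp.map (fun e => e.2.2) = p := by
    have : sp.map (fun e => e.2.2) = (sp.map (fun e => e.2)).map (fun e => e.2) := by
      rw [List.map_map]; rfl
    rw [this, e23]
    exact List.map_snd_zip (by rw [Finset.length_toList, hH', hp1])
  have hsplen : sp.length = t - 2 := by rw [hsp, List.length_zip, q0, q1, min_self]
  obtain ⟨LH, k, hL, hk, hkc⟩ := hcL α H hH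
  obtain ⟨LH', k', hL', hk', hkc'⟩ := hcL' α H' hH'
  obtain ⟨S₁, hS₁⟩ := hc₁ α X₁ H hHX₁ hH hX₁
  obtain ⟨S₂, hS₂⟩ := hc₂ α (X \ X₁) H' hH'X₂ hH' hX₂
  have key := exists_sched (H' := H') hXd (by rw [hX₁, hX₂]) hHX₁ sp
    (by rw [e1]; exact H.nodup_toList.sublist (List.take_sublist _ _))
    (by rw [e2]; exact H'.nodup_toList)
    (by
      intro e he
      have : e.1 ∈ sp.map (fun e => e.1) := List.mem_map.2 ⟨e, he, rfl⟩
      rw [e1] at this
      exact Finset.mem_toList.1 (List.mem_of_mem_take this))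
    (by
      intro e he
      have h1 : e.2.1 ∈ sp.map (fun e => e.2.1) := List.mem_map.2 ⟨e, he, rfl⟩
      have h2 : e.2.2 ∈ sp.map (fun e => e.2.2) := List.mem_map.2 ⟨e, he, rfl⟩
      rw [e2] at h1
      rw [e3] at h2
      exact ⟨hH'X₂ (Finset.mem_toList.1 h1), hp2 _ h2⟩)
    (by rw [e2, Finset.toList_toFinset])
    (by
      rw [e3, hH, hX₁]
      exact hp3)
    hL hL' hk hk' S₁ S₂ (by omega)
  rw [hXu] at key
  obtain ⟨S, hS⟩ := key
  refine ⟨S, hS.trans ?_⟩
  rw [hsplen, hX₁]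
  omega

end SHU
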